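import Pool.Agent.LCK.Defs
import Pool.Agent.Helper14.LongCyc.Short

set_option linter.all false

/-!
# A vertex outside a shortest long cycle

If `C` is the vertex set of a cycle of length more than `r ≥ 4`, and no cycle of length at
least `r` inside `insert h C` is shorter than `C`, then `h` has at most `(r + 1) / 2`
neighbours in `C`.
-/

namespace Pool.Agent.LCK

open Pool.Agent.Helper14.LongCyc

universe u

/-- four elements of a finite set of natural numbers, in increasing order -/
theorem out_four {T : Finset ℕ} (h : 4 ≤ T.card) :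
    ∃ a ∈ T, ∃ b ∈ T, ∃ c ∈ T, ∃ d ∈ T, a < b ∧ b < c ∧ c < d := by
  obtain ⟨S, hS, hc⟩ := Finset.exists_subset_card_eq h
  let e := S.orderEmbOfFin hc
  have hm : ∀ i, e i ∈ T := fun i => hS (Finset.orderEmbOfFin_mem S hc i)
  exact ⟨e 0, hm 0, e 1, hm 1, e 2, hm 2, e 3, hm 3, e.strictMono (by decide),
    e.strictMono (by decide), e.strictMono (by decide)⟩

/-- three elements of a finite set of natural numbers, in increasing order -/
theorem out_three {T : Finset ℕ} (h : 3 ≤ T.card) :
    ∃ a ∈ T, ∃ b ∈ T, ∃ c ∈ T, a < b ∧ b < c := by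
  obtain ⟨S, hS, hc⟩ := Finset.exists_subset_card_eq h
  let e := S.orderEmbOfFin hc
  have hm : ∀ i, e i ∈ T := fun i => hS (Finset.orderEmbOfFin_mem S hc i)
  exact ⟨e 0, hm 0, e 1, hm 1, e 2, hm 2, e.strictMono (by decide), e.strictMono (by decide)⟩

/-- the counting part: a periodic set of positions in which no two members are at a distance
between `3` and `L - r + 2` has density at most `3 / (L - r + 5)` -/
theorem out_count {L r : ℕ} (hr : 5 ≤ r) (hL : r < L) (P : ℕ → Prop) [DecidablePred P]
    (hP : Function.Periodic P L)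
    (hgap : ∀ i s, 3 ≤ s → s + r ≤ L + 2 → P i → ¬ P (i + s)) :
    (L - r + 5) * L.count P ≤ 3 * L := by
  have hwin : ∀ x, ((Finset.range (L - r + 5)).filter fun t => P (x + t)).card ≤ 3 := by
    intro x
    by_contra hcon
    obtain ⟨a, ha, b, hb, c, hc, d, hd, hab, hbc, hcd⟩ := out_four (by omega :
      4 ≤ ((Finset.range (L - r + 5)).filter fun t => P (x + t)).card)
    rw [Finset.mem_filter, Finset.mem_range] at ha hb hc hd
    have key : ∀ s t, s < t → P (x + s) → P (x + t) → t - s ≤ 2 ∨ L + 3 ≤ t - s + r := by
      intro s t hst hs ht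
      by_contra hh
      refine hgap (x + s) (t - s) (by omega) (by omega) hs ?_
      rwa [show x + s + (t - s) = x + t by omega]
    have h1 := key a b hab ha.2 hb.2
    have h2 := key a c (by omega) ha.2 hc.2
    have h3 := key a d (by omega) ha.2 hd.2
    have h4 := key b c hbc hb.2 hc.2
    have h5 := key b d (by omega) hb.2 hd.2
    have h6 := key c d hcd hc.2 hd.2
    have h7 := hd.1
    omega
  have hsum : ∀ t, ((Finset.range L).filter fun x => P (x + t)).card = L.count P := by
    intro t
    rw [← Nat.filter_Ico_card_eq_of_periodic t L P hP]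
    refine Finset.card_bij (fun x _ => x + t) ?_ ?_ ?_
    · intro x hx
      rw [Finset.mem_filter, Finset.mem_range] at hx
      rw [Finset.mem_filter, Finset.mem_Ico]
      exact ⟨by omega, hx.2⟩
    · intro x _ y _ hxy
      simpa using hxy
    · intro y hy
      rw [Finset.mem_filter, Finset.mem_Ico] at hy
      refine ⟨y - t, ?_, by omega⟩
      rw [Finset.mem_filter, Finset.mem_range, Nat.sub_add_cancel hy.1.1]
      exact ⟨by omega, hy.2⟩
  have e1 : (L - r + 5) * L.count P =
      ∑ t ∈ Finset.range (L - r + 5), ((Finset.range L).filter fun x => P (x + t)).card := by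
    rw [Finset.sum_congr rfl fun t _ => hsum t, Finset.sum_const, Finset.card_range, smul_eq_mul]
  have e2 : ∑ t ∈ Finset.range (L - r + 5), ((Finset.range L).filter fun x => P (x + t)).card =
      ∑ x ∈ Finset.range L, ((Finset.range (L - r + 5)).filter fun t => P (x + t)).card := by
    simp only [Finset.card_filter]
    exact Finset.sum_comm
  rw [e1, e2]
  refine (Finset.sum_le_card_nsmul _ _ 3 fun x _ => hwin x).trans ?_
  rw [Finset.card_range, smul_eq_mul, mul_comm]

theorem outside {V : Type u} [DecidableEq V] {G : SimpleGraph V} {r : ℕ} (hr : 4 ≤ r)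
    {C : Finset V} {h : V} (hC : CycSet G C) (hCr : r < C.card) (hh : h ∉ C)
    (hmin : ∀ D, CycSet G D → D ⊆ insert h C → r ≤ D.card → C.card ≤ D.card) :
    dg G C h ≤ (r + 1) / 2 := by
  classical
  obtain ⟨c, hc, hcs⟩ := hC
  have hcn := Cyc.nodup hc
  have hcard := card_of_list hcn hcs
  have hp : 0 < c.length := by have := hc.1; omega
  rw [hcard] at hCr hmin
  have hmemC : ∀ i, cf c hp i ∈ C := fun i => (hcs _).1 (cf_mem hp i)
  -- one arc together with `h`
  have harc : ∀ i s, 1 ≤ s → s < c.length → G.Adj h (cf c hp i) → G.Adj h (cf c hp (i + s)) →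
      s + 2 < r ∨ c.length ≤ s + 2 := by
    intro i s hs1 hs h1 h2
    by_contra hcon
    rw [not_or] at hcon
    have hpth := (arc_pth hc hp s i hs).cons h1 (by
      rw [mem_seg]
      rintro ⟨j, _, _, hj⟩
      exact hh (hj ▸ hmemC j))
    have hlen : (h :: seg (cf c hp) i s).length = s + 2 := by
      rw [List.length_cons, seg_length]
    have hcyc : Cyc G (h :: seg (cf c hp) i s) :=
      ⟨by rw [hlen]; omega, _, _, hpth, h2.symm⟩
    have hD := Cyc.cycSet hcyc
    have hDc := card_of_list (Cyc.nodup hcyc) fun x => List.mem_toFinset.symm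
    have := hmin _ hD (by
      intro x hx
      rw [List.mem_toFinset, List.mem_cons, mem_seg] at hx
      rw [Finset.mem_insert]
      rcases hx with hx | ⟨j, _, _, rfl⟩
      · exact Or.inl hx
      · exact Or.inr (hmemC j)) (by rw [hDc, hlen]; omega)
    rw [hDc, hlen] at this
    omega
  -- both arcs
  have hboth : ∀ i s, 1 ≤ s → s < c.length → G.Adj h (cf c hp i) →
      G.Adj h (cf c hp (i + s)) → (s + 2 < r ∨ c.length ≤ s + 2) ∧
        (c.length < s + r - 2 ∨ s ≤ 2) := by
    intro i s hs1 hs h1 h2
    refine ⟨harc i s hs1 hs h1 h2, ?_⟩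
    have := harc (i + s) (c.length - s) (by omega) (by omega) h2 (by
      have e1 : cf c hp (i + s + (c.length - s)) = cf c hp i := by
        apply cf_congr
        rw [show i + s + (c.length - s) = i + c.length by omega, Nat.add_mod_right]
      rw [e1]; exact h1)
    omega
  -- the positions of the neighbours
  have hdI : dg G C h ≤ c.length.count fun i => G.Adj h (cf c hp i) := by
    rw [Nat.count_eq_card_filter_range]
    have : (C.filter fun u => G.Adj h u) ⊆
        ((Finset.range c.length).filter fun i => G.Adj h (cf c hp i)).image (cf c hp) := by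
      intro u hu
      rw [Finset.mem_filter] at hu
      obtain ⟨i, hi, rfl⟩ := exists_cf hp ((hcs u).2 hu.1)
      rw [Finset.mem_image]
      exact ⟨i, by rw [Finset.mem_filter, Finset.mem_range]; exact ⟨hi, hu.2⟩, rfl⟩
    rw [dg_eq_card]
    exact le_trans (Finset.card_le_card this) Finset.card_image_le
  refine hdI.trans ?_
  rcases Nat.lt_or_ge 4 r with hr5 | hr4
  · -- `r ≥ 5`
    have hcount := out_count (L := c.length) (r := r) hr5 hCr (fun i => G.Adj h (cf c hp i))
      (by
        intro i
        have e1 : cf c hp (i + c.length) = cf c hp i :=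
          cf_congr hp (by rw [Nat.add_mod_right])
        simp only [e1])
      (by
        intro i s hs3 hsr h1 h2
        have := hboth i s (by omega) (by omega) h1 h2
        omega)
    set k := c.length.count fun i => G.Adj h (cf c hp i) with hk
    by_contra hcon
    have h2k : r + 2 ≤ 2 * k := by omega
    obtain ⟨a, ha⟩ : ∃ a, r = a + 5 := ⟨r - 5, by omega⟩
    obtain ⟨b, hb⟩ : ∃ b, c.length = r + 1 + b := ⟨c.length - (r + 1), by omega⟩
    have e1 : c.length - r + 5 = b + 6 := by omega
    rw [e1] at hcount
    have h3 : (b + 6) * (r + 2) ≤ (b + 6) * (2 * k) := Nat.mul_le_mul_left _ h2k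
    have h4 : (b + 6) * (r + 2) ≤ 6 * (r + 1 + b) := by
      rw [← hb]; nlinarith
    subst ha
    nlinarith
  · -- `r = 4`
    have hr4' : r = 4 := by omega
    subst hr4'
    by_contra hcon
    rw [Nat.count_eq_card_filter_range] at hcon
    obtain ⟨x, hx, y, hy, z, hz, hxy, hyz⟩ := out_three (by omega :
      3 ≤ ((Finset.range c.length).filter fun i => G.Adj h (cf c hp i)).card)
    rw [Finset.mem_filter, Finset.mem_range] at hx hy hz
    have h1 := hboth x (y - x) (by omega) (by omega) hx.2 (by
      rw [show x + (y - x) = y by omega]; exact hy.2)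
    have h2 := hboth y (z - y) (by omega) (by omega) hy.2 (by
      rw [show y + (z - y) = z by omega]; exact hz.2)
    have h3 := hboth x (z - x) (by omega) (by omega) hx.2 (by
      rw [show x + (z - x) = z by omega]; exact hz.2)
    omega

end Pool.Agent.LCK
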