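import Pool.Agent.Helper14.LongCyc.Region

set_option linter.all false

namespace Pool.Agent.LCK

open Pool.Agent.Helper14.LongCyc

universe u

variable {V : Type u} {G : SimpleGraph V}

/-! ### degrees into sets -/

theorem dg_le (W : Finset V) (v : V) : dg G W v ≤ W.card := by
  classical
  unfold dg
  exact Finset.card_filter_le _ _

theorem dg_union [DecidableEq V] {A B : Finset V} (h : Disjoint A B) (v : V) :
    dg G (A ∪ B) v = dg G A v + dg G B v := by
  classical
  unfold dg
  rw [Finset.filter_union, Finset.card_union_of_disjoint]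
  exact Finset.disjoint_filter_filter h

theorem dg_split [DecidableEq V] {A B : Finset V} (h : B ⊆ A) (v : V) :
    dg G A v = dg G (A \ B) v + dg G B v := by
  rw [← dg_union Finset.sdiff_disjoint v, Finset.sdiff_union_of_subset h]

theorem dg_eq_card [DecidableEq V] [DecidableRel G.Adj] (W : Finset V) (v : V) :
    dg G W v = (W.filter fun u => G.Adj v u).card := by
  unfold dg
  congr

/-- the sum over `a ∈ A` of the number of neighbours of `a` in `B` -/
noncomputable def eS (G : SimpleGraph V) (A B : Finset V) : ℕ := ∑ a ∈ A, dg G B a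

theorem eS_comm (A B : Finset V) : eS G A B = eS G B A := by
  classical
  unfold eS dg
  simp only [Finset.card_filter]
  rw [Finset.sum_comm]
  refine Finset.sum_congr rfl fun b _ => Finset.sum_congr rfl fun a _ => ?_
  simp only [G.adj_comm]

theorem eS_union_left [DecidableEq V] {A A' : Finset V} (h : Disjoint A A') (B : Finset V) :
    eS G (A ∪ A') B = eS G A B + eS G A' B := by
  unfold eS
  rw [Finset.sum_union h]

theorem eS_union_right [DecidableEq V] {B B' : Finset V} (h : Disjoint B B') (A : Finset V) :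
    eS G A (B ∪ B') = eS G A B + eS G A B' := by
  rw [eS_comm, eS_union_left h, eS_comm B, eS_comm B']

theorem eS_split_left [DecidableEq V] {A B : Finset V} (h : B ⊆ A) (D : Finset V) :
    eS G A D = eS G (A \ B) D + eS G B D := by
  rw [← eS_union_left Finset.sdiff_disjoint, Finset.sdiff_union_of_subset h]

theorem eS_split_right [DecidableEq V] {A B : Finset V} (h : B ⊆ A) (D : Finset V) :
    eS G D A = eS G D (A \ B) + eS G D B := by
  rw [← eS_union_right Finset.sdiff_disjoint, Finset.sdiff_union_of_subset h]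

theorem eS_le (A B : Finset V) : eS G A B ≤ A.card * B.card := by
  unfold eS
  exact (Finset.sum_le_card_nsmul _ _ _ fun a _ => dg_le B a).trans (by simp)

theorem eS_mono_left {A A' : Finset V} (h : A ⊆ A') (B : Finset V) : eS G A B ≤ eS G A' B := by
  unfold eS
  exact Finset.sum_le_sum_of_subset h

theorem eS_mono_right {B B' : Finset V} (h : B ⊆ B') (A : Finset V) : eS G A B ≤ eS G A B' := by
  rw [eS_comm, eS_comm A]
  exact eS_mono_left h A

theorem eS_self_union [DecidableEq V] {A B : Finset V} (h : Disjoint A B) :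
    eS G (A ∪ B) (A ∪ B) = eS G A A + 2 * eS G A B + eS G B B := by
  rw [eS_union_left h, eS_union_right h, eS_union_right h, eS_comm B A]
  ring

/-! ### cycles as vertex sets -/

/-- `s` is the vertex set of a cycle of `G` (so the cycle has length `s.card`) -/
def CycSet (G : SimpleGraph V) (s : Finset V) : Prop :=
  ∃ l : List V, Cyc G l ∧ ∀ x, x ∈ l ↔ x ∈ s

theorem Cyc.nodup {l : List V} (h : Cyc G l) : l.Nodup := by
  obtain ⟨_, a, b, hp, _⟩ := h
  exact hp.1

theorem card_of_list [DecidableEq V] {l : List V} {s : Finset V} (hn : l.Nodup)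
    (hs : ∀ x, x ∈ l ↔ x ∈ s) : s.card = l.length := by
  have : s = l.toFinset := by
    ext x; rw [List.mem_toFinset]; exact (hs x).symm
  rw [this, List.toFinset_card_of_nodup hn]

theorem CycSet.three_le {s : Finset V} (h : CycSet G s) : 3 ≤ s.card := by
  classical
  obtain ⟨l, hl, hs⟩ := h
  rw [card_of_list (Cyc.nodup hl) hs]
  exact hl.1

theorem Cyc.cycSet [DecidableEq V] {l : List V} (h : Cyc G l) : CycSet G l.toFinset :=
  ⟨l, h, fun x => List.mem_toFinset.symm⟩

/-! ### families of disjoint cycles -/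

/-- `F` is a family of pairwise disjoint (vertex sets of) cycles inside `U`, with lengths
satisfying `P` -/
structure Fam (G : SimpleGraph V) (U : Finset V) (P : ℕ → Prop) (F : Finset (Finset V)) : Prop where
  cyc : ∀ s ∈ F, CycSet G s
  sub : ∀ s ∈ F, s ⊆ U
  len : ∀ s ∈ F, P s.card
  disj : ∀ s ∈ F, ∀ t ∈ F, s ≠ t → Disjoint s t

open Classical in
/-- the vertices of `U` outside the family `F` -/
noncomputable def rest (U : Finset V) (F : Finset (Finset V)) : Finset V :=
  U.filter fun v => ∀ s ∈ F, v ∉ s

/-- total length -/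
def tot (F : Finset (Finset V)) : ℕ := ∑ s ∈ F, s.card

/-- number of members of size exactly `r` -/
def ex (r : ℕ) (F : Finset (Finset V)) : ℕ := (F.filter fun s => s.card = r).card

theorem mem_rest {U : Finset V} {F : Finset (Finset V)} {v : V} :
    v ∈ rest U F ↔ v ∈ U ∧ ∀ s ∈ F, v ∉ s := by
  classical
  unfold rest
  rw [Finset.mem_filter]

theorem rest_subset (U : Finset V) (F : Finset (Finset V)) : rest U F ⊆ U :=
  fun _ h => (mem_rest.1 h).1

theorem rest_empty (U : Finset V) : rest U (∅ : Finset (Finset V)) = U := by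
  ext v; simp [mem_rest]

theorem Fam.empty {U : Finset V} {P : ℕ → Prop} : Fam G U P ∅ :=
  ⟨by simp, by simp, by simp, by simp⟩

theorem Fam.rest_disj {U : Finset V} {F : Finset (Finset V)} {s : Finset V}
    (hs : s ∈ F) : Disjoint s (rest U F) := by
  rw [Finset.disjoint_right]
  intro v hv
  exact (mem_rest.1 hv).2 s hs

theorem Fam.mono {U U' : Finset V} {P P' : ℕ → Prop} {F : Finset (Finset V)} (h : Fam G U P F)
    (hU : U ⊆ U') (hP : ∀ n, P n → P' n) : Fam G U' P' F :=
  ⟨h.cyc, fun s hs => (h.sub s hs).trans hU, fun s hs => hP _ (h.len s hs), h.disj⟩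

/-- every vertex of `U` is in the rest or in exactly one member: sums split -/
theorem Fam.sum_split [DecidableEq V] {U : Finset V} {P : ℕ → Prop} {F : Finset (Finset V)}
    (h : Fam G U P F) (f : V → ℕ) :
    ∑ v ∈ U, f v = ∑ v ∈ rest U F, f v + ∑ s ∈ F, ∑ v ∈ s, f v := by
  classical
  have h1 : U = rest U F ∪ F.biUnion id := by
    ext v
    simp only [Finset.mem_union, mem_rest, Finset.mem_biUnion, id]
    constructor
    · intro hv
      by_cases hc : ∃ s ∈ F, v ∈ s
      · exact Or.inr hc
      · push Not at hc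
        exact Or.inl ⟨hv, hc⟩
    · rintro (hv | ⟨s, hs, hv⟩)
      · exact hv.1
      · exact h.sub s hs hv
  have h2 : Disjoint (rest U F) (F.biUnion id) := by
    rw [Finset.disjoint_left]
    intro v hv hv'
    rw [Finset.mem_biUnion] at hv'
    obtain ⟨s, hs, hvs⟩ := hv'
    exact (mem_rest.1 hv).2 s hs hvs
  conv_lhs => rw [h1]
  rw [Finset.sum_union h2, Finset.sum_biUnion]
  · rfl
  · intro s hs t ht hst
    exact h.disj s hs t ht hst

theorem Fam.card_rest [DecidableEq V] {U : Finset V} {P : ℕ → Prop} {F : Finset (Finset V)}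
    (h : Fam G U P F) : (rest U F).card + tot F = U.card := by
  have := h.sum_split (fun _ => 1)
  simp only [Finset.sum_const, smul_eq_mul, mul_one] at this
  unfold tot
  exact this.symm

theorem Fam.eS_split [DecidableEq V] {U : Finset V} {P : ℕ → Prop} {F : Finset (Finset V)}
    (h : Fam G U P F) (A : Finset V) :
    eS G A U = eS G A (rest U F) + ∑ s ∈ F, eS G A s := by
  rw [eS_comm A U]
  unfold eS
  rw [h.sum_split]
  congr 1
  · exact eS_comm _ _
  · exact Finset.sum_congr rfl fun s _ => eS_comm _ _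

theorem Fam.dg_split [DecidableEq V] {U : Finset V} {P : ℕ → Prop} {F : Finset (Finset V)}
    (h : Fam G U P F) (v : V) :
    dg G U v = dg G (rest U F) v + ∑ s ∈ F, dg G s v := by
  have := h.eS_split ({v} : Finset V)
  simpa [eS] using this

/-- replace the subfamily `A` of `F` by a family `B` inside the union of `A` and the rest -/
theorem Fam.swap [DecidableEq V] {U : Finset V} {P : ℕ → Prop} {F A B : Finset (Finset V)}
    (h : Fam G U P F) (hA : A ⊆ F) (hB : Fam G (A.biUnion id ∪ rest U F) P B) :
    Fam G U P ((F \ A) ∪ B) ∧ Disjoint (F \ A) B ∧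
      rest U ((F \ A) ∪ B) = rest (A.biUnion id ∪ rest U F) B := by
  classical
  have key : ∀ s ∈ F \ A, ∀ t ∈ B, Disjoint s t := by
    intro s hs t ht
    rw [Finset.mem_sdiff] at hs
    rw [Finset.disjoint_left]
    intro v hv hvt
    have := hB.sub t ht hvt
    rw [Finset.mem_union, Finset.mem_biUnion] at this
    rcases this with ⟨w, hw, hvw⟩ | hv2
    · have hne : s ≠ w := by rintro rfl; exact hs.2 hw
      exact (Finset.disjoint_left.1 (h.disj s hs.1 w (hA hw) hne)) hv hvw
    · exact (mem_rest.1 hv2).2 s hs.1 hv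
  have hsub : ∀ t ∈ B, t ⊆ U := by
    intro t ht v hv
    have := hB.sub t ht hv
    rw [Finset.mem_union, Finset.mem_biUnion] at this
    rcases this with ⟨w, hw, hvw⟩ | hv2
    · exact h.sub w (hA hw) hvw
    · exact rest_subset _ _ hv2
  refine ⟨⟨?_, ?_, ?_, ?_⟩, ?_, ?_⟩
  · intro s hs
    rcases Finset.mem_union.1 hs with hs | hs
    · exact h.cyc s (Finset.mem_sdiff.1 hs).1
    · exact hB.cyc s hs
  · intro s hs
    rcases Finset.mem_union.1 hs with hs | hs
    · exact h.sub s (Finset.mem_sdiff.1 hs).1
    · exact hsub s hs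
  · intro s hs
    rcases Finset.mem_union.1 hs with hs | hs
    · exact h.len s (Finset.mem_sdiff.1 hs).1
    · exact hB.len s hs
  · intro s hs t ht hst
    rcases Finset.mem_union.1 hs with hs | hs <;> rcases Finset.mem_union.1 ht with ht | ht
    · exact h.disj s (Finset.mem_sdiff.1 hs).1 t (Finset.mem_sdiff.1 ht).1 hst
    · exact key s hs t ht
    · exact (key t ht s hs).symm
    · exact hB.disj s hs t ht hst
  · rw [Finset.disjoint_left]
    intro s hs hs'
    have h1 := key s hs s hs'
    have h2 : s = ∅ := by simpa using h1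
    have h3 := (h.cyc s (Finset.mem_sdiff.1 hs).1).three_le
    rw [h2] at h3
    simp at h3
  · ext v
    simp only [mem_rest, Finset.mem_union, Finset.mem_biUnion, id, Finset.mem_sdiff]
    constructor
    · rintro ⟨hvU, hv⟩
      refine ⟨?_, fun s hs => hv s (Or.inr hs)⟩
      by_cases hc : ∃ w ∈ A, v ∈ w
      · exact Or.inl hc
      · push Not at hc
        refine Or.inr ⟨hvU, fun s hs => ?_⟩
        by_cases hsA : s ∈ A
        · exact hc s hsA
        · exact hv s (Or.inl ⟨hs, hsA⟩)
    · rintro ⟨h1, h2⟩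
      constructor
      · rcases h1 with ⟨w, hw, hvw⟩ | h1
        · exact h.sub w (hA hw) hvw
        · exact h1.1
      · rintro s (⟨hs, hsA⟩ | hs)
        · rcases h1 with ⟨w, hw, hvw⟩ | h1
          · intro hvs
            have hne : s ≠ w := by rintro rfl; exact hsA hw
            exact (Finset.disjoint_left.1 (h.disj s hs w (hA hw) hne)) hvs hvw
          · exact h1.2 s hs
        · exact h2 s hs

/-- add one more cycle -/
theorem Fam.add [DecidableEq V] {U : Finset V} {P : ℕ → Prop} {F : Finset (Finset V)}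
    (h : Fam G U P F) {D : Finset V} (hD : CycSet G D) (hDs : D ⊆ rest U F) (hP : P D.card) :
    Fam G U P (insert D F) ∧ (insert D F).card = F.card + 1 := by
  have hB : Fam G ((∅ : Finset (Finset V)).biUnion id ∪ rest U F) P {D} :=
    ⟨by simpa using hD, by simpa using hDs, by simpa using hP, by
      intro s hs t ht hst
      rw [Finset.mem_singleton] at hs ht
      exact absurd (hs.trans ht.symm) hst⟩
  obtain ⟨h1, h2, h3⟩ := h.swap (Finset.empty_subset F) hB
  have e : (F \ ∅) ∪ {D} = insert D F := by
    rw [Finset.sdiff_empty, Finset.union_comm, Finset.insert_eq]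
  rw [e] at h1
  refine ⟨h1, Finset.card_insert_of_notMem ?_⟩
  intro hmem
  rw [Finset.sdiff_empty] at h2
  exact (Finset.disjoint_left.1 h2) hmem (Finset.mem_singleton_self D)

/-- replace one cycle by another one -/
theorem Fam.replace [DecidableEq V] {U : Finset V} {P : ℕ → Prop} {F : Finset (Finset V)}
    (h : Fam G U P F) {C D : Finset V} (hC : C ∈ F) (hD : CycSet G D) (hDs : D ⊆ C ∪ rest U F)
    (hP : P D.card) :
    Fam G U P (insert D (F.erase C)) ∧ D ∉ F.erase C ∧
      rest U (insert D (F.erase C)) = (C ∪ rest U F) \ D := by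
  have hA : ({C} : Finset (Finset V)) ⊆ F := by simpa using hC
  have hB : Fam G (({C} : Finset (Finset V)).biUnion id ∪ rest U F) P {D} :=
    ⟨by simpa using hD, by simpa using hDs, by simpa using hP, by
      intro s hs t ht hst
      rw [Finset.mem_singleton] at hs ht
      exact absurd (hs.trans ht.symm) hst⟩
  obtain ⟨h1, h2, h3⟩ := h.swap hA hB
  have e : (F \ {C}) ∪ {D} = insert D (F.erase C) := by
    rw [Finset.sdiff_singleton_eq_erase, Finset.union_comm, Finset.insert_eq]
  rw [e] at h1 h3
  refine ⟨h1, ?_, ?_⟩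
  · intro hmem
    rw [Finset.sdiff_singleton_eq_erase] at h2
    exact (Finset.disjoint_left.1 h2) hmem (Finset.mem_singleton_self D)
  · rw [h3]
    ext v
    simp [mem_rest]

/-- two cycles can replace one -/
theorem Fam.split_one [DecidableEq V] {U : Finset V} {P : ℕ → Prop} {F : Finset (Finset V)}
    (h : Fam G U P F) {C D D' : Finset V} (hC : C ∈ F) (hD : CycSet G D) (hD' : CycSet G D')
    (hDs : D ⊆ C ∪ rest U F) (hDs' : D' ⊆ C ∪ rest U F) (hdd : Disjoint D D')
    (hP : P D.card) (hP' : P D'.card) :
    ∃ F', Fam G U P F' ∧ F'.card = F.card + 1 ∧ F' = (F \ {C}) ∪ {D, D'} := by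
  have hne : D ≠ D' := by
    rintro rfl
    have h1 : D = ∅ := by simpa using hdd
    have h2 := hD.three_le
    rw [h1] at h2; simp at h2
  have hA : ({C} : Finset (Finset V)) ⊆ F := by simpa using hC
  have hB : Fam G (({C} : Finset (Finset V)).biUnion id ∪ rest U F) P {D, D'} := by
    refine ⟨?_, ?_, ?_, ?_⟩
    · intro s hs
      rcases Finset.mem_insert.1 hs with rfl | hs
      · exact hD
      · rw [Finset.mem_singleton.1 hs]; exact hD'
    · intro s hs
      rcases Finset.mem_insert.1 hs with rfl | hs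
      · simpa using hDs
      · rw [Finset.mem_singleton.1 hs]; simpa using hDs'
    · intro s hs
      rcases Finset.mem_insert.1 hs with rfl | hs
      · exact hP
      · rw [Finset.mem_singleton.1 hs]; exact hP'
    · intro s hs t ht hst
      rw [Finset.mem_insert, Finset.mem_singleton] at hs ht
      rcases hs with hs | hs <;> rcases ht with ht | ht
      · exact absurd (hs.trans ht.symm) hst
      · rw [hs, ht]; exact hdd
      · rw [hs, ht]; exact hdd.symm
      · exact absurd (hs.trans ht.symm) hst
  obtain ⟨h1, h2, h3⟩ := h.swap hA hB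
  refine ⟨_, h1, ?_, rfl⟩
  rw [Finset.card_union_of_disjoint h2, Finset.card_sdiff_of_subset hA, Finset.card_singleton,
    Finset.card_pair hne]
  have := Finset.card_pos.2 ⟨C, hC⟩
  omega

/-- a family of `k` disjoint cycles of length at least `r` gives walks -/
theorem Fam.walks [Fintype V] {r k : ℕ} {P : ℕ → Prop} {F : Finset (Finset V)} {U : Finset V}
    (h : Fam G U P F) (hP : ∀ n, P n → r ≤ n) (hk : F.card = k) :
    ∃ (a : Fin k → V) (c : (i : Fin k) → G.Walk (a i) (a i)),
      (∀ i, (c i).IsCycle ∧ r ≤ (c i).length) ∧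
      ∀ i j, i ≠ j → ∀ x, x ∈ (c i).support → x ∉ (c j).support := by
  classical
  subst hk
  let e := F.equivFin.symm
  have key : ∀ i : Fin F.card, ∃ (a : V) (c : G.Walk a a), c.IsCycle ∧ r ≤ c.length ∧
      ∀ x, x ∈ c.support → x ∈ (e i : Finset V) := by
    intro i
    obtain ⟨l, hl, hs⟩ := h.cyc (e i) (e i).2
    obtain ⟨a, c, h1, h2, h3⟩ := hl.exists_walk
    refine ⟨a, c, h1, ?_, fun x hx => (hs x).1 (h3 x hx)⟩
    rw [h2, ← card_of_list (Cyc.nodup hl) hs]
    exact hP _ (h.len _ (e i).2)
  choose a c h1 h2 h3 using key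
  refine ⟨a, c, fun i => ⟨h1 i, h2 i⟩, ?_⟩
  intro i j hij x hx hx'
  have hne : (e i : Finset V) ≠ e j := by
    intro h
    exact hij (e.injective (Subtype.ext h))
  exact (Finset.disjoint_left.1 (h.disj _ (e i).2 _ (e j).2 hne)) (h3 i x hx) (h3 j x hx')

/-! ### rich pairs and parametrised cycles -/

open Classical in
/-- `x` and `y` have at least `m` common neighbours in `Z` -/
def Rich (G : SimpleGraph V) (Z : Finset V) (m : ℕ) (x y : V) : Prop :=
  m ≤ (Z.filter fun z => G.Adj x z ∧ G.Adj y z).card

open Classical in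
/-- every member of `S` is rich with all but at most `b` other members of `S` -/
def Near (G : SimpleGraph V) (S Z : Finset V) (m b : ℕ) : Prop :=
  ∀ x ∈ S, (S.filter fun y => y ≠ x ∧ ¬ Rich G Z m x y).card ≤ b

/-- `m` disjoint `r`-cycles inside `U`, parametrised by `c j t`, `j < m`, `t < r` -/
structure Res (G : SimpleGraph V) (U : Finset V) (m r : ℕ) (c : ℕ → ℕ → V) : Prop where
  mem : ∀ j < m, ∀ t < r, c j t ∈ U
  inj : ∀ j < m, ∀ t < r, ∀ j' < m, ∀ t' < r, c j t = c j' t' → j = j' ∧ t = t'
  adj : ∀ j < m, ∀ t, t + 1 < r → G.Adj (c j t) (c j (t + 1))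
  close : ∀ j < m, G.Adj (c j (r - 1)) (c j 0)

end Pool.Agent.LCK
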