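import Pool.Agent.LCK.Defs

set_option linter.all false

namespace Pool.Agent.LCK

open Pool.Agent.Helper14.LongCyc

universe u

theorem abs_cyc {V : Type u} [DecidableEq V] {G : SimpleGraph V} {f : ℕ → V} {r : ℕ} (hr : 3 ≤ r)
    (hinj : ∀ i < r, ∀ j < r, f i = f j → i = j)
    (hadj : ∀ i, i + 1 < r → G.Adj (f i) (f (i + 1))) (hclose : G.Adj (f (r - 1)) (f 0)) :
    CycSet G ((Finset.range r).image f) ∧ ((Finset.range r).image f).card = r := by
  have hlen : ((List.range r).map f).length = r := by simp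
  have hnd : ((List.range r).map f).Nodup := by
    refine List.Nodup.map_on ?_ List.nodup_range
    intro x hx y hy hxy
    rw [List.mem_range] at hx hy
    exact hinj x hx y hy hxy
  constructor
  · refine ⟨(List.range r).map f, ⟨by rw [hlen]; exact hr, f 0, f (r - 1), ⟨hnd, ?_, ?_, ?_⟩,
      hclose⟩, ?_⟩
    · rw [List.isChain_iff_getElem]
      intro i hi
      rw [hlen] at hi
      simp only [List.getElem_map, List.getElem_range]
      exact hadj i hi
    · rw [List.head?_eq_getElem?, List.getElem?_eq_getElem (by rw [hlen]; omega)]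
      simp
    · rw [List.getLast?_eq_getElem?, List.getElem?_eq_getElem (by rw [hlen]; omega)]
      simp
    · intro x
      simp
  · rw [Finset.card_image_of_injOn, Finset.card_range]
    intro x hx y hy hxy
    rw [Finset.mem_coe, Finset.mem_range] at hx hy
    exact hinj x hx y hy hxy

theorem abs_fam {V : Type u} [DecidableEq V] {G : SimpleGraph V} {W : Finset V} {n r : ℕ}
    {e : ℕ → ℕ → V} (hr : 3 ≤ r) (h : Res G W n r e) :
    ∃ F, Fam G W (fun L => L = r) F ∧ F.card = n := by
  have hc : ∀ i < n, CycSet G ((Finset.range r).image (e i)) ∧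
      ((Finset.range r).image (e i)).card = r := fun i hi =>
    abs_cyc hr (fun s hs t ht hst => (h.inj i hi s hs i hi t ht hst).2) (h.adj i hi) (h.close i hi)
  have key : ∀ i < n, ∀ j < n, i ≠ j →
      Disjoint ((Finset.range r).image (e i)) ((Finset.range r).image (e j)) := by
    intro i hi j hj hij
    rw [Finset.disjoint_left]
    intro v hv hv'
    rw [Finset.mem_image] at hv hv'
    obtain ⟨s, hs, rfl⟩ := hv
    obtain ⟨t, ht, he⟩ := hv'
    rw [Finset.mem_range] at hs ht
    exact hij (h.inj j hj t ht i hi s hs he).1.symm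
  refine ⟨(Finset.range n).image fun i => (Finset.range r).image (e i), ⟨?_, ?_, ?_, ?_⟩, ?_⟩
  · intro s hs
    rw [Finset.mem_image] at hs
    obtain ⟨i, hi, rfl⟩ := hs
    exact (hc i (Finset.mem_range.1 hi)).1
  · intro s hs
    rw [Finset.mem_image] at hs
    obtain ⟨i, hi, rfl⟩ := hs
    intro v hv
    rw [Finset.mem_image] at hv
    obtain ⟨t, ht, rfl⟩ := hv
    exact h.mem i (Finset.mem_range.1 hi) t (Finset.mem_range.1 ht)
  · intro s hs
    rw [Finset.mem_image] at hs
    obtain ⟨i, hi, rfl⟩ := hs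
    exact (hc i (Finset.mem_range.1 hi)).2
  · intro s hs t ht hst
    rw [Finset.mem_image] at hs ht
    obtain ⟨i, hi, rfl⟩ := hs
    obtain ⟨j, hj, rfl⟩ := ht
    refine key i (Finset.mem_range.1 hi) j (Finset.mem_range.1 hj) ?_
    rintro rfl
    exact hst rfl
  · rw [Finset.card_image_of_injOn, Finset.card_range]
    intro i hi j hj hij
    rw [Finset.mem_coe, Finset.mem_range] at hi hj
    by_contra hne
    have h1 := key i hi j hj hne
    have h2 : (Finset.range r).image (e i) = (Finset.range r).image (e j) := hij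
    rw [h2, disjoint_self] at h1
    have h3 := (hc j hj).2
    rw [h1] at h3
    simp at h3
    omega

/-- the greedy choice of positions -/
theorem abs_pos {V : Type u} [DecidableEq V] {G : SimpleGraph V} {U : Finset V} {m q r M : ℕ}
    (hr : 4 ≤ r) (hq : 4 * q ≤ r) {c : ℕ → ℕ → V} (hc : Res G U m r c)
    (hcount : ∀ v ∈ U, ∀ u ∈ U, ∀ u' ∈ U, ∃ I : Finset (ℕ × ℕ),
      I ⊆ Finset.range m ×ˢ Finset.range q ∧ M * r ≤ I.card ∧ ∀ p ∈ I,
        G.Adj v (c p.1 (4 * p.2)) ∧ G.Adj v (c p.1 (4 * p.2 + 2)) ∧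
        G.Adj u (c p.1 (4 * p.2 + 1)) ∧ G.Adj u' (c p.1 (4 * p.2 + 1)))
    (v : ℕ → V) (hv : ∀ l < M * r, v l ∈ U) :
    ∀ n ≤ M * r, ∃ p : ℕ → ℕ × ℕ, (∀ l < n, (p l).1 < m ∧ (p l).2 < q) ∧
      (∀ l < n, ∀ l' < n, p l = p l' → l = l') ∧
      (∀ l < n, G.Adj (v l) (c (p l).1 (4 * (p l).2)) ∧
        G.Adj (v l) (c (p l).1 (4 * (p l).2 + 2))) ∧
      (∀ l < n, l % r ≠ 0 →
        G.Adj (c (p (l - 1)).1 (4 * (p (l - 1)).2 + 1)) (c (p l).1 (4 * (p l).2 + 1))) ∧
      (∀ l < n, l % r = r - 1 → G.Adj (c (p (l - (r - 1))).1 (4 * (p (l - (r - 1))).2 + 1))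
        (c (p l).1 (4 * (p l).2 + 1))) := by
  intro n
  induction n with
  | zero => intro _; exact ⟨fun _ => (0, 0), by simp, by simp, by simp, by simp, by simp⟩
  | succ n ih =>
    intro hn
    obtain ⟨p, h1, h2, h3, h4, h5⟩ := ih (by omega)
    have hy : ∀ l < n, c (p l).1 (4 * (p l).2 + 1) ∈ U := by
      intro l hl
      have := h1 l hl
      exact hc.mem _ this.1 _ (by omega)
    have hvn := hv n (by omega)
    let u : V := if n % r ≠ 0 then c (p (n - 1)).1 (4 * (p (n - 1)).2 + 1) else v n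
    let u' : V := if n % r = r - 1 then
      c (p (n - (r - 1))).1 (4 * (p (n - (r - 1))).2 + 1) else v n
    have hmodle : n % r ≤ n := Nat.mod_le _ _
    have hu : u ∈ U := by
      by_cases h : n % r ≠ 0
      · simp only [u, if_pos h]
        exact hy _ (by omega)
      · simp only [u, if_neg h]
        exact hvn
    have hu' : u' ∈ U := by
      by_cases h : n % r = r - 1
      · simp only [u', if_pos h]
        exact hy _ (by omega)
      · simp only [u', if_neg h]
        exact hvn
    obtain ⟨I, hI, hIc, hIp⟩ := hcount (v n) hvn u hu u' hu'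
    obtain ⟨x, hxI, hxn⟩ : ∃ x ∈ I, x ∉ (Finset.range n).image p := by
      by_contra hcon
      push Not at hcon
      have h6 := Finset.card_le_card (show I ⊆ (Finset.range n).image p from hcon)
      have h7 := (Finset.card_image_le (s := Finset.range n) (f := p))
      rw [Finset.card_range] at h7
      omega
    have hxp : ∀ l < n, p l ≠ x := by
      intro l hl h
      exact hxn (Finset.mem_image.2 ⟨l, Finset.mem_range.2 hl, h⟩)
    have hx := hIp x hxI
    have hxr := Finset.mem_product.1 (hI hxI)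
    rw [Finset.mem_range, Finset.mem_range] at hxr
    have hpn : Function.update p n x n = x := Function.update_self _ _ _
    have hpl : ∀ l, l ≠ n → Function.update p n x l = p l := fun l hl =>
      Function.update_of_ne hl _ _
    refine ⟨Function.update p n x, ?_, ?_, ?_, ?_, ?_⟩
    · intro l hl
      by_cases hln : l = n
      · subst hln; rw [hpn]; exact hxr
      · rw [hpl l hln]; exact h1 l (by omega)
    · intro l hl l' hl' he
      by_cases hln : l = n
      · by_cases hln' : l' = n
        · omega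
        · rw [hln, hpn, hpl l' hln'] at he
          exact absurd he.symm (hxp l' (by omega))
      · by_cases hln' : l' = n
        · rw [hln', hpn, hpl l hln] at he
          exact absurd he (hxp l (by omega))
        · rw [hpl l hln, hpl l' hln'] at he
          exact h2 l (by omega) l' (by omega) he
    · intro l hl
      by_cases hln : l = n
      · subst hln; rw [hpn]; exact ⟨hx.1, hx.2.1⟩
      · rw [hpl l hln]; exact h3 l (by omega)
    · intro l hl hlr
      by_cases hln : l = n
      · subst hln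
        have hl0 : l ≠ 0 := by rintro rfl; simp at hlr
        rw [hpn, hpl (l - 1) (by omega)]
        have := hx.2.2.1
        simp only [u, if_pos hlr] at this
        exact this
      · rw [hpl l hln, hpl (l - 1) (by omega)]
        exact h4 l (by omega) hlr
    · intro l hl hlr
      have hle : l % r ≤ l := Nat.mod_le _ _
      by_cases hln : l = n
      · subst hln
        rw [hpn, hpl (l - (r - 1)) (by omega)]
        have := hx.2.2.2
        simp only [u', if_pos hlr] at this
        exact this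
      · rw [hpl l hln, hpl (l - (r - 1)) (by omega)]
        exact h5 l (by omega) hlr

/-- ROW ABS -/
theorem absorb {V : Type u} [DecidableEq V] (G : SimpleGraph V) (U : Finset V) (m q r M : ℕ)
    (hr : 4 ≤ r) (hq : 4 * q ≤ r) (c : ℕ → ℕ → V) (hc : Res G U m r c)
    (hcount : ∀ v ∈ U, ∀ u ∈ U, ∀ u' ∈ U, ∃ I : Finset (ℕ × ℕ),
      I ⊆ Finset.range m ×ˢ Finset.range q ∧ M * r ≤ I.card ∧ ∀ p ∈ I,
        G.Adj v (c p.1 (4 * p.2)) ∧ G.Adj v (c p.1 (4 * p.2 + 2)) ∧
        G.Adj u (c p.1 (4 * p.2 + 1)) ∧ G.Adj u' (c p.1 (4 * p.2 + 1)))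
    (Q : Finset V) (hQU : Q ⊆ U) (hQc : ∀ j < m, ∀ t < r, c j t ∉ Q) (hQ : Q.card = M * r) :
    ∃ F, Fam G (Q ∪ (Finset.range m ×ˢ Finset.range r).image fun p => c p.1 p.2)
      (fun L => L = r) F ∧ F.card = m + M := by
  classical
  have hR : ∀ j < m, ∀ t < r, c j t ∈ Q ∪ (Finset.range m ×ˢ Finset.range r).image
      fun p => c p.1 p.2 := by
    intro j hj t ht
    refine Finset.mem_union_right _ (Finset.mem_image.2 ⟨(j, t), ?_, rfl⟩)
    exact Finset.mem_product.2 ⟨Finset.mem_range.2 hj, Finset.mem_range.2 ht⟩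
  rcases Nat.eq_zero_or_pos M with hM | hM
  · subst hM
    exact abs_fam (n := m + 0) (by omega) (e := c) ⟨hR, hc.inj, hc.adj, hc.close⟩
  have hMr : 0 < M * r := Nat.mul_pos hM (by omega)
  -- enumerate `Q`
  obtain ⟨x0, hx0⟩ : Q.Nonempty := Finset.card_pos.1 (by omega)
  obtain ⟨v, hvQ, hvi⟩ : ∃ v : ℕ → V, (∀ l < M * r, v l ∈ Q) ∧
      ∀ l < M * r, ∀ l' < M * r, v l = v l' → l = l' := by
    refine ⟨fun l => if h : l < Q.card then (Q.equivFin.symm ⟨l, h⟩ : V) else x0, ?_, ?_⟩
    · intro l hl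
      have hl' : l < Q.card := by omega
      simp only [dif_pos hl']
      exact (Q.equivFin.symm ⟨l, hl'⟩).2
    · intro l hl l' hl' he
      have h1 : l < Q.card := by omega
      have h2 : l' < Q.card := by omega
      simp only [dif_pos h1, dif_pos h2] at he
      have h3 := Q.equivFin.symm.injective (Subtype.ext he)
      simpa using h3
  obtain ⟨p, h1, h2, h3, h4, h5⟩ := abs_pos hr hq hc hcount v (fun l hl => hQU (hvQ l hl)) (M * r)
    le_rfl
  have hp4 : ∀ l < M * r, 4 * (p l).2 + 4 ≤ r := by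
    intro l hl
    have := (h1 l hl).2
    omega
  set y : ℕ → V := fun l => c (p l).1 (4 * (p l).2 + 1) with hy
  have hyQ : ∀ l < M * r, y l ∉ Q := fun l hl => hQc _ (h1 l hl).1 _ (by have := hp4 l hl; omega)
  have hyR : ∀ l < M * r, y l ∈ Q ∪ (Finset.range m ×ˢ Finset.range r).image
      fun p => c p.1 p.2 := fun l hl => hR _ (h1 l hl).1 _ (by have := hp4 l hl; omega)
  have hyi : ∀ l < M * r, ∀ l' < M * r, y l = y l' → l = l' := by
    intro l hl l' hl' he
    have h6 := hp4 l hl
    have h7 := hp4 l' hl'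
    have h8 := hc.inj _ (h1 l hl).1 _ (by omega) _ (h1 l' hl').1 _ (by omega) he
    exact h2 l hl l' hl' (Prod.ext h8.1 (by omega))
  -- the replaced cycles
  have hd : ∃ d : ℕ → ℕ → V, ∀ j t, (∃ l < M * r, t = 4 * (p l).2 + 1 ∧ j = (p l).1 ∧ d j t = v l) ∨
      ((∀ l < M * r, ¬ (t = 4 * (p l).2 + 1 ∧ j = (p l).1)) ∧ d j t = c j t) := by
    have : ∀ j t, ∃ x : V, (∃ l < M * r, t = 4 * (p l).2 + 1 ∧ j = (p l).1 ∧ x = v l) ∨
      ((∀ l < M * r, ¬ (t = 4 * (p l).2 + 1 ∧ j = (p l).1)) ∧ x = c j t) := by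
      intro j t
      by_cases h : ∃ l < M * r, t = 4 * (p l).2 + 1 ∧ j = (p l).1
      · obtain ⟨l, hl, h6, h7⟩ := h
        exact ⟨v l, Or.inl ⟨l, hl, h6, h7, rfl⟩⟩
      · push Not at h
        exact ⟨c j t, Or.inr ⟨fun l hl hh => h l hl hh.1 hh.2, rfl⟩⟩
    choose d hd using this
    exact ⟨d, hd⟩
  obtain ⟨d, hd⟩ := hd
  have hgr : ∀ i, m ≤ i → i < m + M → ∀ t < r, (i - m) * r + t < M * r := by
    intro i h6 h7 t ht
    calc (i - m) * r + t < (i - m) * r + r := by omega
      _ = (i - m + 1) * r := by ring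
      _ ≤ M * r := Nat.mul_le_mul_right _ (by omega)
  set e : ℕ → ℕ → V := fun i t => if i < m then d i t else y ((i - m) * r + t) with he
  have he1 : ∀ i t, i < m → e i t = d i t := fun i t h => by simp only [he, if_pos h]
  have he2 : ∀ i t, m ≤ i → e i t = y ((i - m) * r + t) := fun i t h => by
    simp only [he, if_neg (not_lt.2 h)]
  refine abs_fam (n := m + M) (r := r) (e := e) (by omega) ⟨?_, ?_, ?_, ?_⟩
  · intro i hi t ht
    rcases Nat.lt_or_ge i m with him | him
    · rw [he1 i t him]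
      rcases hd i t with ⟨l, hl, _, _, h6⟩ | ⟨_, h6⟩
      · rw [h6]; exact Finset.mem_union_left _ (hvQ l hl)
      · rw [h6]; exact hR i him t ht
    · rw [he2 i t him]
      exact hyR _ (hgr i him hi t ht)
  · have hcross : ∀ i < m, ∀ t < r, ∀ l < M * r, d i t ≠ y l := by
      intro i hi t ht l hl hcon
      rcases hd i t with ⟨l', hl', _, _, h6⟩ | ⟨h6, h7⟩
      · rw [h6] at hcon
        exact hyQ l hl (hcon ▸ hvQ l' hl')
      · rw [h7] at hcon
        have h8 := hp4 l hl
        have h9 := hc.inj _ hi _ ht _ (h1 l hl).1 _ (by omega) hcon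
        exact h6 l hl ⟨h9.2, h9.1⟩
    intro i hi t ht i' hi' t' ht' hcon
    rcases Nat.lt_or_ge i m with him | him <;> rcases Nat.lt_or_ge i' m with him' | him'
    · rw [he1 i t him, he1 i' t' him'] at hcon
      rcases hd i t with ⟨l, hl, h6, h7, h8⟩ | ⟨_, h8⟩ <;>
        rcases hd i' t' with ⟨l', hl', h6', h7', h8'⟩ | ⟨_, h8'⟩
      · rw [h8, h8'] at hcon
        have := hvi l hl l' hl' hcon
        subst this
        exact ⟨h7.trans h7'.symm, h6.trans h6'.symm⟩
      · rw [h8, h8'] at hcon
        exact absurd (hcon ▸ hvQ l hl) (hQc i' him' t' ht')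
      · rw [h8, h8'] at hcon
        exact absurd (hcon ▸ hvQ l' hl') (hQc i him t ht)
      · rw [h8, h8'] at hcon
        exact hc.inj _ him _ ht _ him' _ ht' hcon
    · rw [he1 i t him, he2 i' t' him'] at hcon
      exact absurd hcon (hcross i him t ht _ (hgr i' him' hi' t' ht'))
    · rw [he2 i t him, he1 i' t' him'] at hcon
      exact absurd hcon.symm (hcross i' him' t' ht' _ (hgr i him hi t ht))
    · rw [he2 i t him, he2 i' t' him'] at hcon
      have h6 := hyi _ (hgr i him hi t ht) _ (hgr i' him' hi' t' ht') hcon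
      have h7 : i - m = i' - m := by
        have e1 : ((i - m) * r + t) / r = i - m := by
          rw [Nat.mul_comm, Nat.mul_add_div (by omega), Nat.div_eq_of_lt ht, Nat.add_zero]
        have e2 : ((i' - m) * r + t') / r = i' - m := by
          rw [Nat.mul_comm, Nat.mul_add_div (by omega), Nat.div_eq_of_lt ht', Nat.add_zero]
        rw [← e1, ← e2, h6]
      rw [h7] at h6
      omega
  · intro i hi t ht
    rcases Nat.lt_or_ge i m with him | him
    · rw [he1 i t him, he1 i (t + 1) him]
      rcases hd i t with ⟨l, hl, h6, h7, h8⟩ | ⟨_, h8⟩ <;>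
        rcases hd i (t + 1) with ⟨l', hl', h6', h7', h8'⟩ | ⟨_, h8'⟩
      · omega
      · rw [h8, h8', h6, h7]
        exact (h3 l hl).2
      · rw [h8, h8', show t = 4 * (p l').2 by omega, h7']
        exact (h3 l' hl').1.symm
      · rw [h8, h8']
        exact hc.adj i him t ht
    · rw [he2 i t him, he2 i (t + 1) him]
      have h6 := hgr i him hi (t + 1) ht
      have h7 : ((i - m) * r + (t + 1)) % r = t + 1 := by
        rw [Nat.mul_comm, Nat.mul_add_mod, Nat.mod_eq_of_lt ht]
      have h8 := h4 _ h6 (by rw [h7]; omega)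
      exact h8
  · intro i hi
    rcases Nat.lt_or_ge i m with him | him
    · rw [he1 i _ him, he1 i _ him]
      rcases hd i (r - 1) with ⟨l, hl, h6, h7, h8⟩ | ⟨_, h8⟩
      · have := hp4 l hl
        omega
      · rcases hd i 0 with ⟨l', hl', h6', h7', h8'⟩ | ⟨_, h8'⟩
        · omega
        · rw [h8, h8']
          exact hc.close i him
    · rw [he2 i _ him, he2 i _ him]
      have h6 := hgr i him hi (r - 1) (by omega)
      have h7 : ((i - m) * r + (r - 1)) % r = r - 1 := by
        rw [Nat.mul_comm, Nat.mul_add_mod, Nat.mod_eq_of_lt (by omega)]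
      have h8 := h5 _ h6 h7
      rw [show (i - m) * r + (r - 1) - (r - 1) = (i - m) * r + 0 by omega] at h8
      exact h8.symm

end Pool.Agent.LCK
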