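import Pool.Agent.LCK.Defs

/-!
# Greedy assembling of paths and cycles through rich centres
-/

set_option linter.all false

namespace Pool.Agent.LCK

open Pool.Agent.Helper14.LongCyc

universe u

namespace Asm

variable {V : Type u} [DecidableEq V] {G : SimpleGraph V} {S Z : Finset V} {m b s : ℕ}

theorem rich_symm {x y : V} (h : Rich G Z m x y) : Rich G Z m y x := by
  classical
  unfold Rich at *
  refine h.trans (le_of_eq ?_)
  congr 1
  ext z
  simp only [Finset.mem_filter, and_comm (a := G.Adj x z)]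

/-- a common neighbour outside a small set -/
theorem Rich.exists {x y : V} (h : Rich G Z m x y) (T : Finset V) (hT : T.card < m) :
    ∃ z ∈ Z, z ∉ T ∧ G.Adj x z ∧ G.Adj y z := by
  classical
  unfold Rich at h
  obtain ⟨z, hz, hzT⟩ := Finset.exists_mem_notMem_of_card_lt_card (hT.trans_le h)
  rw [Finset.mem_filter] at hz
  exact ⟨z, hz.1, hzT, hz.2.1, hz.2.2⟩

/-- a member of `S` outside `T`, rich with `x` -/
theorem exists_rich {x : V} (hN : Near G S Z m b) (hx : x ∈ S) (T : Finset V)
    (hxT : x ∈ T) (hT : T.card + b < S.card) : ∃ z ∈ S, z ∉ T ∧ Rich G Z m x z := by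
  classical
  have h1 : (S.filter fun y => y ≠ x ∧ ¬ Rich G Z m x y).card ≤ b := by convert hN x hx
  have h2 : (T ∪ S.filter fun y => y ≠ x ∧ ¬ Rich G Z m x y).card < S.card :=
    lt_of_le_of_lt ((Finset.card_union_le _ _).trans (Nat.add_le_add_left h1 _)) hT
  obtain ⟨z, hz, hz2⟩ := Finset.exists_mem_notMem_of_card_lt_card h2
  rw [Finset.mem_union, Finset.mem_filter, not_or] at hz2
  refine ⟨z, hz, hz2.1, ?_⟩
  by_contra hcon
  exact hz2.2 ⟨hz, fun h => hz2.1 (h ▸ hxT), hcon⟩

/-- a member of `S` outside `T`, rich with `x` and `y` -/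
theorem exists_rich2 {x y : V} (hN : Near G S Z m b) (hx : x ∈ S) (hy : y ∈ S) (T : Finset V)
    (hxT : x ∈ T) (hyT : y ∈ T) (hT : T.card + 2 * b < S.card) :
    ∃ z ∈ S, z ∉ T ∧ Rich G Z m x z ∧ Rich G Z m y z := by
  classical
  have h1 : (S.filter fun z => z ≠ x ∧ ¬ Rich G Z m x z).card ≤ b := by convert hN x hx
  have h1' : (S.filter fun z => z ≠ y ∧ ¬ Rich G Z m y z).card ≤ b := by convert hN y hy
  have h2 : (T ∪ ((S.filter fun z => z ≠ x ∧ ¬ Rich G Z m x z) ∪
      (S.filter fun z => z ≠ y ∧ ¬ Rich G Z m y z))).card < S.card := by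
    have e1 := Finset.card_union_le T ((S.filter fun z => z ≠ x ∧ ¬ Rich G Z m x z) ∪
      (S.filter fun z => z ≠ y ∧ ¬ Rich G Z m y z))
    have e2 := Finset.card_union_le (S.filter fun z => z ≠ x ∧ ¬ Rich G Z m x z)
      (S.filter fun z => z ≠ y ∧ ¬ Rich G Z m y z)
    omega
  obtain ⟨z, hz, hz2⟩ := Finset.exists_mem_notMem_of_card_lt_card h2
  rw [Finset.mem_union, Finset.mem_union, Finset.mem_filter, Finset.mem_filter, not_or,
    not_or] at hz2
  refine ⟨z, hz, hz2.1, ?_, ?_⟩
  · by_contra hcon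
    exact hz2.2.1 ⟨hz, fun h => hz2.1 (h ▸ hxT), hcon⟩
  · by_contra hcon
    exact hz2.2.2 ⟨hz, fun h => hz2.1 (h ▸ hyT), hcon⟩

/-- a list of centres ending in `x` (in reversed order) which avoids `y` -/
theorem centres_aux {x y : V} (hN : Near G S Z m b) (hx : x ∈ S) (hxy : x ≠ y) (j : ℕ)
    (hj : j + 2 + b ≤ S.card) : ∃ (c : List V) (a : V), c.length = j + 1 ∧ c.Nodup ∧
      (∀ v ∈ c, v ∈ S ∧ v ≠ y) ∧ c.IsChain (Rich G Z m) ∧ c.head? = some a ∧
      c.getLast? = some x := by
  induction j with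
  | zero => exact ⟨[x], x, rfl, by simp, by simpa using ⟨hx, hxy⟩, by simp, rfl, rfl⟩
  | succ j ih =>
    obtain ⟨c, a, h1, h2, h3, h4, h5, h6⟩ := ih (by omega)
    have hac : a ∈ c := List.mem_of_mem_head? (by rw [h5]; rfl)
    have hcard : (insert y c.toFinset).card ≤ j + 2 := by
      refine (Finset.card_insert_le _ _).trans ?_
      rw [List.toFinset_card_of_nodup h2, h1]
    obtain ⟨z, hzS, hzT, hz⟩ := exists_rich hN (h3 a hac).1 (insert y c.toFinset)
      (Finset.mem_insert_of_mem (List.mem_toFinset.2 hac)) (by omega)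
    rw [Finset.mem_insert, List.mem_toFinset, not_or] at hzT
    refine ⟨z :: c, z, by simp [h1], List.nodup_cons.2 ⟨hzT.2, h2⟩, ?_, ?_, rfl, ?_⟩
    · intro v hv
      rcases List.mem_cons.1 hv with rfl | hv
      · exact ⟨hzS, hzT.1⟩
      · exact h3 v hv
    · cases c with
      | nil => simp at h5
      | cons w t =>
        simp only [List.head?_cons, Option.some.injEq] at h5
        subst h5
        exact List.isChain_cons_cons.2 ⟨rich_symm hz, h4⟩
    · cases c with
      | nil => simp at h5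
      | cons w t => rw [List.getLast?_cons_cons]; exact h6

/-- the list of centres -/
theorem centres {x y : V} (hs : 2 ≤ s) (hS : s + 2 * b ≤ S.card) (hN : Near G S Z m b)
    (hx : x ∈ S) (hy : y ∈ S) (hxy : x ≠ y) (h2 : s = 2 → Rich G Z m x y) :
    ∃ c : List V, c.length = s ∧ c.Nodup ∧ (∀ v ∈ c, v ∈ S) ∧ c.IsChain (Rich G Z m) ∧
      c.head? = some y ∧ c.getLast? = some x := by
  rcases Nat.lt_or_ge s 3 with h | h
  · have hs2 : s = 2 := by omega
    refine ⟨[y, x], by simp [hs2], by simpa using fun h => hxy h.symm, by simpa using ⟨hy, hx⟩, ?_,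
      rfl, rfl⟩
    simpa using rich_symm (h2 hs2)
  · obtain ⟨c, a, h1, h2, h3, h4, h5, h6⟩ := centres_aux hN hx hxy (s - 3) (by omega)
    have hac : a ∈ c := List.mem_of_mem_head? (by rw [h5]; rfl)
    have hcard : (insert y c.toFinset).card ≤ s - 1 := by
      refine (Finset.card_insert_le _ _).trans ?_
      rw [List.toFinset_card_of_nodup h2, h1]
      omega
    obtain ⟨z, hzS, hzT, hz, hz'⟩ := exists_rich2 hN (h3 a hac).1 hy (insert y c.toFinset)
      (Finset.mem_insert_of_mem (List.mem_toFinset.2 hac)) (Finset.mem_insert_self _ _) (by omega)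
    rw [Finset.mem_insert, List.mem_toFinset, not_or] at hzT
    have hyc : y ∉ c := fun hyc => (h3 y hyc).2 rfl
    refine ⟨y :: z :: c, by simp [h1]; omega, ?_, ?_, ?_, rfl, ?_⟩
    · rw [List.nodup_cons, List.mem_cons, not_or, List.nodup_cons]
      exact ⟨⟨fun h => hzT.1 h.symm, hyc⟩, hzT.2, h2⟩
    · intro v hv
      rcases List.mem_cons.1 hv with rfl | hv
      · exact hy
      rcases List.mem_cons.1 hv with rfl | hv
      · exact hzS
      · exact (h3 v hv).1
    · cases c with
      | nil => simp at h5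
      | cons w t =>
        simp only [List.head?_cons, Option.some.injEq] at h5
        subst h5
        exact List.isChain_cons_cons.2 ⟨hz', List.isChain_cons_cons.2 ⟨rich_symm hz, h4⟩⟩
    · cases c with
      | nil => simp at h5
      | cons w t => rw [List.getLast?_cons_cons, List.getLast?_cons_cons]; exact h6

/-- interleaving the centres with connectors -/
theorem interleave (X0 : Finset V) : ∀ (c : List V) (a d : V), c.Nodup → (∀ x ∈ c, x ∈ X0) →
    c.IsChain (Rich G Z m) → X0.card + c.length ≤ m + 1 → c.head? = some a →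
    c.getLast? = some d → ∃ (Y : Finset V) (l : List V), Y ⊆ Z ∧ Disjoint X0 Y ∧
      Y.card + 1 = c.length ∧ Pth G a d l ∧ ∀ v, v ∈ l ↔ v ∈ c ∨ v ∈ Y
  | [], a, d, _, _, _, _, ha, _ => by simp at ha
  | [x], a, d, _, _, _, _, ha, hd => by
    simp only [List.head?_cons, Option.some.injEq] at ha
    simp only [List.getLast?_singleton, Option.some.injEq] at hd
    subst ha
    subst hd
    exact ⟨∅, [x], by simp, by simp, by simp, Pth.singleton x, by simp⟩
  | x :: y :: t, a, d, hn, hX, hc, hm, ha, hd => by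
    simp only [List.head?_cons, Option.some.injEq] at ha
    subst ha
    rw [List.getLast?_cons_cons] at hd
    rw [List.isChain_cons_cons] at hc
    obtain ⟨hxt, hn'⟩ := List.nodup_cons.1 hn
    obtain ⟨Y, l, h1, h2, h3, h4, h5⟩ := interleave X0 (y :: t) y d hn'
      (fun v hv => hX v (List.mem_cons_of_mem _ hv)) hc.2 (by
        simp only [List.length_cons] at hm ⊢
        omega) rfl hd
    obtain ⟨z, hzZ, hzT, hxz, hyz⟩ := Rich.exists hc.1 (X0 ∪ Y) (by
      have e := Finset.card_union_le X0 Y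
      simp only [List.length_cons] at hm h3
      omega)
    rw [Finset.mem_union, not_or] at hzT
    have hzl : z ∉ l := by
      rw [h5]
      rintro (h | h)
      · exact hzT.1 (hX z (List.mem_cons_of_mem _ h))
      · exact hzT.2 h
    have hxX : x ∈ X0 := hX x (List.mem_cons_self)
    have hxl : x ∉ z :: l := by
      rw [List.mem_cons, h5]
      rintro (h | h | h)
      · exact hzT.1 (h ▸ hxX)
      · exact hxt h
      · exact (Finset.disjoint_left.1 h2) hxX h
    refine ⟨insert z Y, x :: z :: l, ?_, ?_, ?_, ?_, ?_⟩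
    · exact Finset.insert_subset hzZ h1
    · rw [Finset.disjoint_insert_right]
      exact ⟨hzT.1, h2⟩
    · rw [Finset.card_insert_of_notMem hzT.2]
      simp only [List.length_cons] at h3 ⊢
      omega
    · exact (h4.cons hyz.symm hzl).cons hxz hxl
    · intro v
      rw [List.mem_cons, List.mem_cons, h5, List.mem_cons (a := v) (b := x), Finset.mem_insert]
      tauto

end Asm

/-- a path from `x` to `y` through exactly `s` centres -/
theorem asm_path {V : Type u} [DecidableEq V] {G : SimpleGraph V} {S Z : Finset V} {m b s : ℕ}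
    (hs : 2 ≤ s) (hS : s + 2 * b ≤ S.card) (hN : Near G S Z m b) (hm : 2 * s ≤ m) {x y : V}
    (hx : x ∈ S) (hy : y ∈ S) (hxy : x ≠ y) (h2 : s = 2 → Rich G Z m x y) :
    ∃ X Y : Finset V, X ⊆ S ∧ Y ⊆ Z ∧ Disjoint X Y ∧ X.card = s ∧ Y.card = s - 1 ∧
      ∃ l, Pth G x y l ∧ ∀ v, v ∈ l ↔ v ∈ X ∪ Y := by
  obtain ⟨c, h1, h3, h4, h5, h6, h7⟩ := Asm.centres hs hS hN hy hx (Ne.symm hxy)
    (fun h => Asm.rich_symm (h2 h))
  obtain ⟨Y, l, g1, g2, g3, g4, g5⟩ := Asm.interleave c.toFinset c x y h3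
    (fun v hv => List.mem_toFinset.2 hv) h5 (by
      rw [List.toFinset_card_of_nodup h3, h1]; omega) h6 h7
  refine ⟨c.toFinset, Y, fun v hv => h4 v (List.mem_toFinset.1 hv), g1, g2, ?_, by omega, l, g4,
    fun v => ?_⟩
  · rw [List.toFinset_card_of_nodup h3, h1]
  · rw [g5, Finset.mem_union, List.mem_toFinset]

/-- a cycle through exactly `s` centres -/
theorem asm_cyc {V : Type u} [DecidableEq V] {G : SimpleGraph V} {S Z : Finset V} {m b s : ℕ}
    (hs : 2 ≤ s) (hS : s + 2 * b ≤ S.card) (hN : Near G S Z m b) (hm : 2 * s ≤ m) :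
    ∃ X Y : Finset V, X ⊆ S ∧ Y ⊆ Z ∧ Disjoint X Y ∧ X.card = s ∧ Y.card = s ∧
      CycSet G (X ∪ Y) := by
  obtain ⟨x, hx⟩ := Finset.card_pos.1 (by omega : 0 < S.card)
  obtain ⟨y, hy, hyx, hr⟩ := Asm.exists_rich hN hx {x} (Finset.mem_singleton_self x) (by
    rw [Finset.card_singleton]; omega)
  rw [Finset.mem_singleton] at hyx
  obtain ⟨c, h1, h3, h4, h5, h6, h7⟩ := Asm.centres hs hS hN hy hx hyx
    (fun _ => Asm.rich_symm hr)
  obtain ⟨Y, l, g1, g2, g3, g4, g5⟩ := Asm.interleave c.toFinset c x y h3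
    (fun v hv => List.mem_toFinset.2 hv) h5 (by
      rw [List.toFinset_card_of_nodup h3, h1]; omega) h6 h7
  have hcard : c.toFinset.card = s := by rw [List.toFinset_card_of_nodup h3, h1]
  obtain ⟨z, hzZ, hzT, hxz, hyz⟩ := Asm.Rich.exists hr (c.toFinset ∪ Y) (by
    have e := Finset.card_union_le c.toFinset Y
    omega)
  rw [Finset.mem_union, not_or, List.mem_toFinset] at hzT
  have hzl : z ∉ l := by
    rw [g5]
    rintro (h | h)
    · exact hzT.1 h
    · exact hzT.2 h
  have hmem : ∀ v, v ∈ l ++ [z] ↔ v ∈ c.toFinset ∪ insert z Y := by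
    intro v
    rw [List.mem_append, List.mem_singleton, g5, Finset.mem_union, Finset.mem_insert,
      List.mem_toFinset]
    tauto
  have hdis : Disjoint c.toFinset (insert z Y) := by
    rw [Finset.disjoint_insert_right, List.mem_toFinset]
    exact ⟨hzT.1, g2⟩
  have hp : Pth G x z (l ++ [z]) := g4.concat hyz hzl
  have hYc : (insert z Y).card = s := by
    rw [Finset.card_insert_of_notMem hzT.2]; omega
  refine ⟨c.toFinset, insert z Y, fun v hv => h4 v (List.mem_toFinset.1 hv),
    Finset.insert_subset hzZ g1, hdis, hcard, hYc, l ++ [z], ⟨?_, x, z, hp, hxz.symm⟩, hmem⟩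
  rw [← card_of_list hp.1 hmem, Finset.card_union_of_disjoint hdis, hcard, hYc]
  omega

end Pool.Agent.LCK
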