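import Pool.Agent.LCK.Defs

set_option linter.all false

namespace Pool.Agent.LCK

open Pool.Agent.Helper14.LongCyc

universe u

/-- fixed positions -/
def ConnFix (q r n : ℕ) : Prop := n % r < 4 * q ∧ n % r % 4 ≠ 3

/-- index of the fixed position -/
def connIdx (q r n : ℕ) : ℕ := 3 * (n / r * q + n % r / 4) + n % r % 4

/-- index of the next fixed vertex -/
def connNxt (q r n : ℕ) : ℕ :=
  if n % r + 1 < 4 * q then 3 * (n / r * q + (n % r + 1) / 4) else 3 * (n / r * q)

theorem conn_mul_lt {j m i q : ℕ} (hj : j < m) (hi : i < q) : j * q + i < m * q :=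
  calc j * q + i < j * q + q := by omega
    _ = (j + 1) * q := by ring
    _ ≤ m * q := Nat.mul_le_mul_right q hj

theorem connIdx_lt {m q r n : ℕ} (hr : 0 < r) (hn : n < m * r) (hf : ConnFix q r n) :
    connIdx q r n < 3 * (m * q) := by
  have hj : n / r < m := (Nat.div_lt_iff_lt_mul hr).2 hn
  obtain ⟨h1, h2⟩ := hf
  have hi : n % r / 4 < q := by omega
  have h3 := conn_mul_lt hj hi
  unfold connIdx
  omega

theorem connNxt_lt {m q r n : ℕ} (hq : 1 ≤ q) (hr : 0 < r) (hn : n < m * r) :
    connNxt q r n < 3 * (m * q) := by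
  have hj : n / r < m := (Nat.div_lt_iff_lt_mul hr).2 hn
  unfold connNxt
  split_ifs with h
  · have hi : (n % r + 1) / 4 < q := by omega
    have h3 := conn_mul_lt hj hi
    omega
  · have h3 := conn_mul_lt hj (show 0 < q by omega)
    omega

theorem conn_mul_inj {j j' i i' q : ℕ} (hi : i < q) (hi' : i' < q)
    (h : j * q + i = j' * q + i') : j = j' ∧ i = i' := by
  have hq : 0 < q := by omega
  have h1 : (j * q + i) / q = j := by
    rw [mul_comm, Nat.mul_add_div hq, Nat.div_eq_of_lt hi, add_zero]
  have h2 : (j' * q + i') / q = j' := by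
    rw [mul_comm, Nat.mul_add_div hq, Nat.div_eq_of_lt hi', add_zero]
  have h3 : j = j' := by rw [← h1, ← h2, h]
  subst h3
  exact ⟨rfl, by omega⟩

theorem connIdx_inj {m q r n n' : ℕ} (hr : 0 < r) (hf : ConnFix q r n) (hf' : ConnFix q r n')
    (h : connIdx q r n = connIdx q r n') : n = n' := by
  obtain ⟨h1, h2⟩ := hf
  obtain ⟨h1', h2'⟩ := hf'
  unfold connIdx at h
  have hi : n % r / 4 < q := by omega
  have hi' : n' % r / 4 < q := by omega
  have h3 : n / r * q + n % r / 4 = n' / r * q + n' % r / 4 := by omega
  obtain ⟨h4, h5⟩ := conn_mul_inj hi hi' h3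
  have h6 : n % r = n' % r := by omega
  rw [← Nat.div_add_mod n r, ← Nat.div_add_mod n' r, h4, h6]

/-- **ROW CONN** -/
theorem conn {V : Type u} [DecidableEq V] (G : SimpleGraph V) (U : Finset V) (m q r : ℕ)
    (hq : 1 ≤ q) (hr : 4 * q ≤ r) (t : ℕ → V) (htU : ∀ i < 3 * (m * q), t i ∈ U)
    (hti : ∀ i < 3 * (m * q), ∀ j < 3 * (m * q), t i = t j → i = j)
    (hta : ∀ i < m * q, G.Adj (t (3 * i)) (t (3 * i + 1)) ∧ G.Adj (t (3 * i + 1)) (t (3 * i + 2)))
    (hcod : ∀ u ∈ U, ∀ v ∈ U, Rich G U (m * r) u v) :
    ∃ c : ℕ → ℕ → V, Res G U m r c ∧ ∀ j < m, ∀ i < q,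
      c j (4 * i) = t (3 * (j * q + i)) ∧ c j (4 * i + 1) = t (3 * (j * q + i) + 1) ∧
      c j (4 * i + 2) = t (3 * (j * q + i) + 2) := by
  classical
  have hr0 : 0 < r := by omega
  -- greedy choice
  have key : ∀ N ≤ m * r, ∃ F : ℕ → V, (∀ n, ConnFix q r n → F n = t (connIdx q r n)) ∧
      ∀ n < N, ¬ ConnFix q r n → F n ∈ U ∧ (∀ n' < m * r, ConnFix q r n' → F n' ≠ F n) ∧
        (∀ n' < n, F n' ≠ F n) ∧ G.Adj (F (n - 1)) (F n) ∧ G.Adj (t (connNxt q r n)) (F n) := by
    intro N
    induction N with
    | zero => exact fun _ => ⟨fun n => t (connIdx q r n), fun n _ => rfl, fun n hn => by omega⟩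
    | succ N ih =>
      intro hN
      obtain ⟨F, hF1, hF2⟩ := ih (by omega)
      by_cases hfix : ConnFix q r N
      · refine ⟨F, hF1, fun n hn hnf => hF2 n ?_ hnf⟩
        rcases Nat.lt_succ_iff_lt_or_eq.1 hn with h | h
        · exact h
        · exact absurd (h ▸ hfix) hnf
      · -- the previous vertex is in `U`
        have hprev : F (N - 1) ∈ U := by
          by_cases h1 : ConnFix q r (N - 1)
          · rw [hF1 _ h1]
            exact htU _ (connIdx_lt hr0 (by omega) h1)
          · have hN0 : N ≠ 0 := by
              rintro rfl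
              exact hfix ⟨by rw [Nat.zero_mod]; omega, by rw [Nat.zero_mod]; omega⟩
            exact (hF2 (N - 1) (by omega) h1).1
        have hnext : t (connNxt q r N) ∈ U := htU _ (connNxt_lt hq hr0 (by omega))
        have hrich := hcod _ hprev _ hnext
        unfold Rich at hrich
        have hcard : (((Finset.range (m * r)).erase N).image F).card <
            (U.filter fun z => G.Adj (F (N - 1)) z ∧ G.Adj (t (connNxt q r N)) z).card := by
          refine lt_of_lt_of_le ?_ (le_trans hrich (le_of_eq ?_))
          · refine lt_of_le_of_lt Finset.card_image_le ?_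
            rw [Finset.card_erase_of_mem (Finset.mem_range.2 (by omega)), Finset.card_range]
            omega
          · congr
        obtain ⟨v, hv, hv'⟩ := Finset.exists_mem_notMem_of_card_lt_card hcard
        rw [Finset.mem_filter] at hv
        have hne : ∀ n' < m * r, n' ≠ N → F n' ≠ v := by
          intro n' h1 h2 h3
          exact hv' (Finset.mem_image.2 ⟨n', Finset.mem_erase.2 ⟨h2, Finset.mem_range.2 h1⟩, h3⟩)
        refine ⟨Function.update F N v, ?_, ?_⟩
        · intro n hn
          have h1 : n ≠ N := by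
            rintro rfl
            exact hfix hn
          rw [Function.update_of_ne h1]
          exact hF1 n hn
        · intro n hn hnf
          rcases Nat.lt_succ_iff_lt_or_eq.1 hn with h | h
          · have h1 : n ≠ N := by omega
            have h2 : n - 1 ≠ N := by omega
            rw [Function.update_of_ne h1, Function.update_of_ne h2]
            obtain ⟨a1, a2, a3, a4, a5⟩ := hF2 n h hnf
            refine ⟨a1, fun n' b1 b2 => ?_, fun n' b1 => ?_, a4, a5⟩
            · have h3 : n' ≠ N := by
                rintro rfl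
                exact hfix b2
              rw [Function.update_of_ne h3]
              exact a2 n' b1 b2
            · have h3 : n' ≠ N := by omega
              rw [Function.update_of_ne h3]
              exact a3 n' b1
          · subst h
            have hn0 : n ≠ 0 := by
              rintro rfl
              exact hfix ⟨by rw [Nat.zero_mod]; omega, by rw [Nat.zero_mod]; omega⟩
            have h2 : n - 1 ≠ n := by omega
            rw [Function.update_self, Function.update_of_ne h2]
            refine ⟨hv.1, fun n' b1 b2 => ?_, fun n' b1 => ?_, hv.2.1, hv.2.2⟩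
            · have h3 : n' ≠ n := by
                rintro rfl
                exact hfix b2
              rw [Function.update_of_ne h3]
              exact hne n' b1 h3
            · have h3 : n' ≠ n := by omega
              rw [Function.update_of_ne h3]
              exact hne n' (by omega) h3
  obtain ⟨F, hF1, hF2⟩ := key (m * r) le_rfl
  -- position arithmetic
  have hdiv : ∀ j p, p < r → (j * r + p) / r = j := by
    intro j p hp
    rw [mul_comm, Nat.mul_add_div hr0, Nat.div_eq_of_lt hp, add_zero]
  have hmod : ∀ j p, p < r → (j * r + p) % r = p := by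
    intro j p hp
    rw [mul_comm, Nat.mul_add_mod, Nat.mod_eq_of_lt hp]
  have hFU : ∀ n < m * r, F n ∈ U := by
    intro n hn
    by_cases h : ConnFix q r n
    · rw [hF1 n h]
      exact htU _ (connIdx_lt hr0 hn h)
    · exact (hF2 n hn h).1
  have hinj : ∀ n < m * r, ∀ n' < m * r, F n = F n' → n = n' := by
    intro n hn n' hn' h
    by_cases h1 : ConnFix q r n
    · by_cases h2 : ConnFix q r n'
      · rw [hF1 n h1, hF1 n' h2] at h
        exact connIdx_inj (m := m) hr0 h1 h2
          (hti _ (connIdx_lt hr0 hn h1) _ (connIdx_lt hr0 hn' h2) h)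
      · exact absurd h ((hF2 n' hn' h2).2.1 n hn h1)
    · by_cases h2 : ConnFix q r n'
      · exact absurd h.symm ((hF2 n hn h1).2.1 n' hn' h2)
      · rcases Nat.lt_trichotomy n n' with h3 | h3 | h3
        · exact absurd h ((hF2 n' hn' h2).2.2.1 n h3)
        · exact h3
        · exact absurd h.symm ((hF2 n hn h1).2.2.1 n' h3)
  refine ⟨fun j p => F (j * r + p), ⟨?_, ?_, ?_, ?_⟩, ?_⟩
  · intro j hj p hp
    exact hFU _ (conn_mul_lt hj hp)
  · intro j hj p hp j' hj' p' hp' h
    exact conn_mul_inj hp hp' (hinj _ (conn_mul_lt hj hp) _ (conn_mul_lt hj' hp') h)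
  · intro j hj p hp
    have hlt : j * r + (p + 1) < m * r := conn_mul_lt hj hp
    by_cases h1 : ConnFix q r (j * r + (p + 1))
    · have h1' := h1
      unfold ConnFix at h1'
      rw [hmod j (p + 1) hp] at h1'
      obtain ⟨h2, h3⟩ := h1'
      show G.Adj (F (j * r + p)) (F (j * r + (p + 1)))
      rw [hF1 _ h1]
      by_cases h4 : ConnFix q r (j * r + p)
      · rw [hF1 _ h4]
        unfold connIdx
        rw [hmod j (p + 1) hp, hdiv j (p + 1) hp, hmod j p (by omega), hdiv j p (by omega)]
        unfold ConnFix at h4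
        rw [hmod j p (by omega)] at h4
        have hi : p / 4 < q := by omega
        have h5 := hta _ (conn_mul_lt hj hi)
        have h6 : (p + 1) / 4 = p / 4 := by omega
        rw [h6]
        rcases (show p % 4 = 0 ∨ p % 4 = 1 by omega) with h7 | h7
        · rw [h7, show (p + 1) % 4 = 1 by omega]
          exact h5.1
        · rw [h7, show (p + 1) % 4 = 2 by omega]
          exact h5.2
      · have h5 := (hF2 _ (by omega) h4).2.2.2.2
        unfold ConnFix at h4
        unfold connNxt at h5
        rw [hmod j p (by omega)] at h4 h5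
        rw [hdiv j p (by omega), if_pos h2] at h5
        unfold connIdx
        rw [hmod j (p + 1) hp, hdiv j (p + 1) hp]
        have h6 : p % 4 = 3 := by
          by_contra h6
          exact h4 ⟨by omega, h6⟩
        rw [show (p + 1) % 4 = 0 by omega, add_zero]
        exact h5.symm
    · exact (hF2 _ hlt h1).2.2.2.1
  · intro j hj
    have hlt : j * r + (r - 1) < m * r := conn_mul_lt hj (by omega)
    have h1 : ¬ ConnFix q r (j * r + (r - 1)) := by
      unfold ConnFix
      rw [hmod j (r - 1) (by omega)]
      rintro ⟨h2, h3⟩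
      have : r = 4 * q := by omega
      omega
    have h2 := (hF2 _ hlt h1).2.2.2.2
    unfold connNxt at h2
    rw [hmod j (r - 1) (by omega), hdiv j (r - 1) (by omega), if_neg (by omega)] at h2
    have h3 : ConnFix q r (j * r + 0) := by
      unfold ConnFix
      rw [hmod j 0 hr0]
      omega
    show G.Adj (F (j * r + (r - 1))) (F (j * r + 0))
    rw [hF1 _ h3]
    unfold connIdx
    rw [hmod j 0 hr0, hdiv j 0 hr0]
    simpa using h2.symm
  · intro j hj i hi
    have aux : ∀ e, e ≤ 2 → F (j * r + (4 * i + e)) = t (3 * (j * q + i) + e) := by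
      intro e he
      have h3 : ConnFix q r (j * r + (4 * i + e)) := by
        unfold ConnFix
        rw [hmod j _ (by omega)]
        omega
      rw [hF1 _ h3]
      unfold connIdx
      rw [hmod j _ (by omega), hdiv j _ (by omega), show (4 * i + e) / 4 = i by omega,
        show (4 * i + e) % 4 = e by omega]
    exact ⟨aux 0 (by omega), aux 1 (by omega), aux 2 le_rfl⟩

end Pool.Agent.LCK
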