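import Pool.Agent.LCK.Defs

set_option linter.all false

namespace Pool.Agent.LCK

open Pool.Agent.Helper14.LongCyc

universe u

open Classical in
/-- the number of ordered poor pairs in the neighbourhood of `v` -/
noncomputable def poorNum {V : Type u} (G : SimpleGraph V) (H : Finset V) (m : ℕ) (v : V) : ℕ :=
  ((H ×ˢ H).filter fun p => (G.Adj v p.1 ∧ G.Adj v p.2) ∧ p.2 ≠ p.1 ∧ ¬ Rich G H m p.1 p.2).card

/-- every poor pair is in fewer than `m` neighbourhoods -/
theorem sum_poorNum {V : Type u} (G : SimpleGraph V) (H : Finset V) (m : ℕ) :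
    ∑ v ∈ H, poorNum G H m v ≤ H.card * H.card * m := by
  classical
  unfold poorNum
  simp only [Finset.card_filter]
  rw [Finset.sum_comm, ← Finset.card_product, ← smul_eq_mul]
  refine Finset.sum_le_card_nsmul _ _ _ fun p _ => ?_
  by_cases hp : p.2 ≠ p.1 ∧ ¬ Rich G H m p.1 p.2
  · have h1 : (H.filter fun z => G.Adj p.1 z ∧ G.Adj p.2 z).card < m := by
      by_contra h
      apply hp.2
      unfold Rich
      rw [not_lt] at h
      convert h using 2
    refine le_trans ?_ h1.le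
    rw [Finset.card_filter]
    refine Finset.sum_le_sum fun v _ => ?_
    by_cases h2 : G.Adj v p.1 ∧ G.Adj v p.2
    · rw [if_pos ⟨h2, hp⟩, if_pos ⟨h2.1.symm, h2.2.symm⟩]
    · rw [if_neg (fun h => h2 h.1)]
      exact Nat.zero_le _
  · rw [Finset.sum_eq_zero]
    · exact Nat.zero_le _
    · intro v _
      rw [if_neg (fun h => hp h.2)]

/-- **Extraction lemma.** -/
theorem extract {V : Type u} (G : SimpleGraph V) (H : Finset V) {c η : ℝ}
    (hc : 0 < c) (hη : 0 < η) (hη1 : η ≤ 1) (hH : H.Nonempty) {m : ℕ}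
    (hm : (m : ℝ) ≤ c ^ 2 * η ^ 2 / 8 * (H.card : ℝ))
    (hd : c * (H.card : ℝ) ^ 2 ≤ (eS G H H : ℝ)) :
    ∃ v ∈ H, ∃ (T : Finset V) (b : ℕ), T ⊆ H ∧ (∀ x ∈ T, G.Adj v x) ∧
      c / 4 * (H.card : ℝ) ≤ (T.card : ℝ) ∧ (b : ℝ) ≤ η * (T.card : ℝ) ∧ Near G T H m b := by
  classical
  have hN : (0 : ℝ) < H.card := by exact_mod_cast hH.card_pos
  set N : ℝ := (H.card : ℝ) with hNdef
  -- choice of the vertex
  have hsum : ∑ v ∈ H, (c ^ 2 / 4 * N ^ 2 + 4 / η ^ 2 * (poorNum G H m v : ℝ)) <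
      ∑ v ∈ H, ((dg G H v : ℝ)) ^ 2 := by
    have h1 : (∑ v ∈ H, (dg G H v : ℝ)) ^ 2 ≤ N * ∑ v ∈ H, ((dg G H v : ℝ)) ^ 2 :=
      sq_sum_le_card_mul_sum_sq
    have h2 : (∑ v ∈ H, (dg G H v : ℝ)) = (eS G H H : ℝ) := by
      unfold eS
      push_cast
      rfl
    rw [h2] at h1
    have h3 : (c * N ^ 2) ^ 2 ≤ (eS G H H : ℝ) ^ 2 := pow_le_pow_left₀ (by positivity) hd 2
    have h4 : c ^ 2 * N ^ 3 ≤ ∑ v ∈ H, ((dg G H v : ℝ)) ^ 2 := by
      have h5 : N * (c ^ 2 * N ^ 3) ≤ N * ∑ v ∈ H, ((dg G H v : ℝ)) ^ 2 := by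
        calc N * (c ^ 2 * N ^ 3) = (c * N ^ 2) ^ 2 := by ring
          _ ≤ _ := h3.trans h1
      exact le_of_mul_le_mul_left h5 hN
    have h5 : (∑ v ∈ H, (poorNum G H m v : ℝ)) ≤ N * N * m := by
      have := sum_poorNum G H m
      have h6 : ((∑ v ∈ H, poorNum G H m v : ℕ) : ℝ) ≤ ((H.card * H.card * m : ℕ) : ℝ) := by
        exact_mod_cast this
      push_cast at h6
      exact h6
    rw [Finset.sum_add_distrib, Finset.sum_const, ← Finset.mul_sum, nsmul_eq_mul, ← hNdef]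
    have h6 : 4 / η ^ 2 * ∑ v ∈ H, (poorNum G H m v : ℝ) ≤ c ^ 2 / 2 * N ^ 3 := by
      calc 4 / η ^ 2 * ∑ v ∈ H, (poorNum G H m v : ℝ) ≤ 4 / η ^ 2 * (N * N * m) :=
            mul_le_mul_of_nonneg_left h5 (by positivity)
        _ ≤ 4 / η ^ 2 * (N * N * (c ^ 2 * η ^ 2 / 8 * N)) :=
            mul_le_mul_of_nonneg_left (mul_le_mul_of_nonneg_left hm (by positivity))
              (by positivity)
        _ = c ^ 2 / 2 * N ^ 3 := by
            field_simp
            ring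
    have h7 : 0 < c ^ 2 * N ^ 3 := by positivity
    nlinarith
  obtain ⟨v, hv, hvs⟩ := Finset.exists_lt_of_sum_lt hsum
  set d : ℝ := (dg G H v : ℝ) with hddef
  have hpoor0 : (0 : ℝ) ≤ poorNum G H m v := Nat.cast_nonneg _
  have hd1 : c / 2 * N < d := by
    have h1 : (c / 2 * N) ^ 2 < d ^ 2 := by
      have : 0 ≤ 4 / η ^ 2 * (poorNum G H m v : ℝ) := by positivity
      nlinarith
    exact lt_of_pow_lt_pow_left₀ 2 (Nat.cast_nonneg _) h1
  have hd0 : 0 < d := lt_of_le_of_lt (by positivity) hd1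
  have hpoor : (poorNum G H m v : ℝ) ≤ η ^ 2 / 4 * d ^ 2 := by
    have h1 : 4 / η ^ 2 * (poorNum G H m v : ℝ) ≤ d ^ 2 := by
      have : 0 ≤ c ^ 2 / 4 * N ^ 2 := by positivity
      linarith
    have h2 : η ^ 2 / 4 * (4 / η ^ 2 * (poorNum G H m v : ℝ)) ≤ η ^ 2 / 4 * d ^ 2 :=
      mul_le_mul_of_nonneg_left h1 (by positivity)
    have h3 : η ^ 2 / 4 * (4 / η ^ 2 * (poorNum G H m v : ℝ)) = poorNum G H m v := by
      field_simp
    rwa [h3] at h2
  -- deleting the bad vertices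
  let S : Finset V := H.filter fun u => G.Adj v u
  have hS : (S.card : ℝ) = d := by
    rw [hddef, dg_eq_card]
  let b : ℕ := ⌊η / 2 * d⌋₊
  let P : V → Finset V := fun x => S.filter fun y => y ≠ x ∧ ¬ Rich G H m x y
  let bad : Finset V := S.filter fun x => b < (P x).card
  have hbad : (bad.card : ℝ) ≤ η / 2 * d := by
    have h1 : bad.card * (b + 1) ≤ poorNum G H m v := by
      have h2 : bad.card * (b + 1) ≤ ∑ x ∈ bad, (P x).card := by
        rw [← smul_eq_mul]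
        exact Finset.card_nsmul_le_sum _ _ _ fun x hx => (Finset.mem_filter.1 hx).2
      refine h2.trans ?_
      rw [← Finset.card_sigma]
      refine Finset.card_le_card_of_injOn (fun q => (q.1, q.2)) ?_ ?_
      · intro q hq
        have hq' := Finset.mem_sigma.1 hq
        have hq1 := Finset.mem_filter.1 (Finset.mem_filter.1 hq'.1).1
        have hq2 := Finset.mem_filter.1 hq'.2
        have hq3 := Finset.mem_filter.1 hq2.1
        rw [Finset.mem_coe, Finset.mem_filter]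
        exact ⟨Finset.mem_product.2 ⟨hq1.1, hq3.1⟩, ⟨hq1.2, hq3.2⟩, hq2.2⟩
      · rintro ⟨x, y⟩ _ ⟨x', y'⟩ _ h
        simp only [Prod.mk.injEq] at h
        obtain ⟨rfl, rfl⟩ := h
        rfl
    have h2 : ((bad.card * (b + 1) : ℕ) : ℝ) ≤ η ^ 2 / 4 * d ^ 2 :=
      le_trans (by exact_mod_cast h1) hpoor
    have h3 : η / 2 * d < (b : ℝ) + 1 := Nat.lt_floor_add_one _
    push_cast at h2
    have h4 : (bad.card : ℝ) * (η / 2 * d) ≤ (η / 2 * d) * (η / 2 * d) := by
      calc (bad.card : ℝ) * (η / 2 * d) ≤ (bad.card : ℝ) * ((b : ℝ) + 1) :=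
            mul_le_mul_of_nonneg_left h3.le (Nat.cast_nonneg _)
        _ ≤ η ^ 2 / 4 * d ^ 2 := h2
        _ = _ := by ring
    exact le_of_mul_le_mul_right h4 (by positivity)
  have hbS : bad ⊆ S := Finset.filter_subset _ _
  have hT : ((S \ bad).card : ℝ) = d - bad.card := by
    rw [Finset.card_sdiff_of_subset hbS, Nat.cast_sub (Finset.card_le_card hbS), hS]
  have hb : (b : ℝ) ≤ η / 2 * d := Nat.floor_le (by positivity)
  have hTd : d / 2 ≤ ((S \ bad).card : ℝ) := by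
    rw [hT]
    nlinarith
  refine ⟨v, hv, S \ bad, b, ?_, ?_, ?_, ?_, ?_⟩
  · exact Finset.sdiff_subset.trans (Finset.filter_subset _ _)
  · intro x hx
    exact (Finset.mem_filter.1 (Finset.mem_sdiff.1 hx).1).2
  · linarith
  · nlinarith
  · intro x hx
    have hx' := Finset.mem_sdiff.1 hx
    have h1 : (P x).card ≤ b := by
      by_contra h
      rw [not_le] at h
      exact hx'.2 (Finset.mem_filter.2 ⟨hx'.1, h⟩)
    refine le_trans (Finset.card_le_card ?_) h1
    intro y hy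
    rw [Finset.mem_filter] at hy
    exact Finset.mem_filter.2 ⟨(Finset.mem_sdiff.1 hy.1).1, hy.2⟩

end Pool.Agent.LCK
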