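import Pool.Agent.LCK.Asm
import Pool.Agent.LCK.Extract

set_option linter.all false

namespace Pool.Agent.LCK

open Pool.Agent.Helper14.LongCyc

universe u

/-- A dense set contains cycles of all short even lengths. -/
theorem dense_even (c : ℝ) (hc : 0 < c) : ∃ M : ℕ,
    ∀ {V : Type u} [DecidableEq V] (G : SimpleGraph V) (H : Finset V) (s : ℕ),
      2 ≤ s → M * s ≤ H.card → c * (H.card : ℝ) ^ 2 ≤ (eS G H H : ℝ) →
      ∃ D, CycSet G D ∧ D ⊆ H ∧ D.card = 2 * s := by
  obtain ⟨M, hM⟩ := exists_nat_ge (8 / c + 1600 / c ^ 2)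
  refine ⟨M, fun {V} _ G H s hs hMs hd => ?_⟩
  have hM0 : (0 : ℝ) < M := lt_of_lt_of_le (by positivity) hM
  have hs0 : (2 : ℝ) ≤ s := by exact_mod_cast hs
  have hMs' : (M : ℝ) * s ≤ H.card := by exact_mod_cast hMs
  have hH0 : (0 : ℝ) < H.card := lt_of_lt_of_le (by positivity) hMs'
  have hH : H.Nonempty := Finset.card_pos.1 (by exact_mod_cast hH0)
  have h1 : 8 / c * s ≤ H.card := le_trans
    (mul_le_mul_of_nonneg_right (le_trans (by
      have : 0 < 1600 / c ^ 2 := by positivity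
      linarith) hM) (by positivity)) hMs'
  have h2 : 1600 / c ^ 2 * s ≤ H.card := le_trans
    (mul_le_mul_of_nonneg_right (le_trans (by
      have : 0 < 8 / c := by positivity
      linarith) hM) (by positivity)) hMs'
  have h3 : 2 * (s : ℝ) ≤ c / 4 * H.card := by
    have : c / 4 * (8 / c * s) ≤ c / 4 * H.card := mul_le_mul_of_nonneg_left h1 (by positivity)
    have e : c / 4 * (8 / c * s) = 2 * s := by
      field_simp
      ring
    rwa [e] at this
  have h4 : ((2 * s : ℕ) : ℝ) ≤ c ^ 2 * (1 / 10) ^ 2 / 8 * H.card := by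
    have : c ^ 2 / 800 * (1600 / c ^ 2 * s) ≤ c ^ 2 / 800 * H.card :=
      mul_le_mul_of_nonneg_left h2 (by positivity)
    have e : c ^ 2 / 800 * (1600 / c ^ 2 * s) = 2 * s := by
      field_simp
      ring
    rw [e] at this
    push_cast
    linarith
  obtain ⟨v, hv, T, b, hT, hvT, hTc, hb, hN⟩ := extract G H hc (by norm_num : (0 : ℝ) < 1 / 10)
    (by norm_num) hH h4 hd
  have h5 : s + 2 * b ≤ T.card := by
    have : (s : ℝ) + 2 * b ≤ T.card := by linarith
    exact_mod_cast this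
  obtain ⟨X, Y, hX, hY, hXY, hXc, hYc, hcyc⟩ := asm_cyc hs h5 hN le_rfl
  refine ⟨X ∪ Y, hcyc, Finset.union_subset (hX.trans hT) hY, ?_⟩
  rw [Finset.card_union_of_disjoint hXY, hXc, hYc]
  ring

end Pool.Agent.LCK
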