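import Pool.Agent.LCK.Asm
import Pool.Agent.Helper14.LongCyc.Short

/-!
# The exchange lemma
-/

set_option linter.all false

namespace Pool.Agent.LCK

open Pool.Agent.Helper14.LongCyc

universe u

namespace Exch

variable {V : Type u} [DecidableEq V] {G : SimpleGraph V}

open Classical in
/-- neighbours of `h` in `C` -/
noncomputable def nb (G : SimpleGraph V) (C : Finset V) (h : V) : Finset V :=
  C.filter fun x => G.Adj h x

theorem card_nb (C : Finset V) (h : V) : (nb G C h).card = dg G C h := by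
  classical
  rw [dg_eq_card]
  unfold nb
  congr 1

open Classical in
/-- number of poor partners of `x` in `S` -/
noncomputable def pp (G : SimpleGraph V) (Z : Finset V) (m : ℕ) (S : Finset V) (x : V) : ℕ :=
  (S.filter fun y => y ≠ x ∧ ¬ Rich G Z m x y).card

/-- number of ordered poor pairs in `S` -/
noncomputable def pr (G : SimpleGraph V) (Z : Finset V) (m : ℕ) (S : Finset V) : ℕ :=
  ∑ x ∈ S, pp G Z m S x

/-- each poor pair is seen by fewer than `m` members of `Z` -/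
theorem sum_pr_le (C Z : Finset V) (m : ℕ) :
    ∑ h ∈ Z, pr G Z m (nb G C h) ≤ C.card * C.card * m := by
  classical
  have h1 : ∀ h, pr G Z m (nb G C h) = ∑ x ∈ C, ∑ y ∈ C,
      (if (y ≠ x ∧ ¬ Rich G Z m x y) ∧ (G.Adj h x ∧ G.Adj h y) then 1 else 0) := by
    intro h
    unfold pr pp nb
    rw [Finset.sum_filter]
    refine Finset.sum_congr rfl fun x _ => ?_
    split_ifs with hx
    · rw [Finset.card_filter, Finset.sum_filter]
      refine Finset.sum_congr rfl fun y _ => ?_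
      by_cases hy : G.Adj h y
      · simp only [hy, hx, if_true, and_true]
      · simp only [hy, if_false, and_false]
    · symm
      refine Finset.sum_eq_zero fun y _ => ?_
      rw [if_neg]
      rintro ⟨-, h1, -⟩
      exact hx h1
  simp_rw [h1]
  rw [Finset.sum_comm]
  have h2 : ∀ x ∈ C, ∑ h ∈ Z, ∑ y ∈ C,
      (if (y ≠ x ∧ ¬ Rich G Z m x y) ∧ (G.Adj h x ∧ G.Adj h y) then 1 else 0) ≤ C.card * m := by
    intro x _
    rw [Finset.sum_comm]
    refine (Finset.sum_le_card_nsmul _ _ m fun y _ => ?_).trans (by simp)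
    by_cases hp : y ≠ x ∧ ¬ Rich G Z m x y
    · simp only [hp, true_and, ne_eq, not_false_eq_true]
      rw [← Finset.card_filter]
      have h3 := hp.2
      unfold Rich at h3
      push Not at h3
      refine le_trans (le_of_eq ?_) h3.le
      congr 1
      ext z
      simp only [Finset.mem_filter, G.adj_comm z x, G.adj_comm z y]
    · simp only [hp, false_and, if_false, Finset.sum_const_zero, Nat.zero_le]
  refine (Finset.sum_le_card_nsmul _ _ _ h2).trans (le_of_eq ?_)
  rw [smul_eq_mul]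
  ring

/-- few bad members -/
theorem exists_near (Z S : Finset V) (m b : ℕ) : ∃ S' : Finset V, S' ⊆ S ∧ Near G S' Z m b ∧
    (b + 1) * (S.card - S'.card) ≤ pr G Z m S := by
  classical
  refine ⟨S.filter fun x => pp G Z m S x ≤ b, Finset.filter_subset _ _, ?_, ?_⟩
  · intro x hx
    rw [Finset.mem_filter] at hx
    refine le_trans ?_ hx.2
    unfold pp
    refine Finset.card_le_card ?_
    intro y hy
    simp only [Finset.mem_filter] at hy ⊢
    exact ⟨hy.1.1, hy.2⟩
  · have e : S.card - (S.filter fun x => pp G Z m S x ≤ b).card =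
        (S.filter fun x => ¬ pp G Z m S x ≤ b).card := by
      have := Finset.card_filter_add_card_filter_not (s := S) (fun x => pp G Z m S x ≤ b)
      omega
    rw [e]
    unfold pr
    calc (b + 1) * (S.filter fun x => ¬ pp G Z m S x ≤ b).card
        = ∑ x ∈ S.filter (fun x => ¬ pp G Z m S x ≤ b), (b + 1) := by
          rw [Finset.sum_const, smul_eq_mul, mul_comm]
      _ ≤ ∑ x ∈ S.filter (fun x => ¬ pp G Z m S x ≤ b), pp G Z m S x := by
          refine Finset.sum_le_sum fun x hx => ?_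
          have := (Finset.mem_filter.1 hx).2
          omega
      _ ≤ ∑ x ∈ S, pp G Z m S x := Finset.sum_le_sum_of_subset (Finset.filter_subset _ _)

/-- two consecutive members of a cycle -/
theorem exists_consecutive {C S : Finset V} (hC : CycSet G C) (hS : S ⊆ C)
    (hc : C.card < 2 * S.card) : ∃ x ∈ S, ∃ y ∈ S, G.Adj x y := by
  classical
  obtain ⟨c, hcyc, hmem⟩ := hC
  have hlen : c.length = C.card := (card_of_list (Cyc.nodup hcyc) hmem).symm
  have hp : 0 < c.length := by have := hcyc.1; omega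
  set n := c.length with hn
  by_contra hcon
  push Not at hcon
  -- index sets
  let I : Finset ℕ := (Finset.range n).filter fun i => cf c hp i ∈ S
  have hI : I.card = S.card := by
    refine Finset.card_bij (fun i _ => cf c hp i) ?_ ?_ ?_
    · intro i hi
      exact (Finset.mem_filter.1 hi).2
    · intro i hi j hj hij
      have h1 := cf_inj hp (Cyc.nodup hcyc) hij
      have hi' := Finset.mem_range.1 (Finset.mem_filter.1 hi).1
      have hj' := Finset.mem_range.1 (Finset.mem_filter.1 hj).1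
      rwa [Nat.mod_eq_of_lt hi', Nat.mod_eq_of_lt hj'] at h1
    · intro x hx
      obtain ⟨i, hi, rfl⟩ := exists_cf hp ((hmem x).2 (hS hx))
      exact ⟨i, Finset.mem_filter.2 ⟨Finset.mem_range.2 hi, hx⟩, rfl⟩
  let J : Finset ℕ := I.image fun i => (i + 1) % n
  have hJ : J.card = I.card := by
    refine Finset.card_image_of_injOn ?_
    intro i hi j hj hij
    have hi' := Finset.mem_range.1 (Finset.mem_filter.1 hi).1
    have hj' := Finset.mem_range.1 (Finset.mem_filter.1 hj).1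
    have h1 : (i + 1) % n = (j + 1) % n := hij
    have h2 : i % n = j % n := Nat.ModEq.add_right_cancel' 1 h1
    rwa [Nat.mod_eq_of_lt hi', Nat.mod_eq_of_lt hj'] at h2
  have hd : Disjoint I J := by
    rw [Finset.disjoint_left]
    intro i hi hiJ
    obtain ⟨j, hj, hji⟩ := Finset.mem_image.1 hiJ
    have h1 := (Finset.mem_filter.1 hi).2
    have h2 := (Finset.mem_filter.1 hj).2
    have h3 : cf c hp i = cf c hp (j + 1) := by
      refine cf_congr hp ?_
      rw [← hji, Nat.mod_mod]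
    rw [h3] at h1
    exact hcon _ h2 _ h1 (cf_adj hcyc hp j)
  have hsub : I ∪ J ⊆ Finset.range n := by
    refine Finset.union_subset (Finset.filter_subset _ _) ?_
    intro i hi
    obtain ⟨j, -, hji⟩ := Finset.mem_image.1 hi
    rw [Finset.mem_range, ← hji]
    exact Nat.mod_lt _ hp
  have h1 := Finset.card_le_card hsub
  rw [Finset.card_union_of_disjoint hd, hJ, hI, Finset.card_range] at h1
  omega

/-- the cycle `D` -/
theorem exists_D {r b : ℕ} {C Z S' : Finset V} (hr : 4 ≤ r) (hC : CycSet G C) (hCr : C.card = r)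
    (hCZ : Disjoint C Z) (hS' : S' ⊆ C) (hcard : (r + 1) / 2 + 2 * b ≤ S'.card)
    (hN : Near G S' Z (2 * ((r + 1) / 2)) b) :
    ∃ X Y : Finset V, X ⊆ C ∧ Y ⊆ Z ∧ X.card = (r + 1) / 2 ∧ Y.card ≤ (r + 1) / 2 ∧
      CycSet G (X ∪ Y) ∧ (X ∪ Y).card = r := by
  rcases Nat.even_or_odd' r with ⟨s, hs | hs⟩
  · have ha : (r + 1) / 2 = s := by omega
    rw [ha] at hcard hN ⊢
    obtain ⟨X, Y, h1, h2, h3, h4, h5, h6⟩ := asm_cyc (s := s) (by omega) hcard hN le_rfl
    refine ⟨X, Y, h1.trans hS', h2, h4, h5.le, h6, ?_⟩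
    rw [Finset.card_union_of_disjoint h3, h4, h5, hs]
    ring
  · have ha : (r + 1) / 2 = s + 1 := by omega
    rw [ha] at hcard hN ⊢
    obtain ⟨x, hx, y, hy, hxy⟩ := exists_consecutive hC hS' (by omega)
    obtain ⟨X, Y, h1, h2, h3, h4, h5, l, h6, h7⟩ := asm_path (s := s + 1) (by omega) hcard hN le_rfl
      hx hy hxy.ne (by omega)
    have hc : (X ∪ Y).card = r := by
      rw [Finset.card_union_of_disjoint h3, h4, h5, hs]
      omega
    refine ⟨X, Y, h1.trans hS', h2, h4, by omega, ⟨l, ⟨?_, x, y, h6, hxy.symm⟩, h7⟩, hc⟩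
    rw [← card_of_list h6.1 h7, hc]
    omega

/-- the gain -/
theorem gain {r a : ℕ} {C H X Y : Finset V} {ε τ N : ℝ} (hCH : Disjoint C H) (hX : X ⊆ C)
    (hY : Y ⊆ H) (hXc : X.card = a) (hYc : Y.card ≤ a) (hCr : C.card ≤ 2 * a)
    (hN : (H.card : ℝ) = N) (hdeg : ∀ y ∈ Y, (dg G H y : ℝ) ≤ τ * N)
    (hbig : (1 + ε) * (a : ℝ) * N ≤ (eS G H C : ℝ)) (ha : 0 < a) (hτ : 0 ≤ τ * N)
    (hfin : (a : ℝ) + τ * N < ε * N) :
    eS G H H < eS G ((C ∪ H) \ (X ∪ Y)) ((C ∪ H) \ (X ∪ Y)) := by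
  have e1 : (C ∪ H) \ (X ∪ Y) = (C \ X) ∪ (H \ Y) := by
    ext v
    simp only [Finset.mem_sdiff, Finset.mem_union]
    constructor
    · rintro ⟨h1 | h1, h2⟩
      · exact Or.inl ⟨h1, fun h => h2 (Or.inl h)⟩
      · exact Or.inr ⟨h1, fun h => h2 (Or.inr h)⟩
    · rintro (⟨h1, h2⟩ | ⟨h1, h2⟩)
      · refine ⟨Or.inl h1, ?_⟩
        rintro (h | h)
        · exact h2 h
        · exact (Finset.disjoint_left.1 hCH) h1 (hY h)
      · refine ⟨Or.inr h1, ?_⟩
        rintro (h | h)
        · exact (Finset.disjoint_left.1 hCH) (hX h) h1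
        · exact h2 h
  have hd : Disjoint (C \ X) (H \ Y) :=
    Finset.disjoint_of_subset_left Finset.sdiff_subset
      (Finset.disjoint_of_subset_right Finset.sdiff_subset hCH)
  rw [e1, eS_self_union hd]
  -- `eS H H`
  have e2 : eS G H H = eS G (H \ Y) (H \ Y) + 2 * eS G (H \ Y) Y + eS G Y Y := by
    have := eS_self_union (G := G) (A := H \ Y) (B := Y) Finset.sdiff_disjoint
    rwa [Finset.sdiff_union_of_subset hY] at this
  have e3 : eS G (H \ Y) Y + eS G Y Y = eS G Y H := by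
    rw [← eS_split_left hY, eS_comm]
  have e4 : (eS G Y H : ℝ) ≤ a * (τ * N) := by
    unfold eS
    push_cast
    calc ∑ y ∈ Y, (dg G H y : ℝ) ≤ ∑ y ∈ Y, τ * N := Finset.sum_le_sum hdeg
      _ = Y.card * (τ * N) := by rw [Finset.sum_const, nsmul_eq_mul]
      _ ≤ a * (τ * N) := mul_le_mul_of_nonneg_right (by exact_mod_cast hYc) hτ
  -- `eS C H`
  have e5 : eS G C H = eS G (C \ X) H + eS G X H := eS_split_left hX H
  have e6 : eS G (C \ X) H = eS G (C \ X) (H \ Y) + eS G (C \ X) Y := eS_split_right hY _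
  have e7 : eS G X H ≤ a * H.card := (eS_le X H).trans (by rw [hXc])
  have e8 : eS G (C \ X) Y ≤ a * a := by
    refine (eS_le _ _).trans (Nat.mul_le_mul ?_ hYc)
    rw [Finset.card_sdiff_of_subset hX, hXc]
    omega
  have e9 : eS G H C = eS G C H := eS_comm _ _
  have f5 : (eS G C H : ℝ) = eS G (C \ X) (H \ Y) + eS G (C \ X) Y + eS G X H := by
    rw [e5, e6]; push_cast; ring
  have f7 : (eS G X H : ℝ) ≤ a * N := by rw [← hN]; exact_mod_cast e7
  have f8 : (eS G (C \ X) Y : ℝ) ≤ a * a := by exact_mod_cast e8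
  rw [e9] at hbig
  have haR : (0 : ℝ) < a := by exact_mod_cast ha
  have key : (eS G H H : ℝ) < (eS G (C \ X) (C \ X) + 2 * eS G (C \ X) (H \ Y) +
      eS G (H \ Y) (H \ Y) : ℕ) := by
    push_cast
    have g1 : (eS G H H : ℝ) ≤ eS G (H \ Y) (H \ Y) + 2 * eS G Y H := by
      have : eS G H H ≤ eS G (H \ Y) (H \ Y) + 2 * eS G Y H := by omega
      exact_mod_cast this
    have g2 : (0 : ℝ) ≤ eS G (C \ X) (C \ X) := Nat.cast_nonneg _
    have g3 : (a : ℝ) * (a + τ * N) < a * (ε * N) := mul_lt_mul_of_pos_left hfin haR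
    nlinarith
  exact_mod_cast key

end Exch

/-- **The exchange lemma.** -/
theorem exchange (ε : ℝ) (hε : 0 < ε) : ∃ θ : ℝ, 0 < θ ∧ ∃ M : ℕ,
    ∀ {V : Type u} [DecidableEq V] (G : SimpleGraph V) (r : ℕ) (C H : Finset V),
      4 ≤ r → Disjoint C H → CycSet G C → C.card = r → M * r ≤ H.card →
      (eS G H H : ℝ) ≤ θ * (H.card : ℝ) ^ 2 →
      (1 + ε) * (((r + 1) / 2 : ℕ) : ℝ) * (H.card : ℝ) ≤ (eS G H C : ℝ) →
      ∃ D, CycSet G D ∧ D.card = r ∧ D ⊆ C ∪ H ∧
        eS G H H < eS G ((C ∪ H) \ D) ((C ∪ H) \ D) := by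
  classical
  obtain ⟨M, hM⟩ := exists_nat_ge (24576 / ε ^ 3 + 4 / ε + 1)
  have hε3 : (0 : ℝ) < ε ^ 3 := by positivity
  have hM1 : 24576 / ε ^ 3 ≤ M := by
    have : (0 : ℝ) < 4 / ε := by positivity
    linarith
  have hM2 : 4 / ε < M := by
    have : (0 : ℝ) < 24576 / ε ^ 3 := by positivity
    linarith
  have hM0 : (0 : ℝ) < M := lt_trans (by positivity) hM2
  refine ⟨ε ^ 2 / 8, by positivity, M, ?_⟩
  intro V _ G r C H hr hCH hC hCr hMH hsparse hbig
  set a := (r + 1) / 2 with ha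
  have ha1 : r ≤ 2 * a := by omega
  have ha2 : 2 * a ≤ r + 1 := by omega
  have ha3 : 2 ≤ a := by omega
  set N : ℝ := (H.card : ℝ) with hN
  have hrR : (4 : ℝ) ≤ r := by exact_mod_cast hr
  have haR : (r : ℝ) ≤ 2 * a := by exact_mod_cast ha1
  have haR2 : 2 * (a : ℝ) ≤ r + 1 := by exact_mod_cast ha2
  have hNM : (M : ℝ) * r ≤ N := by rw [hN]; exact_mod_cast hMH
  have hN0 : 0 < N := lt_of_lt_of_le (by positivity) hNM
  -- low part
  set Z : Finset V := H.filter fun h => (dg G H h : ℝ) ≤ ε / 2 * N with hZ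
  have hZH : Z ⊆ H := Finset.filter_subset _ _
  have hCZ : Disjoint C Z := Finset.disjoint_of_subset_right hZH hCH
  have hhigh : ((H \ Z).card : ℝ) * (ε / 2 * N) ≤ ε ^ 2 / 8 * N ^ 2 := by
    refine le_trans ?_ hsparse
    have h1 : ((H \ Z).card : ℝ) * (ε / 2 * N) ≤ ∑ h ∈ H \ Z, (dg G H h : ℝ) := by
      rw [← nsmul_eq_mul]
      refine Finset.card_nsmul_le_sum _ _ _ fun h hh => ?_
      rw [Finset.mem_sdiff, hZ, Finset.mem_filter, not_and, not_le] at hh
      exact (hh.2 hh.1).le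
    refine h1.trans ?_
    unfold eS
    push_cast
    exact Finset.sum_le_sum_of_subset_of_nonneg Finset.sdiff_subset fun _ _ _ => Nat.cast_nonneg _
  have hhigh2 : ((H \ Z).card : ℝ) ≤ ε / 4 * N := by
    have h1 : 0 < ε / 2 * N := by positivity
    have h2 : ((H \ Z).card : ℝ) * (ε / 2 * N) ≤ (ε / 4 * N) * (ε / 2 * N) := by
      refine hhigh.trans (le_of_eq ?_)
      ring
    exact le_of_mul_le_mul_right h2 h1
  have hlow : (1 + ε / 2) * a * N ≤ (eS G Z C : ℝ) := by
    have h1 : eS G H C = eS G (H \ Z) C + eS G Z C := eS_split_left hZH C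
    have h2 : eS G (H \ Z) C ≤ (H \ Z).card * r := (eS_le _ _).trans (by rw [hCr])
    have h3 : (eS G (H \ Z) C : ℝ) ≤ (H \ Z).card * (r : ℝ) := by exact_mod_cast h2
    have h4 : ((H \ Z).card : ℝ) * (r : ℝ) ≤ (ε / 4 * N) * (2 * a) :=
      mul_le_mul hhigh2 haR (by linarith) (by positivity)
    have h5 : (eS G H C : ℝ) = eS G (H \ Z) C + eS G Z C := by rw [h1]; push_cast; ring
    nlinarith
  -- choose `h`
  have hZN : (Z.card : ℝ) ≤ N := by rw [hN]; exact_mod_cast Finset.card_le_card hZH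
  have hpr : (∑ h ∈ Z, (Exch.pr G Z (2 * a) (Exch.nb G C h) : ℝ)) ≤ (r : ℝ) * r * (r + 1) := by
    have h1 := Exch.sum_pr_le (G := G) C Z (2 * a)
    rw [hCr] at h1
    have h2 : r * r * (2 * a) ≤ r * r * (r + 1) := Nat.mul_le_mul_left _ ha2
    exact_mod_cast h1.trans h2
  set lam : ℝ := ε * M / (24 * r) with hlam
  have hlam0 : 0 < lam := by positivity
  have hex : ∃ h ∈ Z, (1 + ε / 4) * a + lam * (Exch.pr G Z (2 * a) (Exch.nb G C h) : ℝ) ≤
      ((Exch.nb G C h).card : ℝ) := by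
    by_contra hcon
    push Not at hcon
    have h1 : (eS G Z C : ℝ) ≤ ∑ h ∈ Z, ((1 + ε / 4) * a +
        lam * (Exch.pr G Z (2 * a) (Exch.nb G C h) : ℝ)) := by
      unfold eS
      push_cast
      refine Finset.sum_le_sum fun h hh => ?_
      rw [← Exch.card_nb]
      exact (hcon h hh).le
    rw [Finset.sum_add_distrib, Finset.sum_const, nsmul_eq_mul, ← Finset.mul_sum] at h1
    have h2 : lam * (∑ h ∈ Z, (Exch.pr G Z (2 * a) (Exch.nb G C h) : ℝ)) ≤
        lam * ((r : ℝ) * r * (r + 1)) := mul_le_mul_of_nonneg_left hpr hlam0.le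
    have h3 : lam * ((r : ℝ) * r * (r + 1)) = ε * M * r * (r + 1) / 24 := by
      rw [hlam]
      field_simp
    have h4 : (Z.card : ℝ) * ((1 + ε / 4) * a) ≤ N * ((1 + ε / 4) * a) :=
      mul_le_mul_of_nonneg_right hZN (by positivity)
    have h5 : ε / 4 * a * N ≤ ε * M * r * (r + 1) / 24 := by nlinarith
    have h6 : ε / 4 * (r / 2) * (M * r) ≤ ε / 4 * a * N := by
      have g1 : ε / 4 * ((r : ℝ) / 2) ≤ ε / 4 * a := mul_le_mul_of_nonneg_left (by linarith) (by positivity)
      exact mul_le_mul g1 hNM (by positivity) (by positivity)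
    have h7 : 0 < ε * M * r := by positivity
    nlinarith
  obtain ⟨h, hhZ, hh⟩ := hex
  set S := Exch.nb G C h with hS
  have hSC : S ⊆ C := Finset.filter_subset _ _
  have hSr : (S.card : ℝ) ≤ r := by rw [← hCr]; exact_mod_cast Finset.card_le_card hSC
  have hpr2 : (Exch.pr G Z (2 * a) S : ℝ) ≤ 24 * r ^ 2 / (ε * M) := by
    rw [le_div_iff₀ (by positivity)]
    have h1 : lam * (Exch.pr G Z (2 * a) S : ℝ) ≤ r := by
      have : 0 ≤ (1 + ε / 4) * (a : ℝ) := by positivity
      linarith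
    rw [hlam, div_mul_eq_mul_div, div_le_iff₀ (by positivity)] at h1
    nlinarith
  -- remove the bad members
  set b := ⌊ε / 32 * r⌋₊ with hb
  have hb1 : (b : ℝ) ≤ ε / 32 * r := Nat.floor_le (by positivity)
  have hb2 : ε / 32 * r < (b : ℝ) + 1 := Nat.lt_floor_add_one _
  obtain ⟨S', hS'S, hnear, hbad⟩ := Exch.exists_near (G := G) Z S (2 * a) b
  have hbadR : ((S.card - S'.card : ℕ) : ℝ) ≤ ε / 32 * r := by
    have h1 : ((b : ℝ) + 1) * ((S.card - S'.card : ℕ) : ℝ) ≤ 24 * r ^ 2 / (ε * M) := by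
      refine le_trans ?_ hpr2
      exact_mod_cast hbad
    have h2 : (ε / 32 * r) * ((S.card - S'.card : ℕ) : ℝ) ≤ 24 * r ^ 2 / (ε * M) :=
      le_trans (mul_le_mul_of_nonneg_right hb2.le (Nat.cast_nonneg _)) h1
    have h3 : 24 * (r : ℝ) ^ 2 / (ε * M) ≤ (ε / 32 * r) * (ε / 32 * r) := by
      rw [div_le_iff₀ (by positivity)]
      rw [div_le_iff₀ hε3] at hM1
      have h4 : (ε / 32 * r) * (ε / 32 * r) * (ε * M) = (M * ε ^ 3) * (r ^ 2 / 1024) := by ring
      rw [h4]
      have h5 : (24576 : ℝ) * (r ^ 2 / 1024) ≤ (M * ε ^ 3) * (r ^ 2 / 1024) :=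
        mul_le_mul_of_nonneg_right hM1 (by positivity)
      linarith
    exact le_of_mul_le_mul_left (h2.trans h3) (by positivity)
  have hcard : a + 2 * b ≤ S'.card := by
    have h1 : S'.card ≤ S.card := Finset.card_le_card hS'S
    rw [Nat.cast_sub h1] at hbadR
    have h2 : (1 + ε / 4) * (a : ℝ) ≤ S.card := by
      have : 0 ≤ lam * (Exch.pr G Z (2 * a) S : ℝ) := by positivity
      linarith
    have h3 : ((a + 2 * b : ℕ) : ℝ) ≤ (S'.card : ℝ) := by
      push_cast
      nlinarith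
    exact_mod_cast h3
  obtain ⟨X, Y, hX, hY, hXc, hYc, hD, hDc⟩ := Exch.exists_D hr hC hCr hCZ (hS'S.trans hSC)
    hcard hnear
  refine ⟨X ∪ Y, hD, hDc, Finset.union_subset_union hX (hY.trans hZH), ?_⟩
  refine Exch.gain (r := r) (a := a) (ε := ε) (τ := ε / 2) (N := N) hCH hX (hY.trans hZH) hXc hYc
    (hCr.trans_le ha1) hN.symm ?_ hbig (by omega) (by positivity) ?_
  · intro y hy
    exact (Finset.mem_filter.1 (hY hy)).2
  · -- `a < ε / 2 * N`
    have h1 : (4 : ℝ) < M * ε := by rwa [div_lt_iff₀ hε] at hM2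
    have h2 : 4 * (r : ℝ) ≤ ε * N := by
      have h3 : ε * ((M : ℝ) * r) ≤ ε * N := mul_le_mul_of_nonneg_left hNM hε.le
      nlinarith
    nlinarith

end Pool.Agent.LCK
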