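import Pool.Agent.LCK.Exch
import Pool.Agent.LCK.Out

set_option linter.all false

namespace Pool.Agent.LCK

open Pool.Agent.Helper14.LongCyc

universe u

/-- lexicographic choice: a member with minimal `f` and, among these, maximal `g` -/
theorem exists_lex {α : Type*} (Q : α → Prop) (f g : α → ℕ) (N : ℕ) (hg : ∀ x, Q x → g x ≤ N)
    (h : ∃ x, Q x) :
    ∃ x, Q x ∧ (∀ y, Q y → f x ≤ f y) ∧ ∀ y, Q y → f y = f x → g y ≤ g x := by
  classical
  have h1 : ∃ n, ∃ x, Q x ∧ f x = n := by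
    obtain ⟨x, hx⟩ := h
    exact ⟨_, x, hx, rfl⟩
  let n := Nat.find h1
  have hn : ∃ x, Q x ∧ f x = n := Nat.find_spec h1
  have hmin : ∀ y, Q y → n ≤ f y := fun y hy => Nat.find_min' h1 ⟨y, hy, rfl⟩
  have h2 : ∃ m, ∃ x, Q x ∧ f x = n ∧ N - g x = m := by
    obtain ⟨x, hx, hx'⟩ := hn
    exact ⟨_, x, hx, hx', rfl⟩
  obtain ⟨x, hx, hxn, hxm⟩ := Nat.find_spec h2
  refine ⟨x, hx, fun y hy => by rw [hxn]; exact hmin y hy, fun y hy hy' => ?_⟩
  have := Nat.find_min' h2 ⟨y, hy, hy'.trans hxn, rfl⟩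
  rw [← hxm] at this
  have a1 := hg x hx
  have a2 := hg y hy
  omega

theorem tot_replace {V : Type u} [DecidableEq V] {F : Finset (Finset V)} {C D : Finset V}
    (hC : C ∈ F) (hD : D ∉ F.erase C) : tot (insert D (F.erase C)) + C.card = tot F + D.card := by
  unfold tot
  rw [Finset.sum_insert hD]
  have := Finset.sum_erase_add F (fun s => s.card) hC
  omega

theorem card_replace {V : Type u} [DecidableEq V] {F : Finset (Finset V)} {C D : Finset V}
    (hC : C ∈ F) (hD : D ∉ F.erase C) : (insert D (F.erase C)).card = F.card := by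
  rw [Finset.card_insert_of_notMem hD, Finset.card_erase_of_mem hC]
  have := Finset.card_pos.2 ⟨C, hC⟩
  omega

theorem ex_replace {V : Type u} [DecidableEq V] {r : ℕ} {F : Finset (Finset V)} {C D : Finset V}
    (hC : C ∈ F) (hD : D ∉ F.erase C) (h : C.card = r → D.card = r) :
    ex r F ≤ ex r (insert D (F.erase C)) := by
  unfold ex
  by_cases hc : C.card = r
  · have hd := h hc
    rw [Finset.filter_insert, if_pos hd, Finset.card_insert_of_notMem (by
      intro h; exact hD (Finset.mem_filter.1 h).1), Finset.filter_erase,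
      Finset.card_erase_of_mem (by rw [Finset.mem_filter]; exact ⟨hC, hc⟩)]
    omega
  · refine Finset.card_le_card ?_
    intro s hs
    rw [Finset.mem_filter] at hs ⊢
    refine ⟨?_, hs.2⟩
    rw [Finset.mem_insert, Finset.mem_erase]
    exact Or.inr ⟨by rintro rfl; exact hc hs.2, hs.1⟩

theorem step (ε : ℝ) (hε : 0 < ε) : ∃ θ : ℝ, 0 < θ ∧ ∃ M : ℕ,
    ∀ {V : Type u} [DecidableEq V] (G : SimpleGraph V) (U : Finset V) (k r p k' : ℕ)
      (P : ℕ → Prop),
      4 ≤ r → P r → (∀ L, P L → r ≤ L) → (∀ L L', P L → r ≤ L' → L' ≤ L → P L') → k' < k →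
      (∀ v ∈ U, (1 + ε) * (k : ℝ) * (((r + 1) / 2 : ℕ) : ℝ) ≤ (dg G U v : ℝ)) →
      (∃ F, Fam G U P F ∧ F.card = k' ∧ p ≤ ex r F) →
      (∀ F, Fam G U P F → F.card = k' → p ≤ ex r F →
        (∀ F', Fam G U P F' → F'.card = k' → p ≤ ex r F' → tot F ≤ tot F') →
        (∀ F', Fam G U P F' → F'.card = k' + 1 → p ≤ ex r F' → False) →
        M * r ≤ (rest U F).card ∧
        (eS G (rest U F) (rest U F) : ℝ) ≤ θ * ((rest U F).card : ℝ) ^ 2 ∧
        (eS G (rest U F) (rest U F) : ℝ) ≤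
          ε / 2 * (k : ℝ) * (((r + 1) / 2 : ℕ) : ℝ) * ((rest U F).card : ℝ)) →
      ∃ F, Fam G U P F ∧ F.card = k' + 1 ∧ p ≤ ex r F := by
  obtain ⟨θ, hθ, M, hex⟩ := exchange.{u} (ε / 2) (by linarith)
  refine ⟨θ, hθ, max M 1, ?_⟩
  intro V _ G U k r p k' P hr hPr hPge hPdown hkk hdeg hF0 hF
  by_contra hcon
  have hno : ∀ F', Fam G U P F' → F'.card = k' + 1 → p ≤ ex r F' → False := by
    intro F' h1 h2 h3
    exact hcon ⟨F', h1, h2, h3⟩
  obtain ⟨F, ⟨hFam, hFk, hFp⟩, hmin, hmax⟩ := exists_lex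
    (fun F : Finset (Finset V) => Fam G U P F ∧ F.card = k' ∧ p ≤ ex r F) tot
    (fun F => eS G (rest U F) (rest U F)) (U.card * U.card) (by
      intro F _
      refine (eS_le _ _).trans ?_
      exact Nat.mul_le_mul (Finset.card_le_card (rest_subset _ _))
        (Finset.card_le_card (rest_subset _ _))) hF0
  obtain ⟨hM, hs1, hs2⟩ := hF F hFam hFk hFp (fun F' h1 h2 h3 => hmin F' ⟨h1, h2, h3⟩) hno
  set H := rest U F with hH
  set a : ℕ := (r + 1) / 2 with ha
  have ha1 : 1 ≤ a := by omega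
  have hN : 1 ≤ H.card := by
    have : 1 * r ≤ max M 1 * r := Nat.mul_le_mul_right _ (le_max_right _ _)
    omega
  have hNR : (1 : ℝ) ≤ (H.card : ℝ) := by exact_mod_cast hN
  have hM' : M * r ≤ H.card := (Nat.mul_le_mul_right _ (le_max_left _ _)).trans hM
  have haR : (1 : ℝ) ≤ (a : ℝ) := by exact_mod_cast ha1
  -- total number of edges from `H` to the family
  have hsum : (1 + ε / 2) * (k : ℝ) * (a : ℝ) * (H.card : ℝ) ≤ ∑ C ∈ F, (eS G H C : ℝ) := by
    have h1 : (1 + ε) * (k : ℝ) * (a : ℝ) * (H.card : ℝ) ≤ (eS G H U : ℝ) := by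
      unfold eS
      push_cast
      calc (1 + ε) * (k : ℝ) * (a : ℝ) * (H.card : ℝ)
          = ∑ v ∈ H, (1 + ε) * (k : ℝ) * (a : ℝ) := by rw [Finset.sum_const]; simp; ring
        _ ≤ _ := Finset.sum_le_sum fun v hv => hdeg v (rest_subset _ _ hv)
    have h2 := hFam.eS_split H
    have h3 : (eS G H U : ℝ) = (eS G H H : ℝ) + ∑ C ∈ F, (eS G H C : ℝ) := by
      rw [h2]; push_cast; rfl
    nlinarith
  -- one member receives many edges
  have hC : ∃ C ∈ F, (1 + ε / 2) * (a : ℝ) * (H.card : ℝ) ≤ (eS G H C : ℝ) := by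
    by_contra hc
    push Not at hc
    have h1 : ∑ C ∈ F, (eS G H C : ℝ) ≤ ∑ C ∈ F, (1 + ε / 2) * (a : ℝ) * (H.card : ℝ) :=
      Finset.sum_le_sum fun C hC => (hc C hC).le
    rw [Finset.sum_const, nsmul_eq_mul, hFk] at h1
    have h2 : (k' : ℝ) + 1 ≤ k := by exact_mod_cast hkk
    have h3 : 0 < (1 + ε / 2) * (a : ℝ) * (H.card : ℝ) := by positivity
    nlinarith
  obtain ⟨C, hCF, hCe⟩ := hC
  have hCr : r ≤ C.card := hPge _ (hFam.len C hCF)
  have hCH : Disjoint C H := Fam.rest_disj hCF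
  by_cases hlt : r < C.card
  · -- long member: each outside vertex has at most `a` neighbours on it
    have hb : ∀ h ∈ H, dg G C h ≤ a := by
      intro h hh
      refine outside hr (hFam.cyc C hCF) hlt (Finset.disjoint_right.1 hCH hh) ?_
      intro D hD hDs hDr
      by_contra hDC
      push Not at hDC
      have hDs' : D ⊆ C ∪ rest U F := by
        refine hDs.trans ?_
        intro x hx
        rcases Finset.mem_insert.1 hx with rfl | hx
        · exact Finset.mem_union_right _ hh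
        · exact Finset.mem_union_left _ hx
      obtain ⟨f1, f2, f3⟩ := hFam.replace hCF hD hDs'
        (hPdown _ _ (hFam.len C hCF) hDr hDC.le)
      have f4 := tot_replace hCF f2
      have f5 := card_replace hCF f2
      have f6 : ex r F ≤ ex r (insert D (F.erase C)) := ex_replace hCF f2 (by intro h; omega)
      have := hmin _ ⟨f1, f5.trans hFk, hFp.trans f6⟩
      omega
    have h1 : eS G H C ≤ H.card * a := by
      unfold eS
      exact (Finset.sum_le_card_nsmul _ _ _ hb).trans (by simp)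
    have h2 : (eS G H C : ℝ) ≤ (H.card : ℝ) * (a : ℝ) := by exact_mod_cast h1
    have h3 : 0 < (a : ℝ) * (H.card : ℝ) := by positivity
    nlinarith
  · have hCe' : C.card = r := by omega
    obtain ⟨D, hD, hDr, hDs, hDe⟩ := hex G r C H hr hCH (hFam.cyc C hCF) hCe' hM' hs1 hCe
    obtain ⟨f1, f2, f3⟩ := hFam.replace hCF hD hDs (by rw [hDr]; exact hPr)
    have f4 := tot_replace hCF f2
    have f5 := card_replace hCF f2
    have f6 : ex r F ≤ ex r (insert D (F.erase C)) := ex_replace hCF f2 (by intro h; exact hDr)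
    have := hmax _ ⟨f1, f5.trans hFk, hFp.trans f6⟩ (by omega)
    rw [f3] at this
    exact absurd hDe (by push Not; exact this)

end Pool.Agent.LCK
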