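import Pool.Agent.LCK.Pair
import Pool.Agent.LCK.Out
import Pool.Agent.LCK.Step

set_option linter.all false

namespace Pool.Agent.LCK

open Pool.Agent.Helper14.LongCyc

universe u

variable {V : Type u} {G : SimpleGraph V}

/-- a region without long cycles is sparse -/
theorem regB_sparse [DecidableEq V] {r : ℕ} (hr : 3 ≤ r) : ∀ (n : ℕ) (B : Finset V),
    B.card = n → NoLong G r B → eS G B B ≤ 2 * r * B.card := by
  intro n
  induction n with
  | zero =>
    intro B hB _
    rw [Finset.card_eq_zero.1 hB]
    simp [eS]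
  | succ n ih =>
    intro B hB hno
    have hne : B.Nonempty := Finset.card_pos.1 (by omega)
    obtain ⟨v, hv⟩ := hne
    obtain ⟨q, z, hq, hz, hza, hmax⟩ := extend (G := G) B _ [v] v v le_rfl (Pth.singleton v)
    have hzB : z ∈ B := by
      rcases hza with h | h
      · rw [h]; exact hv
      · exact h
    have hin : ∀ x ∈ q ++ [v], x ∈ B := by
      intro x hx
      rw [List.mem_append, List.mem_singleton] at hx
      rcases hx with hx | hx
      · exact hq x hx
      · rw [hx]; exact hv
    have hform : ∃ t, q ++ [v] = z :: t := by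
      have h1 := hz.2.2.1
      cases hl : q ++ [v] with
      | nil => rw [hl] at h1; simp at h1
      | cons x t =>
        rw [hl] at h1
        simp only [List.head?_cons, Option.some.injEq] at h1
        exact ⟨t, by rw [h1]⟩
    obtain ⟨t, ht⟩ := hform
    rw [ht] at hz hin hmax
    have hdeg := leaf_deg hr hno hz hin hmax
    have hsub : ({z} : Finset V) ⊆ B := by simpa using hzB
    have e1 := eS_split_left (G := G) hsub B
    have e2 := eS_split_right (G := G) hsub (B \ {z})
    have e3 : eS G {z} B = dg G B z := by simp [eS]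
    have e4 : eS G (B \ {z}) {z} ≤ dg G B z := by
      rw [eS_comm]
      have : eS G {z} (B \ {z}) = dg G (B \ {z}) z := by simp [eS]
      rw [this]
      exact dg_mono Finset.sdiff_subset z
    have hcard : (B \ {z}).card = n := by
      rw [Finset.card_sdiff_of_subset hsub, Finset.card_singleton]; omega
    have h5 := ih (B \ {z}) hcard (hno.mono Finset.sdiff_subset)
    rw [hcard] at h5
    rw [hB]
    have : 2 * r * (n + 1) = 2 * r * n + 2 * r := by ring
    omega

theorem regB_tot_insert [DecidableEq V] {F : Finset (Finset V)} {D : Finset V} (h : D ∉ F) :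
    tot (insert D F) = D.card + tot F := by
  unfold tot
  rw [Finset.sum_insert h]

theorem regB_tot_erase [DecidableEq V] {F : Finset (Finset V)} {C : Finset V} (h : C ∈ F) :
    C.card + tot (F.erase C) = tot F := by
  unfold tot
  exact Finset.add_sum_erase F _ h

/-- the counting of a minimal family -/
theorem regB_count [DecidableEq V] {U : Finset V} {k k' r : ℕ} (hr : 4 ≤ r) (hk' : k' ≤ k)
    {F : Finset (Finset V)} (hF : Fam G U (fun L => r ≤ L) F) (hFk : F.card = k')
    (hmin : ∀ F', Fam G U (fun L => r ≤ L) F' → F'.card = k' → tot F ≤ tot F')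
    (hno : ∀ F', Fam G U (fun L => r ≤ L) F' → F'.card = k' + 1 → False) :
    eS G (rest U F) (rest U F) ≤ 2 * r * (rest U F).card ∧
      ∑ s ∈ F, eS G s U ≤
        k * (r * (rest U F).card) + r * tot F + 2 * k * tot F + 20 * k ^ 2 * r ^ 2 := by
  classical
  have hone : ∀ C ∈ F, ∀ D, CycSet G D → D ⊆ C ∪ rest U F → r ≤ D.card → C.card ≤ D.card := by
    intro C hC D hD hDs hDr
    obtain ⟨h1, h2, _⟩ := hF.replace hC hD hDs hDr
    have h3 := hmin _ h1 (by
      rw [Finset.card_insert_of_notMem h2, Finset.card_erase_of_mem hC]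
      have := Finset.card_pos.2 ⟨C, hC⟩
      omega)
    rw [regB_tot_insert h2] at h3
    have h4 := regB_tot_erase hC
    omega
  have htwo : ∀ C ∈ F, ∀ C' ∈ F, C ≠ C' → ∀ D D', CycSet G D → CycSet G D' → Disjoint D D' →
      D ⊆ C ∪ C' → D' ⊆ C ∪ C' → r ≤ D.card → r ≤ D'.card →
      C.card + C'.card ≤ D.card + D'.card := by
    intro C hC C' hC' hne D D' hD hD' hdd hDs hDs' hDr hDr'
    have hneD : D ≠ D' := by
      rintro rfl
      have h1 : D = ∅ := by simpa using hdd
      rw [h1] at hDr; simp at hDr; omega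
    have hA : ({C, C'} : Finset (Finset V)) ⊆ F := by
      intro x hx
      rw [Finset.mem_insert, Finset.mem_singleton] at hx
      rcases hx with rfl | rfl
      · exact hC
      · exact hC'
    have hbu : (({C, C'} : Finset (Finset V)).biUnion id) = C ∪ C' := by
      ext x; simp
    have hB : Fam G (({C, C'} : Finset (Finset V)).biUnion id ∪ rest U F) (fun L => r ≤ L)
        {D, D'} := by
      rw [hbu]
      refine ⟨?_, ?_, ?_, ?_⟩
      · intro s hs
        rw [Finset.mem_insert, Finset.mem_singleton] at hs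
        rcases hs with rfl | rfl
        · exact hD
        · exact hD'
      · intro s hs
        rw [Finset.mem_insert, Finset.mem_singleton] at hs
        rcases hs with rfl | rfl
        · exact hDs.trans Finset.subset_union_left
        · exact hDs'.trans Finset.subset_union_left
      · intro s hs
        rw [Finset.mem_insert, Finset.mem_singleton] at hs
        rcases hs with rfl | rfl
        · exact hDr
        · exact hDr'
      · intro s hs t ht hst
        rw [Finset.mem_insert, Finset.mem_singleton] at hs ht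
        rcases hs with hs | hs <;> rcases ht with ht | ht
        · exact absurd (hs.trans ht.symm) hst
        · rw [hs, ht]; exact hdd
        · rw [hs, ht]; exact hdd.symm
        · exact absurd (hs.trans ht.symm) hst
    obtain ⟨h1, h2, _⟩ := hF.swap hA hB
    have hcA : ({C, C'} : Finset (Finset V)).card = 2 := Finset.card_pair hne
    have hcB : ({D, D'} : Finset (Finset V)).card = 2 := Finset.card_pair hneD
    have hle := Finset.card_le_card hA
    have h3 := hmin _ h1 (by
      rw [Finset.card_union_of_disjoint h2, Finset.card_sdiff_of_subset hA, hcB, hcA]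
      omega)
    have h4 : tot ((F \ {C, C'}) ∪ {D, D'}) = tot (F \ {C, C'}) + (D.card + D'.card) := by
      unfold tot
      rw [Finset.sum_union h2, Finset.sum_pair hneD]
    have h5 : tot F = tot (F \ {C, C'}) + (C.card + C'.card) := by
      unfold tot
      rw [← Finset.sum_sdiff hA, Finset.sum_pair hne]
    omega
  have hno' : NoLong G r (rest U F) := by
    intro l hl hlm
    by_contra hcon
    push Not at hcon
    have hc := List.toFinset_card_of_nodup (Cyc.nodup hl)
    obtain ⟨h1, h2⟩ := hF.add (Cyc.cycSet hl) (by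
      intro x hx
      exact hlm x (List.mem_toFinset.1 hx)) (by show r ≤ _; rw [hc]; exact hcon)
    exact hno _ h1 (by rw [h2, hFk])
  refine ⟨regB_sparse (by omega) _ _ rfl hno', ?_⟩
  have hsH : ∀ s ∈ F, eS G s (rest U F) ≤ r * (rest U F).card := by
    intro s hs
    have hsr : r ≤ s.card := hF.len s hs
    rcases hsr.eq_or_lt with h1 | h1
    · rw [h1]; exact eS_le _ _
    · rw [eS_comm]
      unfold eS
      have : ∀ h ∈ rest U F, dg G s h ≤ r := by
        intro h hh
        have hhs : h ∉ s := (mem_rest.1 hh).2 s hs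
        have h2 := outside hr (hF.cyc s hs) h1 hhs (by
          intro D hD hDs hDr
          refine hone s hs D hD (hDs.trans ?_) hDr
          intro x hx
          rw [Finset.mem_insert] at hx
          rw [Finset.mem_union]
          rcases hx with rfl | hx
          · exact Or.inr hh
          · exact Or.inl hx)
        omega
      refine (Finset.sum_le_card_nsmul _ _ _ this).trans ?_
      rw [smul_eq_mul, mul_comm]
  have hst : ∀ s ∈ F, ∀ t ∈ F,
      eS G s t ≤ (if s = t then r * s.card else 0) + (s.card + t.card + 20 * r ^ 2) := by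
    intro s hs t ht
    by_cases h : s = t
    · rw [if_pos h, ← h]
      have h1 : eS G s s ≤ s.card * r := by
        unfold eS
        refine (Finset.sum_le_card_nsmul _ _ r ?_).trans (by rw [smul_eq_mul])
        intro v hv
        exact own_deg hr (hF.cyc s hs) (hF.len s hs) (by
          intro D hD hDs hDr
          exact hone s hs D hD (hDs.trans Finset.subset_union_left) hDr) hv
      rw [mul_comm] at h1
      omega
    · rw [if_neg h, zero_add]
      exact pair_bound hr (hF.cyc s hs) (hF.cyc t ht) (hF.disj s hs t ht h) (hF.len s hs)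
        (hF.len t ht) (htwo s hs t ht h)
  have hmain : ∀ s ∈ F, eS G s U ≤ r * (rest U F).card +
      (r * s.card + (k' * s.card + tot F + k' * (20 * r ^ 2))) := by
    intro s hs
    rw [hF.eS_split s]
    refine add_le_add (hsH s hs) ?_
    refine (Finset.sum_le_sum (hst s hs)).trans ?_
    rw [Finset.sum_add_distrib, Finset.sum_ite_eq, if_pos hs, Finset.sum_add_distrib,
      Finset.sum_add_distrib, Finset.sum_const, Finset.sum_const, hFk, smul_eq_mul, smul_eq_mul]
    exact le_rfl
  refine (Finset.sum_le_sum hmain).trans ?_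
  rw [Finset.sum_add_distrib, Finset.sum_add_distrib, Finset.sum_add_distrib,
    Finset.sum_add_distrib, Finset.sum_const, Finset.sum_const, Finset.sum_const,
    ← Finset.mul_sum, ← Finset.mul_sum, hFk, smul_eq_mul, smul_eq_mul, smul_eq_mul]
  have e : ∑ i ∈ F, i.card = tot F := rfl
  rw [e]
  have i1 : k' * (r * (rest U F).card) ≤ k * (r * (rest U F).card) := Nat.mul_le_mul_right _ hk'
  have i2 : k' * tot F ≤ k * tot F := Nat.mul_le_mul_right _ hk'
  have i3 : k' * (k' * (20 * r ^ 2)) ≤ k * (k * (20 * r ^ 2)) :=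
    Nat.mul_le_mul hk' (Nat.mul_le_mul_right _ hk')
  have e3 : 20 * k ^ 2 * r ^ 2 = k * (k * (20 * r ^ 2)) := by ring
  have e4 : 2 * k * tot F = k * tot F + k * tot F := by ring
  rw [e3, e4]
  omega

/-- ROW REGB -/
theorem regB (ε : ℝ) (hε : 0 < ε) : ∃ C₂ K : ℕ,
    ∀ {V : Type u} [DecidableEq V] (G : SimpleGraph V) (U : Finset V) (k r : ℕ),
      K ≤ k → 4 ≤ r → C₂ * k * r ≤ U.card →
      (∀ v ∈ U, (1 + ε) * (k : ℝ) * (((r + 1) / 2 : ℕ) : ℝ) ≤ (dg G U v : ℝ)) →
      ∃ F, Fam G U (fun L => r ≤ L) F ∧ F.card = k := by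
  obtain ⟨θ, hθ, M, hstep⟩ := step.{u} ε hε
  obtain ⟨M1, hM1⟩ := exists_nat_ge (2 / θ)
  obtain ⟨C₂, hC₂⟩ := exists_nat_ge ((80 + (4 + ε) * ((max M M1 : ℕ) : ℝ)) / ε)
  obtain ⟨K, hK⟩ := exists_nat_ge (8 / ε)
  refine ⟨C₂, max K 1, ?_⟩
  intro V _ G U k r hk hr hU hdeg
  have hkK : K ≤ k := (le_max_left _ _).trans hk
  have hk1 : 1 ≤ k := (le_max_right _ _).trans hk
  have hεk : 8 ≤ ε * (k : ℝ) := by
    have : (8 : ℝ) / ε ≤ k := hK.trans (by exact_mod_cast hkK)
    rw [div_le_iff₀ hε] at this
    linarith
  have main : ∀ k' ≤ k, ∃ F, Fam G U (fun L => r ≤ L) F ∧ F.card = k' := by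
    intro k'
    induction k' with
    | zero => intro _; exact ⟨∅, Fam.empty, rfl⟩
    | succ k' ih =>
      intro hk'
      obtain ⟨F0, hF0, hF0k⟩ := ih (by omega)
      obtain ⟨F, h1, h2, _⟩ := hstep G U k r 0 k' (fun L => r ≤ L) hr (le_refl r) (fun L h => h)
        (fun L L' _ h _ => h) (by omega) hdeg ⟨F0, hF0, hF0k, Nat.zero_le _⟩ (by
          intro F hF hFk _ hmin hno
          obtain ⟨q1, q2⟩ := regB_count hr (by omega : k' ≤ k) hF hFk
            (fun F' h1 h2 => hmin F' h1 h2 (Nat.zero_le _))
            (fun F' h1 h2 => hno F' h1 h2 (Nat.zero_le _))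
          have hcard := hF.card_rest
          set H := rest U F with hH
          -- lower bound
          have hlow : (1 + ε) * (k : ℝ) * (((r + 1) / 2 : ℕ) : ℝ) * (tot F : ℝ) ≤
              ((∑ s ∈ F, eS G s U : ℕ) : ℝ) := by
            unfold tot
            push_cast
            rw [Finset.mul_sum]
            refine Finset.sum_le_sum fun s hs => ?_
            unfold eS
            push_cast
            have : ∀ v ∈ s, (1 + ε) * (k : ℝ) * (((r + 1) / 2 : ℕ) : ℝ) ≤ (dg G U v : ℝ) :=
              fun v hv => hdeg v (hF.sub s hs hv)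
            have h3 := Finset.card_nsmul_le_sum s _ _ this
            rw [nsmul_eq_mul] at h3
            push_cast at h3 ⊢
            linarith
          have q2' : ((∑ s ∈ F, eS G s U : ℕ) : ℝ) ≤ (k : ℝ) * ((r : ℝ) * (H.card : ℝ)) +
              (r : ℝ) * (tot F : ℝ) + 2 * (k : ℝ) * (tot F : ℝ) + 20 * (k : ℝ) ^ 2 * (r : ℝ) ^ 2 := by
            exact_mod_cast q2
          have q1' : (eS G H H : ℝ) ≤ 2 * (r : ℝ) * (H.card : ℝ) := by exact_mod_cast q1
          have hcard' : (H.card : ℝ) + (tot F : ℝ) = (U.card : ℝ) := by exact_mod_cast hcard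
          have hU' : (C₂ : ℝ) * (k : ℝ) * (r : ℝ) ≤ (U.card : ℝ) := by exact_mod_cast hU
          have ha1 : (r : ℝ) ≤ 2 * (((r + 1) / 2 : ℕ) : ℝ) := by
            have : r ≤ 2 * ((r + 1) / 2) := by omega
            exact_mod_cast this
          have ha2 : (2 : ℝ) ≤ (((r + 1) / 2 : ℕ) : ℝ) := by
            have : 2 ≤ (r + 1) / 2 := by omega
            exact_mod_cast this
          generalize (((r + 1) / 2 : ℕ) : ℝ) = A at hlow ha1 ha2 ⊢
          have hkR : (1 : ℝ) ≤ (k : ℝ) := by exact_mod_cast hk1
          have hrR : (4 : ℝ) ≤ (r : ℝ) := by exact_mod_cast hr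
          have hT : (0 : ℝ) ≤ (tot F : ℝ) := Nat.cast_nonneg _
          have hh : (0 : ℝ) ≤ (H.card : ℝ) := Nat.cast_nonneg _
          have hC₂' : 80 + (4 + ε) * ((max M M1 : ℕ) : ℝ) ≤ ε * (C₂ : ℝ) := by
            rw [div_le_iff₀ hε] at hC₂
            linarith
          have hkA : 0 < (k : ℝ) * A := by positivity
          -- step 1
          have s1 : ε * (k : ℝ) * A / 2 * (tot F : ℝ) ≤
              (k : ℝ) * ((r : ℝ) * (H.card : ℝ)) + 20 * (k : ℝ) ^ 2 * (r : ℝ) ^ 2 := by
            have c1 : ε * (k : ℝ) * A / 2 ≤ (1 + ε) * (k : ℝ) * A - (r : ℝ) - 2 * (k : ℝ) := by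
              have c2 : 2 * (k : ℝ) ≤ (k : ℝ) * A := by nlinarith
              have c3 : 8 * A ≤ ε * (k : ℝ) * A := by nlinarith
              nlinarith
            have c4 := mul_le_mul_of_nonneg_right c1 hT
            nlinarith
          have s2 : ε * (tot F : ℝ) ≤ 4 * (H.card : ℝ) + 80 * (k : ℝ) * (r : ℝ) := by
            have c1 : (k : ℝ) * ((r : ℝ) * (H.card : ℝ)) ≤ (k : ℝ) * A * (2 * (H.card : ℝ)) := by
              have : (r : ℝ) * (H.card : ℝ) ≤ 2 * A * (H.card : ℝ) :=
                mul_le_mul_of_nonneg_right ha1 hh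
              nlinarith
            have c2 : 20 * (k : ℝ) ^ 2 * (r : ℝ) ^ 2 ≤ (k : ℝ) * A * (40 * (k : ℝ) * (r : ℝ)) := by
              have : (r : ℝ) * (r : ℝ) ≤ 2 * A * (r : ℝ) :=
                mul_le_mul_of_nonneg_right ha1 (by linarith)
              have c5 : 0 ≤ 20 * (k : ℝ) ^ 2 := by positivity
              have c6 := mul_le_mul_of_nonneg_left this c5
              nlinarith
            have c3 : (k : ℝ) * A * (ε * (tot F : ℝ) / 2) ≤
                (k : ℝ) * A * (2 * (H.card : ℝ) + 40 * (k : ℝ) * (r : ℝ)) := by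
              nlinarith
            have c4 := le_of_mul_le_mul_left c3 hkA
            linarith
          have s3 : ((max M M1 : ℕ) : ℝ) * ((k : ℝ) * (r : ℝ)) ≤ (H.card : ℝ) := by
            have c0 : 0 < (k : ℝ) * (r : ℝ) := by positivity
            have c1 : ε * ((C₂ : ℝ) * (k : ℝ) * (r : ℝ)) ≤ ε * (U.card : ℝ) :=
              mul_le_mul_of_nonneg_left hU' hε.le
            have c2 := mul_le_mul_of_nonneg_right hC₂' c0.le
            have c3 : (4 + ε) * (((max M M1 : ℕ) : ℝ) * ((k : ℝ) * (r : ℝ))) ≤
                (4 + ε) * (H.card : ℝ) := by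
              nlinarith
            exact le_of_mul_le_mul_left c3 (by linarith)
          have s4 : ((max M M1 : ℕ) : ℝ) * (r : ℝ) ≤ (H.card : ℝ) := by
            refine le_trans ?_ s3
            refine mul_le_mul_of_nonneg_left ?_ (Nat.cast_nonneg _)
            nlinarith
          have s5 : (M : ℝ) * (r : ℝ) ≤ (H.card : ℝ) := by
            refine le_trans ?_ s4
            refine mul_le_mul_of_nonneg_right ?_ (by linarith)
            exact_mod_cast le_max_left _ _
          have s6 : (M1 : ℝ) * (r : ℝ) ≤ (H.card : ℝ) := by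
            refine le_trans ?_ s4
            refine mul_le_mul_of_nonneg_right ?_ (by linarith)
            exact_mod_cast le_max_right _ _
          refine ⟨by exact_mod_cast s5, ?_, ?_⟩
          · refine q1'.trans ?_
            have c1 : 2 ≤ θ * (M1 : ℝ) := by
              rw [div_le_iff₀ hθ] at hM1
              linarith
            have c2 : 2 * (r : ℝ) ≤ θ * (H.card : ℝ) := by
              have := mul_le_mul_of_nonneg_left s6 hθ.le
              have := mul_le_mul_of_nonneg_right c1 (by linarith : (0 : ℝ) ≤ (r : ℝ))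
              nlinarith
            have := mul_le_mul_of_nonneg_right c2 hh
            nlinarith
          · refine q1'.trans ?_
            have c1 : 2 * (r : ℝ) ≤ ε / 2 * (k : ℝ) * A := by nlinarith
            exact mul_le_mul_of_nonneg_right c1 hh)
      exact ⟨F, h1, h2⟩
  exact main k le_rfl

end Pool.Agent.LCK
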