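import Pool.Agent.LCK.Defs

/-!
# Triples with many absorbing possibilities (row TRIP)
-/

set_option linter.all false

namespace Pool.Agent.LCK

open Pool.Agent.Helper14.LongCyc Finset

universe u

namespace Trip

variable {V : Type u} [DecidableEq V]

/-- the triple `x, y, z` is good for `v, u, u'` -/
def gd (G : SimpleGraph V) (v u u' x y z : V) : Prop :=
  G.Adj v x ∧ G.Adj v z ∧ G.Adj u y ∧ G.Adj u' y

open Classical in
/-- common neighbours outside a small set -/
theorem common (G : SimpleGraph V) (U X : Finset V) (ε : ℝ)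
    (hdeg : ∀ v ∈ U, (1 / 2 + ε) * (U.card : ℝ) ≤ (dg G U v : ℝ))
    (hX : (X.card : ℝ) ≤ ε / 2 * (U.card : ℝ)) {a b : V} (ha : a ∈ U) (hb : b ∈ U) :
    3 / 2 * ε * (U.card : ℝ) ≤
      ((U.filter fun w => w ∉ X ∧ G.Adj a w ∧ G.Adj b w).card : ℝ) := by
  have h1 := hdeg a ha
  have h2 := hdeg b hb
  rw [dg_eq_card] at h1 h2
  have h3 : (U.filter fun w => G.Adj a w).card + (U.filter fun w => G.Adj b w).card ≤
      U.card + (U.filter fun w => G.Adj a w ∧ G.Adj b w).card := by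
    rw [← card_union_add_card_inter, ← filter_and]
    exact Nat.add_le_add_right (card_le_card (union_subset (filter_subset _ _)
      (filter_subset _ _))) _
  have h4 : (U.filter fun w => G.Adj a w ∧ G.Adj b w).card ≤
      (U.filter fun w => w ∉ X ∧ G.Adj a w ∧ G.Adj b w).card + X.card := by
    rw [← card_sdiff_add_card_inter (U.filter fun w => G.Adj a w ∧ G.Adj b w) X]
    refine Nat.add_le_add (card_le_card fun w hw => ?_) (card_le_card inter_subset_right)
    rw [mem_sdiff, mem_filter] at hw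
    rw [mem_filter]
    exact ⟨hw.1.1, hw.2, hw.1.2⟩
  have h5 : ((U.filter fun w => G.Adj a w).card : ℝ) + ((U.filter fun w => G.Adj b w).card : ℝ) ≤
      (U.card : ℝ) + ((U.filter fun w => G.Adj a w ∧ G.Adj b w).card : ℝ) := by
    exact_mod_cast h3
  have h6 : ((U.filter fun w => G.Adj a w ∧ G.Adj b w).card : ℝ) ≤
      ((U.filter fun w => w ∉ X ∧ G.Adj a w ∧ G.Adj b w).card : ℝ) + (X.card : ℝ) := by
    exact_mod_cast h4
  linarith

open Classical in
/-- admissible triples -/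
noncomputable def adm (G : SimpleGraph V) (U X : Finset V) : Finset (V × V × V) :=
  (U ×ˢ U ×ˢ U).filter fun T => T.1 ∉ X ∧ T.2.1 ∉ X ∧ T.2.2 ∉ X ∧ T.1 ≠ T.2.2 ∧
    G.Adj T.1 T.2.1 ∧ G.Adj T.2.1 T.2.2

open Classical in
theorem count (G : SimpleGraph V) (U X : Finset V) (ε : ℝ) (hε : 0 < ε)
    (hdeg : ∀ v ∈ U, (1 / 2 + ε) * (U.card : ℝ) ≤ (dg G U v : ℝ))
    (hX : (X.card : ℝ) ≤ ε / 2 * (U.card : ℝ)) (hn : 2 ≤ ε * (U.card : ℝ)) {v u u' : V}
    (hv : v ∈ U) (hu : u ∈ U) (hu' : u' ∈ U) :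
    (ε * (U.card : ℝ)) ^ 3 ≤
      (((adm G U X).filter fun T => gd G v u u' T.1 T.2.1 T.2.2).card : ℝ) := by
  set Y := U.filter fun w => w ∉ X ∧ G.Adj u w ∧ G.Adj u' w with hY
  set Xs : V → Finset V := fun y => U.filter fun w => w ∉ X ∧ G.Adj v w ∧ G.Adj y w with hXs
  set S : Finset (V × V × V) := Y.biUnion fun y => (Xs y).biUnion fun x =>
    ((Xs y).erase x).image fun z => (x, y, z) with hS
  have hSc : S.card = ∑ y ∈ Y, ∑ x ∈ Xs y, ((Xs y).erase x).card := by
    rw [hS, card_biUnion]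
    · refine sum_congr rfl fun y _ => ?_
      rw [card_biUnion]
      · refine sum_congr rfl fun x _ => ?_
        rw [card_image_of_injective]
        intro z z' h
        simpa using h
      · intro x _ x' _ hne
        rw [Function.onFun, disjoint_left]
        intro T hT hT'
        rw [mem_image] at hT hT'
        obtain ⟨z, _, rfl⟩ := hT
        obtain ⟨z', _, h⟩ := hT'
        simp only [Prod.mk.injEq] at h
        exact hne h.1.symm
    · intro y _ y' _ hne
      rw [Function.onFun, disjoint_left]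
      intro T hT hT'
      rw [mem_biUnion] at hT hT'
      obtain ⟨x, _, hT⟩ := hT
      obtain ⟨x', _, hT'⟩ := hT'
      rw [mem_image] at hT hT'
      obtain ⟨z, _, rfl⟩ := hT
      obtain ⟨z', _, h⟩ := hT'
      simp only [Prod.mk.injEq] at h
      exact hne h.2.1.symm
  have hsub : S ⊆ (adm G U X).filter fun T => gd G v u u' T.1 T.2.1 T.2.2 := by
    intro T hT
    rw [hS, mem_biUnion] at hT
    obtain ⟨y, hy, hT⟩ := hT
    rw [mem_biUnion] at hT
    obtain ⟨x, hx, hT⟩ := hT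
    rw [mem_image] at hT
    obtain ⟨z, hz, rfl⟩ := hT
    rw [mem_erase] at hz
    obtain ⟨hzx, hz⟩ := hz
    rw [hY, mem_filter] at hy
    rw [hXs, mem_filter] at hx hz
    rw [mem_filter, adm, mem_filter, mem_product, mem_product]
    exact ⟨⟨⟨hx.1, hy.1, hz.1⟩, hx.2.1, hy.2.1, hz.2.1, fun h => hzx h.symm, hx.2.2.2.symm,
      hz.2.2.2⟩, hx.2.2.1, hz.2.2.1, hy.2.2.1, hy.2.2.2⟩
  have hle : (S.card : ℝ) ≤ (((adm G U X).filter fun T => gd G v u u' T.1 T.2.1 T.2.2).card : ℝ) := by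
    exact_mod_cast card_le_card hsub
  refine le_trans ?_ hle
  rw [hSc]
  push_cast
  have e0 : 0 ≤ ε * (U.card : ℝ) := by positivity
  have hYc : ε * (U.card : ℝ) ≤ (Y.card : ℝ) := by
    have := common G U X ε hdeg hX hu hu'
    rw [← hY] at this
    nlinarith
  have hin : ∀ y ∈ Y, (ε * (U.card : ℝ)) ^ 2 ≤ ∑ x ∈ Xs y, (((Xs y).erase x).card : ℝ) := by
    intro y hy
    rw [hY, mem_filter] at hy
    have h1 := common G U X ε hdeg hX hv hy.1
    have h2 : (Xs y).card = (U.filter fun w => w ∉ X ∧ G.Adj v w ∧ G.Adj y w).card := rfl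
    rw [← h2] at h1
    have h3 : ∀ x ∈ Xs y, ε * (U.card : ℝ) ≤ (((Xs y).erase x).card : ℝ) := by
      intro x hx
      rw [card_erase_of_mem hx, Nat.cast_sub (card_pos.2 ⟨x, hx⟩)]
      push_cast
      linarith
    calc (ε * (U.card : ℝ)) ^ 2 = ε * (U.card : ℝ) * (ε * (U.card : ℝ)) := by ring
      _ ≤ ((Xs y).card : ℝ) * (ε * (U.card : ℝ)) := by
          refine mul_le_mul_of_nonneg_right ?_ e0
          linarith
      _ = ∑ x ∈ Xs y, ε * (U.card : ℝ) := by rw [sum_const, nsmul_eq_mul]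
      _ ≤ _ := sum_le_sum h3
  calc (ε * (U.card : ℝ)) ^ 3 = ε * (U.card : ℝ) * (ε * (U.card : ℝ)) ^ 2 := by ring
    _ ≤ (Y.card : ℝ) * (ε * (U.card : ℝ)) ^ 2 := mul_le_mul_of_nonneg_right hYc (by positivity)
    _ = ∑ y ∈ Y, (ε * (U.card : ℝ)) ^ 2 := by rw [sum_const, nsmul_eq_mul]
    _ ≤ _ := sum_le_sum hin

theorem adm_card (G : SimpleGraph V) (U X : Finset V) :
    ((adm G U X).card : ℝ) ≤ (U.card : ℝ) ^ 3 := by
  classical
  have h1 : (adm G U X).card ≤ U.card * (U.card * U.card) := by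
    unfold adm
    refine (card_filter_le _ _).trans ?_
    rw [card_product, card_product]
  calc ((adm G U X).card : ℝ) ≤ ((U.card * (U.card * U.card) : ℕ) : ℝ) := by exact_mod_cast h1
    _ = _ := by push_cast; ring

open Classical in
/-- one step: some admissible triple decreases the potential -/
theorem exists_step (G : SimpleGraph V) (U X : Finset V) (ε : ℝ) (hε : 0 < ε)
    (hdeg : ∀ v ∈ U, (1 / 2 + ε) * (U.card : ℝ) ≤ (dg G U v : ℝ))
    (hX : (X.card : ℝ) ≤ ε / 2 * (U.card : ℝ)) (hn : 2 ≤ ε * (U.card : ℝ))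
    (w : V × V × V → ℝ) (hw : ∀ τ, 0 ≤ w τ) :
    ∃ T ∈ adm G U X, ∑ τ ∈ U ×ˢ U ×ˢ U,
        w τ * (if gd G τ.1 τ.2.1 τ.2.2 T.1 T.2.1 T.2.2 then 1 / 2 else 1) ≤
      (1 - ε ^ 3 / 2) * ∑ τ ∈ U ×ˢ U ×ˢ U, w τ := by
  have hU : U.Nonempty := by
    by_contra h
    rw [not_nonempty_iff_eq_empty] at h
    rw [h] at hn
    simp at hn
    linarith
  have hne : (adm G U X).Nonempty := by
    obtain ⟨v, hv⟩ := hU
    have h1 := count G U X ε hε hdeg hX hn hv hv hv
    have h2 : (0 : ℝ) < (ε * (U.card : ℝ)) ^ 3 := by positivity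
    have h3 : (0 : ℝ) < (((adm G U X).filter fun T => gd G v v v T.1 T.2.1 T.2.2).card : ℝ) :=
      lt_of_lt_of_le h2 h1
    have h4 : 0 < ((adm G U X).filter fun T => gd G v v v T.1 T.2.1 T.2.2).card := by
      exact_mod_cast h3
    exact (card_pos.1 h4).mono (filter_subset _ _)
  refine exists_le_of_sum_le hne ?_
  rw [sum_comm, sum_const, nsmul_eq_mul]
  have hpt : ∀ τ ∈ U ×ˢ U ×ˢ U, ∑ T ∈ adm G U X,
      w τ * (if gd G τ.1 τ.2.1 τ.2.2 T.1 T.2.1 T.2.2 then 1 / 2 else 1) ≤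
      w τ * ((adm G U X).card * (1 - ε ^ 3 / 2)) := by
    intro τ hτ
    rw [mem_product, mem_product] at hτ
    rw [← mul_sum]
    refine mul_le_mul_of_nonneg_left ?_ (hw τ)
    have h1 := count G U X ε hε hdeg hX hn hτ.1 hτ.2.1 hτ.2.2
    have h2 := adm_card G U X
    have h3 : ∑ T ∈ adm G U X, (if gd G τ.1 τ.2.1 τ.2.2 T.1 T.2.1 T.2.2 then (1 / 2 : ℝ) else 1) =
        (adm G U X).card - 1 / 2 *
          ((adm G U X).filter fun T => gd G τ.1 τ.2.1 τ.2.2 T.1 T.2.1 T.2.2).card := by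
      have h4 : ∀ T ∈ adm G U X, (if gd G τ.1 τ.2.1 τ.2.2 T.1 T.2.1 T.2.2 then (1 / 2 : ℝ) else 1) =
          1 - 1 / 2 * (if gd G τ.1 τ.2.1 τ.2.2 T.1 T.2.1 T.2.2 then 1 else 0) := by
        intro T _
        split_ifs <;> norm_num
      rw [sum_congr rfl h4, sum_sub_distrib, ← mul_sum, sum_boole]
      simp
    rw [h3]
    have h5 : ε ^ 3 * ((adm G U X).card : ℝ) ≤ (ε * (U.card : ℝ)) ^ 3 := by
      rw [mul_pow]
      exact mul_le_mul_of_nonneg_left h2 (by positivity)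
    nlinarith
  refine (sum_le_sum hpt).trans (le_of_eq ?_)
  rw [← sum_mul]
  ring

open Classical in
/-- number of good triples -/
noncomputable def cnt (G : SimpleGraph V) (t : ℕ → V) (m : ℕ) (τ : V × V × V) : ℕ :=
  ((range m).filter fun i => gd G τ.1 τ.2.1 τ.2.2 (t (3 * i)) (t (3 * i + 1)) (t (3 * i + 2))).card

theorem exists_seq (G : SimpleGraph V) (U : Finset V) (ε : ℝ) (hε : 0 < ε)
    (hdeg : ∀ v ∈ U, (1 / 2 + ε) * (U.card : ℝ) ≤ (dg G U v : ℝ))
    (hn : 2 ≤ ε * (U.card : ℝ)) (N : ℕ) (hN : 3 * (N : ℝ) ≤ ε / 2 * (U.card : ℝ)) :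
    ∀ m ≤ N, ∃ t : ℕ → V, (∀ i < 3 * m, t i ∈ U) ∧
      (∀ i < 3 * m, ∀ j < 3 * m, t i = t j → i = j) ∧
      (∀ i < m, G.Adj (t (3 * i)) (t (3 * i + 1)) ∧ G.Adj (t (3 * i + 1)) (t (3 * i + 2))) ∧
      ∑ τ ∈ U ×ˢ U ×ˢ U, (1 / 2 : ℝ) ^ cnt G t m τ ≤ (1 - ε ^ 3 / 2) ^ m * (U.card : ℝ) ^ 3 := by
  classical
  intro m
  induction m with
  | zero =>
    intro _
    have hU : U.Nonempty := by
      by_contra h
      rw [not_nonempty_iff_eq_empty] at h
      rw [h] at hn
      simp at hn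
      linarith
    obtain ⟨v, hv⟩ := hU
    refine ⟨fun _ => v, fun i hi => by omega, fun i hi => by omega, fun i hi => by omega, ?_⟩
    have : ∀ τ ∈ U ×ˢ U ×ˢ U, (1 / 2 : ℝ) ^ cnt G (fun _ => v) 0 τ = 1 := by
      intro τ _
      simp [cnt]
    rw [sum_congr rfl this, sum_const, card_product, card_product]
    simp only [nsmul_eq_mul, mul_one, pow_zero, one_mul]
    push_cast
    exact le_of_eq (by ring)
  | succ m ih =>
    intro hm
    obtain ⟨t, ht1, ht2, ht3, ht4⟩ := ih (by omega)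
    set X := (range (3 * m)).image t with hX
    have hXc : (X.card : ℝ) ≤ ε / 2 * (U.card : ℝ) := by
      have h1 : X.card ≤ 3 * m := card_image_le.trans (by simp)
      have h2 : 3 * m ≤ 3 * N := by omega
      have h3 : (X.card : ℝ) ≤ 3 * (N : ℝ) := by exact_mod_cast h1.trans h2
      linarith
    obtain ⟨T, hT, hle⟩ := exists_step G U X ε hε hdeg hXc hn
      (fun τ => (1 / 2 : ℝ) ^ cnt G t m τ) (fun τ => by positivity)
    obtain ⟨x, y, z⟩ := T
    unfold adm at hT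
    rw [mem_filter, mem_product, mem_product] at hT
    obtain ⟨⟨hxU, hyU, hzU⟩, hxX, hyX, hzX, hxz, hxy, hyz⟩ := hT
    simp only at hxU hyU hzU hxX hyX hzX hxz hxy hyz hle
    have hnX : ∀ i < 3 * m, ∀ w, w ∉ X → t i ≠ w := by
      intro i hi w hw h
      exact hw (mem_image.2 ⟨i, mem_range.2 hi, h⟩)
    set t' : ℕ → V := fun i => if i = 3 * m then x else if i = 3 * m + 1 then y else
      if i = 3 * m + 2 then z else t i with ht'
    have e0 : t' (3 * m) = x := by simp [ht']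
    have e1 : t' (3 * m + 1) = y := by simp [ht']
    have e2 : t' (3 * m + 2) = z := by simp [ht']
    have e3 : ∀ i < 3 * m, t' i = t i := by
      intro i hi
      simp only [ht']
      rw [if_neg (by omega), if_neg (by omega), if_neg (by omega)]
    have hcase : ∀ i < 3 * (m + 1), i < 3 * m ∨ i = 3 * m ∨ i = 3 * m + 1 ∨ i = 3 * m + 2 := by
      intro i hi; omega
    refine ⟨t', ?_, ?_, ?_, ?_⟩
    · intro i hi
      rcases hcase i hi with h | rfl | rfl | rfl
      · rw [e3 i h]; exact ht1 i h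
      · rw [e0]; exact hxU
      · rw [e1]; exact hyU
      · rw [e2]; exact hzU
    · intro i hi j hj hij
      rcases hcase i hi with h | rfl | rfl | rfl <;> rcases hcase j hj with h' | rfl | rfl | rfl
      · rw [e3 i h, e3 j h'] at hij; exact ht2 i h j h' hij
      · rw [e3 i h, e0] at hij; exact absurd hij (hnX i h x hxX)
      · rw [e3 i h, e1] at hij; exact absurd hij (hnX i h y hyX)
      · rw [e3 i h, e2] at hij; exact absurd hij (hnX i h z hzX)
      · rw [e3 j h', e0] at hij; exact absurd hij.symm (hnX j h' x hxX)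
      · rfl
      · rw [e0, e1] at hij; exact absurd hij hxy.ne
      · rw [e0, e2] at hij; exact absurd hij hxz
      · rw [e3 j h', e1] at hij; exact absurd hij.symm (hnX j h' y hyX)
      · rw [e0, e1] at hij; exact absurd hij.symm hxy.ne
      · rfl
      · rw [e1, e2] at hij; exact absurd hij hyz.ne
      · rw [e3 j h', e2] at hij; exact absurd hij.symm (hnX j h' z hzX)
      · rw [e0, e2] at hij; exact absurd hij.symm hxz
      · rw [e1, e2] at hij; exact absurd hij.symm hyz.ne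
      · rfl
    · intro i hi
      rcases Nat.lt_succ_iff_lt_or_eq.1 hi with h | rfl
      · rw [e3 _ (by omega), e3 _ (by omega), e3 _ (by omega)]
        exact ht3 i h
      · rw [e0, e1, e2]
        exact ⟨hxy, hyz⟩
    · have hcnt : ∀ τ : V × V × V, (1 / 2 : ℝ) ^ cnt G t' (m + 1) τ = (1 / 2 : ℝ) ^ cnt G t m τ *
          (if gd G τ.1 τ.2.1 τ.2.2 x y z then 1 / 2 else 1) := by
        intro τ
        have h1 : cnt G t' (m + 1) τ = cnt G t m τ +
            (if gd G τ.1 τ.2.1 τ.2.2 x y z then 1 else 0) := by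
          unfold cnt
          rw [range_add_one, filter_insert, e0, e1, e2]
          have h2 : (range m).filter (fun i => gd G τ.1 τ.2.1 τ.2.2 (t' (3 * i)) (t' (3 * i + 1))
              (t' (3 * i + 2))) = (range m).filter (fun i => gd G τ.1 τ.2.1 τ.2.2 (t (3 * i))
              (t (3 * i + 1)) (t (3 * i + 2))) := by
            refine filter_congr fun i hi => ?_
            rw [mem_range] at hi
            rw [e3 _ (by omega), e3 _ (by omega), e3 _ (by omega)]
          rw [h2]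
          split_ifs with h
          · rw [card_insert_of_notMem]
            simp
          · rfl
        rw [h1, pow_add]
        split_ifs with h
        · simp
        · simp
      rw [sum_congr rfl fun τ _ => hcnt τ]
      refine hle.trans ?_
      have h5 : (0 : ℝ) ≤ 1 - ε ^ 3 / 2 := by
        have hU : U.Nonempty := ⟨x, hxU⟩
        have h6 := hdeg x hxU
        have h7 : (dg G U x : ℝ) ≤ U.card := by exact_mod_cast dg_le U x
        have h8 : (0 : ℝ) < U.card := by exact_mod_cast card_pos.2 hU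
        have h9 : ε ≤ 1 / 2 := by
          by_contra hlt
          push Not at hlt
          nlinarith
        have h10 : ε ^ 3 ≤ 1 := pow_le_one₀ hε.le (by linarith)
        linarith
      calc (1 - ε ^ 3 / 2) * ∑ τ ∈ U ×ˢ U ×ˢ U, (1 / 2 : ℝ) ^ cnt G t m τ
          ≤ (1 - ε ^ 3 / 2) * ((1 - ε ^ 3 / 2) ^ m * (U.card : ℝ) ^ 3) :=
            mul_le_mul_of_nonneg_left ht4 h5
        _ = _ := by rw [pow_succ]; ring

end Trip

open Trip

/-- ROW TRIP -/
theorem triples (ε : ℝ) (hε : 0 < ε) : ∃ c : ℝ, 0 < c ∧ ∀ ρ : ℝ, 0 < ρ → ∃ n₀ : ℕ,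
    ∀ {V : Type u} [DecidableEq V] (G : SimpleGraph V) (U : Finset V), n₀ ≤ U.card →
      (∀ v ∈ U, (1 / 2 + ε) * (U.card : ℝ) ≤ (dg G U v : ℝ)) →
      ∀ N : ℕ, ρ * (U.card : ℝ) ≤ (N : ℝ) → 3 * (N : ℝ) ≤ ε / 2 * (U.card : ℝ) →
      ∃ t : ℕ → V, (∀ i < 3 * N, t i ∈ U) ∧ (∀ i < 3 * N, ∀ j < 3 * N, t i = t j → i = j) ∧
        (∀ i < N, G.Adj (t (3 * i)) (t (3 * i + 1)) ∧ G.Adj (t (3 * i + 1)) (t (3 * i + 2))) ∧
        ∀ v ∈ U, ∀ u ∈ U, ∀ u' ∈ U, ∃ I : Finset ℕ, I ⊆ Finset.range N ∧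
          c * (N : ℝ) ≤ (I.card : ℝ) ∧ ∀ i ∈ I, G.Adj v (t (3 * i)) ∧ G.Adj v (t (3 * i + 2)) ∧
            G.Adj u (t (3 * i + 1)) ∧ G.Adj u' (t (3 * i + 1)) := by
  classical
  refine ⟨ε ^ 3 / 4, by positivity, fun ρ hρ => ?_⟩
  obtain ⟨n1, hn1⟩ := exists_nat_ge (2 / ε)
  obtain ⟨n2, hn2⟩ := exists_nat_ge ((24 / (ε ^ 3 * ρ)) ^ 2)
  refine ⟨max (max n1 n2) 1, ?_⟩
  intro V _ G U hU hdeg N hN1 hN2
  have hU1 : n1 ≤ U.card := (le_max_left _ _).trans ((le_max_left _ _).trans hU)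
  have hU2 : n2 ≤ U.card := (le_max_right _ _).trans ((le_max_left _ _).trans hU)
  have hU3 : 1 ≤ U.card := (le_max_right _ _).trans hU
  have hc0 : (0 : ℝ) < (U.card : ℝ) := by exact_mod_cast hU3
  have hn : 2 ≤ ε * (U.card : ℝ) := by
    have h1 : 2 / ε ≤ (U.card : ℝ) := hn1.trans (by exact_mod_cast hU1)
    rw [div_le_iff₀ hε] at h1
    linarith
  obtain ⟨t, ht1, ht2, ht3, ht4⟩ := exists_seq G U ε hε hdeg hn N hN2 N le_rfl
  refine ⟨t, ht1, ht2, ht3, fun v hv u hu u' hu' => ?_⟩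
  refine ⟨(range N).filter fun i => gd G v u u' (t (3 * i)) (t (3 * i + 1)) (t (3 * i + 2)),
    filter_subset _ _, ?_, ?_⟩
  · set k := ((range N).filter fun i => gd G v u u' (t (3 * i)) (t (3 * i + 1))
      (t (3 * i + 2))).card with hk
    have h1 : (1 / 2 : ℝ) ^ k ≤ (1 - ε ^ 3 / 2) ^ N * (U.card : ℝ) ^ 3 := by
      have hmem : (v, u, u') ∈ U ×ˢ U ×ˢ U := by
        rw [mem_product, mem_product]; exact ⟨hv, hu, hu'⟩
      have h2 : (1 / 2 : ℝ) ^ cnt G t N (v, u, u') ≤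
          ∑ τ ∈ U ×ˢ U ×ˢ U, (1 / 2 : ℝ) ^ cnt G t N τ :=
        single_le_sum (f := fun τ => (1 / 2 : ℝ) ^ cnt G t N τ) (fun τ _ => by positivity) hmem
      have h3 : cnt G t N (v, u, u') = k := by rw [hk]; rfl
      rw [h3] at h2
      exact h2.trans ht4
    have h2 : Real.exp (-(k : ℝ)) ≤ (1 / 2 : ℝ) ^ k := by
      have h3 : Real.exp (-(k : ℝ)) = (Real.exp (-1)) ^ k := by
        rw [← Real.exp_nat_mul]; congr 1; ring
      rw [h3]
      refine pow_le_pow_left₀ (Real.exp_pos _).le ?_ k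
      rw [Real.exp_neg, one_div]
      refine inv_anti₀ (by norm_num) ?_
      have := Real.add_one_le_exp (1 : ℝ)
      linarith
    have h3 : (1 - ε ^ 3 / 2) ^ N ≤ Real.exp (-(ε ^ 3 / 2 * N)) := by
      have h4 : Real.exp (-(ε ^ 3 / 2 * N)) = (Real.exp (-(ε ^ 3 / 2))) ^ N := by
        rw [← Real.exp_nat_mul]; congr 1; ring
      rw [h4]
      refine pow_le_pow_left₀ ?_ (Real.one_sub_le_exp_neg _) N
      have h6 := hdeg v hv
      have h7 : (dg G U v : ℝ) ≤ U.card := by exact_mod_cast dg_le U v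
      have h9 : ε ≤ 1 / 2 := by
        by_contra hlt
        push Not at hlt
        nlinarith
      have h10 : ε ^ 3 ≤ 1 := pow_le_one₀ hε.le (by linarith)
      linarith
    have h4 : (U.card : ℝ) ^ 3 = Real.exp (3 * Real.log U.card) := by
      have : (3 : ℝ) * Real.log U.card = ((3 : ℕ) : ℝ) * Real.log U.card := by norm_num
      rw [this, Real.exp_nat_mul, Real.exp_log hc0]
    have h5 : Real.exp (-(k : ℝ)) ≤ Real.exp (-(ε ^ 3 / 2 * N) + 3 * Real.log U.card) := by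
      rw [Real.exp_add, ← h4]
      exact h2.trans (h1.trans (mul_le_mul_of_nonneg_right h3 (by positivity)))
    rw [Real.exp_le_exp] at h5
    have h6 : 3 * Real.log U.card ≤ ε ^ 3 / 4 * N := by
      have hs : Real.log U.card ≤ 2 * Real.sqrt U.card := by
        have hs0 : 0 < Real.sqrt U.card := Real.sqrt_pos.2 hc0
        have h7 : Real.log U.card = 2 * Real.log (Real.sqrt U.card) := by
          rw [Real.log_sqrt hc0.le]; ring
        rw [h7]
        have := Real.log_le_sub_one_of_pos hs0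
        linarith
      have hpos : 0 < ε ^ 3 * ρ := by positivity
      have h8 : 24 / (ε ^ 3 * ρ) ≤ Real.sqrt U.card := by
        refine Real.le_sqrt_of_sq_le ?_
        exact hn2.trans (by exact_mod_cast hU2)
      rw [div_le_iff₀ hpos] at h8
      have h9 : Real.sqrt U.card * Real.sqrt U.card = U.card := Real.mul_self_sqrt hc0.le
      have h10 : 24 * Real.sqrt U.card ≤ ε ^ 3 * ρ * U.card := by
        have := mul_le_mul_of_nonneg_right h8 (Real.sqrt_nonneg (U.card : ℝ))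
        nlinarith
      have h11 : ε ^ 3 * (ρ * U.card) ≤ ε ^ 3 * N :=
        mul_le_mul_of_nonneg_left hN1 (by positivity)
      nlinarith
    linarith
  · intro i hi
    rw [mem_filter] at hi
    obtain ⟨_, h1, h2, h3, h4⟩ := hi
    exact ⟨h1, h2, h3, h4⟩

end Pool.Agent.LCK
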