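import Pool.Agent.LCK.RegA
import Pool.Agent.LCK.Trip
import Pool.Agent.LCK.Conn
import Pool.Agent.LCK.Abs

set_option linter.all false

namespace Pool.Agent.LCK

open Pool.Agent.Helper14.LongCyc

universe u

/-- two vertices of large degree have many common neighbours -/
theorem regP_rich {V : Type u} [DecidableEq V] {G : SimpleGraph V} {U : Finset V} {u v : V} {M : ℕ}
    (h : M + U.card ≤ dg G U u + dg G U v) : Rich G U M u v := by
  classical
  unfold Rich
  have h1 : dg G U u = (U.filter fun z => G.Adj u z).card := dg_eq_card U u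
  have h2 : dg G U v = (U.filter fun z => G.Adj v z).card := dg_eq_card U v
  have h3 := Finset.card_union_add_card_inter (U.filter fun z => G.Adj u z)
    (U.filter fun z => G.Adj v z)
  have h4 : ((U.filter fun z => G.Adj u z) ∪ (U.filter fun z => G.Adj v z)).card ≤ U.card := by
    apply Finset.card_le_card
    intro x hx
    rcases Finset.mem_union.1 hx with hx | hx
    · exact (Finset.mem_filter.1 hx).1
    · exact (Finset.mem_filter.1 hx).1
  have h5 : (U.filter fun z => G.Adj u z) ∩ (U.filter fun z => G.Adj v z)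
      = U.filter fun z => G.Adj u z ∧ G.Adj v z := by
    ext x
    simp only [Finset.mem_inter, Finset.mem_filter]
    tauto
  rw [h5] at h3
  omega

theorem regP_main (ε : ℝ) (hε : 0 < ε) (hε1 : ε ≤ 1) : ∃ η : ℝ, 0 < η ∧ ∃ K : ℕ,
    ∀ {V : Type u} [DecidableEq V] (G : SimpleGraph V) (U : Finset V) (k r : ℕ),
      K ≤ k → 4 ≤ r → k * r ≤ U.card → (U.card : ℝ) ≤ (1 + η) * (k : ℝ) * (r : ℝ) →
      (∀ v ∈ U, (1 + ε) * (k : ℝ) * (((r + 1) / 2 : ℕ) : ℝ) ≤ (dg G U v : ℝ)) →
      ∃ F, Fam G U (fun L => L = r) F ∧ F.card = k := by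
  classical
  obtain ⟨η1, hη1, M1, K1, hA⟩ := regA_exact.{u} (ε / 2) (by positivity)
  obtain ⟨c, hc, hT⟩ := triples.{u} (ε / 16) (by positivity)
  have hρ : 0 < ε / 200 := by positivity
  obtain ⟨n0, hT⟩ := hT (ε / 200) hρ
  set ρ : ℝ := ε / 200 with hρdef
  have hη : 0 < min (η1 / 4) (ε / 4) := by positivity
  set η : ℝ := min (η1 / 4) (ε / 4) with hηdef
  have hηa : η ≤ η1 / 4 := min_le_left _ _
  have hηb : η ≤ ε / 4 := min_le_right _ _
  clear_value ρ η
  obtain ⟨k1, hk1⟩ := exists_nat_ge (1 / ρ)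
  obtain ⟨k2, hk2⟩ := exists_nat_ge ((1 + η1) * M1 / (η1 / 2))
  obtain ⟨k3, hk3⟩ := exists_nat_ge (M1 / (c * ρ))
  refine ⟨η, hη, max (max k1 k2) (max k3 (max n0 (2 * (M1 + K1)))), ?_⟩
  intro V _ G U k r hk hr hU hU2 hdeg
  have hkk1 : k1 ≤ k := (le_max_left _ _).trans ((le_max_left _ _).trans hk)
  have hkk2 : k2 ≤ k := (le_max_right _ _).trans ((le_max_left _ _).trans hk)
  have hkk3 : k3 ≤ k := (le_max_left _ _).trans ((le_max_right _ _).trans hk)
  have hkk4 : n0 ≤ k := (le_max_left _ _).trans ((le_max_right _ _).trans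
    ((le_max_right _ _).trans hk))
  have hkk5 : 2 * (M1 + K1) ≤ k := (le_max_right _ _).trans ((le_max_right _ _).trans
    ((le_max_right _ _).trans hk))
  have e1 : 1 ≤ ρ * k := by
    have : 1 / ρ ≤ (k : ℝ) := hk1.trans (by exact_mod_cast hkk1)
    rw [div_le_iff₀ hρ] at this
    linarith only [this]
  have e2 : (1 + η1) * M1 ≤ η1 / 2 * k := by
    have : (1 + η1) * M1 / (η1 / 2) ≤ (k : ℝ) := hk2.trans (by exact_mod_cast hkk2)
    rw [div_le_iff₀ (by positivity)] at this
    linarith only [this]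
  have e3 : (M1 : ℝ) ≤ c * ρ * k := by
    have : M1 / (c * ρ) ≤ (k : ℝ) := hk3.trans (by exact_mod_cast hkk3)
    rw [div_le_iff₀ (by positivity)] at this
    linarith only [this]
  -- sizes
  have hr4 : (4 : ℝ) ≤ r := by exact_mod_cast hr
  have hk0 : (0 : ℝ) ≤ k := Nat.cast_nonneg k
  set n : ℕ := U.card with hn
  have hUr : (k : ℝ) * r ≤ n := by exact_mod_cast hU
  have hn0 : n0 ≤ n := by
    have : k * 1 ≤ k * r := Nat.mul_le_mul_left k (by omega)
    omega
  have ha : (r : ℝ) ≤ 2 * (((r + 1) / 2 : ℕ) : ℝ) := by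
    have : r ≤ 2 * ((r + 1) / 2) := by omega
    exact_mod_cast this
  set a : ℕ := (r + 1) / 2 with hadef
  have ha0 : (0 : ℝ) ≤ a := Nat.cast_nonneg a
  -- q and m
  have hq1 : 1 ≤ r / 4 := by omega
  have hq4 : 4 * (r / 4) ≤ r := by omega
  have hq7 : r ≤ 7 * (r / 4) := by omega
  set q : ℕ := r / 4 with hq
  clear_value q
  have hqpos : (0 : ℝ) < q := by exact_mod_cast hq1
  have hq4' : 4 * (q : ℝ) ≤ r := by exact_mod_cast hq4
  have hq7' : (r : ℝ) ≤ 7 * q := by exact_mod_cast hq7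
  set m : ℕ := ⌈ρ * n / q⌉₊ with hm
  have hnn : (0 : ℝ) ≤ n := Nat.cast_nonneg n
  have hm1 : ρ * n ≤ m * q := by
    have h1 := Nat.le_ceil (ρ * n / q)
    rw [div_le_iff₀ hqpos] at h1
    exact h1
  have hm2 : (m : ℝ) * q < ρ * n + q := by
    have h1 := Nat.ceil_lt_add_one (show 0 ≤ ρ * n / q by positivity)
    have h2 : (m : ℝ) * q < (ρ * n / q + 1) * q := by
      apply mul_lt_mul_of_pos_right _ hqpos
      exact h1
    have h3 : (ρ * n / q + 1) * q = ρ * n + q := by
      field_simp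
    linarith only [h2, h3]
  clear_value m
  have hqn : (q : ℝ) ≤ ρ * n := by
    have h1 : 1 * (r : ℝ) ≤ (ρ * k) * r := mul_le_mul_of_nonneg_right e1 (Nat.cast_nonneg r)
    have h2 : ρ * (k * r) ≤ ρ * n := mul_le_mul_of_nonneg_left hUr hρ.le
    have h3 : (ρ * k) * r = ρ * (k * r) := by ring
    linarith only [h1, h2, h3, hq4', hqpos]
  have hm3 : (m : ℝ) * q ≤ 2 * ρ * n := by linarith only [hm2, hqn]
  have hn2 : (n : ℝ) ≤ 2 * k * r := by
    have hη1' : η ≤ 1 := by linarith only [hηb, hε1]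
    have h0 : (0 : ℝ) ≤ (k : ℝ) * r := by positivity
    have h1 : (1 + η) * ((k : ℝ) * (r : ℝ)) ≤ 2 * (k * r) :=
      mul_le_mul_of_nonneg_right (by linarith only [hη1']) h0
    have h2 : (1 + η) * ((k : ℝ) * (r : ℝ)) = (1 + η) * (k : ℝ) * (r : ℝ) := by ring
    have h3 : 2 * ((k : ℝ) * r) = 2 * k * r := by ring
    linarith only [h1, h2, h3, hU2]
  have hmk : (m : ℝ) ≤ 28 * ρ * k := by
    have h1 : (m : ℝ) * q ≤ 28 * ρ * k * q := by
      have h2 : 2 * ρ * n ≤ 2 * ρ * (2 * k * r) := by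
        apply mul_le_mul_of_nonneg_left hn2 (by positivity)
      have h3 : 2 * ρ * (2 * k * r) ≤ 2 * ρ * (2 * k * (7 * q)) := by
        apply mul_le_mul_of_nonneg_left _ (by positivity)
        apply mul_le_mul_of_nonneg_left hq7' (by positivity)
      have h4 : 2 * ρ * (2 * k * (7 * q)) = 28 * ρ * k * q := by ring
      linarith only [h2, h3, h4, hm3]
    exact le_of_mul_le_mul_right h1 hqpos
  have hρs : 200 * ρ = ε := by rw [hρdef]; ring
  have hmk4 : (m : ℝ) ≤ k / 4 := by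
    have h1 : (28 * ρ) * k ≤ (1 / 4) * k := mul_le_mul_of_nonneg_right (by linarith only [hρs, hε1]) hk0
    linarith only [h1, hmk]
  have hmr : (m : ℝ) * r ≤ ε / 2 * k * a := by
    have h1 : (m : ℝ) * r ≤ 28 * ρ * k * r := mul_le_mul_of_nonneg_right hmk (by positivity)
    have h2 : 28 * ρ * k * r ≤ 28 * ρ * k * (2 * a) :=
      mul_le_mul_of_nonneg_left ha (by positivity)
    have h3 : 28 * ρ * k * (2 * a) = (56 * ρ) * (k * a) := by ring
    have h4 : (56 * ρ) * (k * a) ≤ (ε / 2) * (k * a) := by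
      apply mul_le_mul_of_nonneg_right _ (by positivity)
      linarith only [hρs, hε]
    have h5 : (ε / 2) * (k * a) = ε / 2 * k * a := by ring
    linarith only [h1, h2, h3, h4, h5]
  have hmrn : (m : ℝ) * r ≤ 14 * ρ * n := by
    have h1 : (m : ℝ) * r ≤ m * (7 * q) := mul_le_mul_of_nonneg_left hq7' (by positivity)
    have h2 : (m : ℝ) * (7 * q) = 7 * (m * q) := by ring
    have h3 : 14 * ρ * n = 7 * (2 * ρ * n) := by ring
    linarith only [h1, h2, h3, hm3]
  -- the degree condition for the triples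
  have hdeg2 : ∀ v ∈ U, (1 / 2 + ε / 16) * (n : ℝ) ≤ (dg G U v : ℝ) := by
    intro v hv
    refine le_trans ?_ (hdeg v hv)
    have h1 : (1 / 2 + ε / 16) * (n : ℝ) ≤ (1 / 2 + ε / 16) * ((1 + η) * k * (2 * a)) := by
      apply mul_le_mul_of_nonneg_left _ (by positivity)
      refine hU2.trans ?_
      apply mul_le_mul_of_nonneg_left ha
      positivity
    have h2 : (1 / 2 + ε / 16) * ((1 + η) * k * (2 * a)) = ((1 + ε / 8) * (1 + η)) * (k * a) := by
      ring
    have h3 : (1 + ε / 8) * (1 + η) ≤ 1 + ε := by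
      have h5 : (1 + ε / 8) * (1 + η) ≤ (1 + ε / 8) * (1 + ε / 4) :=
        mul_le_mul_of_nonneg_left (by linarith only [hηb]) (by positivity)
      have h6 : ε * ε ≤ ε * 1 := mul_le_mul_of_nonneg_left hε1 hε.le
      have h7 : (1 + ε / 8) * (1 + ε / 4) = 1 + 3 * ε / 8 + (ε * ε) / 32 := by ring
      linarith only [h5, h6, h7, hε]
    have h4 : ((1 + ε / 8) * (1 + η)) * (k * a) ≤ (1 + ε) * (k * a) :=
      mul_le_mul_of_nonneg_right h3 (by positivity)
    have h5 : (1 + ε) * (k * a) = (1 + ε) * k * a := by ring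
    linarith only [h1, h2, h4, h5]
  obtain ⟨t, ht1, ht2, ht3, ht4⟩ := hT G U hn0 hdeg2 (m * q) (by push_cast; exact hm1) (by
    push_cast
    have h0 : 6 * ρ * n = 3 * (2 * ρ * n) := by ring
    have h1 : 3 * (m * q : ℝ) ≤ 6 * ρ * n := by linarith only [h0, hm3]
    have h2 : 6 * ρ * n ≤ ε / 16 / 2 * n := by
      apply mul_le_mul_of_nonneg_right _ hnn
      linarith only [hρs, hε]
    linarith only [h1, h2])
  have hcod : ∀ u ∈ U, ∀ v ∈ U, Rich G U (m * r) u v := by
    intro u hu v hv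
    apply regP_rich
    have h1 := hdeg2 u hu
    have h2 := hdeg2 v hv
    have h3 : ((m * r + n : ℕ) : ℝ) ≤ ((dg G U u + dg G U v : ℕ) : ℝ) := by
      push_cast
      have h4 : 14 * ρ * n ≤ ε / 8 * n :=
        mul_le_mul_of_nonneg_right (by linarith only [hρs, hε]) hnn
      have h5 : (1 / 2 + ε / 16) * (n : ℝ) + (1 / 2 + ε / 16) * (n : ℝ) = n + ε / 8 * n := by ring
      linarith only [h1, h2, h4, h5, hmrn]
    exact_mod_cast h3
  obtain ⟨cc, hcc, hcc2⟩ := conn G U m q r hq1 hq4 t ht1 ht2 ht3 hcod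
  -- the reservoir
  set R : Finset V := (Finset.range m ×ˢ Finset.range r).image fun p => cc p.1 p.2 with hR
  have hRcard : R.card = m * r := by
    rw [hR, Finset.card_image_of_injOn, Finset.card_product, Finset.card_range, Finset.card_range]
    intro p hp p' hp' h
    simp only [Finset.coe_product, Finset.coe_range, Set.mem_prod, Set.mem_Iio] at hp hp'
    have := hcc.inj p.1 hp.1 p.2 hp.2 p'.1 hp'.1 p'.2 hp'.2 h
    exact Prod.ext this.1 this.2
  have hRU : R ⊆ U := by
    intro x hx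
    rw [hR, Finset.mem_image] at hx
    obtain ⟨p, hp, rfl⟩ := hx
    rw [Finset.mem_product, Finset.mem_range, Finset.mem_range] at hp
    exact hcc.mem _ hp.1 _ hp.2
  have hmem : ∀ j < m, ∀ i < r, cc j i ∈ R := by
    intro j hj i hi
    rw [hR, Finset.mem_image]
    exact ⟨(j, i), by simp [hj, hi], rfl⟩
  have hmM : m + M1 ≤ k := by
    have h1 : (M1 : ℝ) ≤ k / 2 := by
      have : 2 * M1 ≤ k := by omega
      have h2 : (2 : ℝ) * M1 ≤ k := by exact_mod_cast this
      linarith only [h2]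
    have : ((m + M1 : ℕ) : ℝ) ≤ k := by push_cast; linarith only [h1, hmk4, hk0]
    exact_mod_cast this
  obtain ⟨k', hk'⟩ : ∃ k', k = k' + (m + M1) := ⟨k - (m + M1), by omega⟩
  have hk'R : (k : ℝ) = k' + (m + M1) := by rw [hk']; push_cast; ring
  have hU1 : (U \ R).card + m * r = n := by
    have := Finset.card_sdiff_add_card_eq_card hRU
    rw [hRcard] at this
    exact this
  have hU1R : ((U \ R).card : ℝ) + m * r = n := by exact_mod_cast hU1
  have c1 : K1 ≤ k' := by
    have h1 : (2 : ℝ) * (M1 + K1) ≤ k := by exact_mod_cast hkk5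
    have : (K1 : ℝ) ≤ k' := by
      have hM0 : (0 : ℝ) ≤ M1 := Nat.cast_nonneg _
      have hK0 : (0 : ℝ) ≤ K1 := Nat.cast_nonneg _
      linarith only [h1, hM0, hK0, hmk4, hk'R, hk0]
    exact_mod_cast this
  have c2 : (k' + M1) * r ≤ (U \ R).card := by
    have : (k' + M1) * r + m * r = k * r := by rw [hk']; ring
    omega
  have c3 : ((U \ R).card : ℝ) ≤ (1 + η1) * (k' : ℝ) * (r : ℝ) := by
    have h1 : ((U \ R).card : ℝ) ≤ ((1 + η) * k - m) * r := by
      have : ((1 + η) * k - m) * r = (1 + η) * k * r - m * r := by ring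
      rw [this]
      linarith only [hU1R, hU2]
    refine h1.trans ?_
    apply mul_le_mul_of_nonneg_right _ (by positivity)
    have h2 : η1 * m ≤ η1 * (k / 4) := mul_le_mul_of_nonneg_left hmk4 hη1.le
    have h3 : η * k ≤ η1 / 4 * k := mul_le_mul_of_nonneg_right hηa hk0
    have h4 : (k' : ℝ) = k - m - M1 := by linarith only [hk'R]
    rw [h4]
    have h5 : (1 + η1) * (k - m - M1 : ℝ) = k + η1 * k - m - η1 * m - (1 + η1) * M1 := by ring
    have h6 : (1 + η) * k - m = k + η * k - m := by ring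
    rw [h5, h6]
    have h7 : 0 ≤ η1 * k := mul_nonneg hη1.le hk0
    linarith only [h2, h3, e2, h7]
  have c4 : ∀ v ∈ U \ R, (1 + ε / 2) * (k' : ℝ) * (a : ℝ) ≤ (dg G (U \ R) v : ℝ) := by
    intro v hv
    have h1 := hdeg v (Finset.mem_sdiff.1 hv).1
    have h2 := dg_split (G := G) hRU v
    have h3 := dg_le (G := G) R v
    have h4 : (dg G U v : ℝ) ≤ (dg G (U \ R) v : ℝ) + m * r := by
      rw [hRcard] at h3
      have : dg G U v ≤ dg G (U \ R) v + m * r := by omega
      exact_mod_cast this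
    have h5 : (1 + ε / 2) * (k' : ℝ) * (a : ℝ) ≤ (1 + ε / 2) * (k : ℝ) * (a : ℝ) := by
      apply mul_le_mul_of_nonneg_right _ ha0
      apply mul_le_mul_of_nonneg_left _ (by positivity)
      rw [hk'R]
      have : (0 : ℝ) ≤ (m : ℝ) + M1 := by positivity
      linarith only [this]
    have h6 : (1 + ε / 2) * (k : ℝ) * (a : ℝ) = (1 + ε) * k * a - ε / 2 * k * a := by ring
    linarith only [h1, h4, h5, h6, hmr]
  obtain ⟨F1, hF1, hF1c⟩ := hA G (U \ R) k' r c1 hr c2 c3 c4
  -- the uncovered vertices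
  have htot : tot F1 = k' * r := by
    unfold tot
    rw [Finset.sum_congr rfl fun s hs => hF1.len s hs, Finset.sum_const, hF1c, smul_eq_mul]
  have hrest : M1 * r ≤ (rest (U \ R) F1).card := by
    have h1 := hF1.card_rest
    rw [htot] at h1
    have h2 : (k' + M1) * r = k' * r + M1 * r := by ring
    omega
  obtain ⟨Q, hQ1, hQ2⟩ := Finset.exists_subset_card_eq hrest
  have hQU : Q ⊆ U := hQ1.trans ((rest_subset _ _).trans Finset.sdiff_subset)
  have hQR : ∀ x ∈ Q, x ∉ R := fun x hx =>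
    (Finset.mem_sdiff.1 (rest_subset _ _ (hQ1 hx))).2
  obtain ⟨F2, hF2, hF2c⟩ := absorb G U m q r M1 hr hq4 cc hcc (by
    intro v hv u hu u' hu'
    obtain ⟨I, hI1, hI2, hI3⟩ := ht4 v hv u hu u' hu'
    refine ⟨I.image fun i => (i / q, i % q), ?_, ?_, ?_⟩
    · intro p hp
      rw [Finset.mem_image] at hp
      obtain ⟨i, hi, rfl⟩ := hp
      have hi2 := Finset.mem_range.1 (hI1 hi)
      rw [Finset.mem_product, Finset.mem_range, Finset.mem_range]
      refine ⟨?_, Nat.mod_lt _ hq1⟩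
      rw [Nat.div_lt_iff_lt_mul hq1]
      exact hi2
    · rw [Finset.card_image_of_injective]
      · have h1 : ((M1 * r : ℕ) : ℝ) ≤ (I.card : ℝ) := by
          refine le_trans ?_ hI2
          push_cast
          have h2 : (M1 : ℝ) * r ≤ c * ρ * k * r := mul_le_mul_of_nonneg_right e3 (by positivity)
          have h3 : c * ρ * k * r = c * (ρ * (k * r)) := by ring
          have h4 : c * (ρ * (k * r)) ≤ c * (ρ * n) := by
            apply mul_le_mul_of_nonneg_left _ hc.le
            exact mul_le_mul_of_nonneg_left hUr hρ.le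
          have h5 : c * (ρ * n) ≤ c * (m * q) := mul_le_mul_of_nonneg_left hm1 hc.le
          linarith only [h2, h3, h4, h5]
        exact_mod_cast h1
      · intro i j h
        simp only [Prod.mk.injEq] at h
        rw [← Nat.div_add_mod i q, ← Nat.div_add_mod j q, h.1, h.2]
    · intro p hp
      rw [Finset.mem_image] at hp
      obtain ⟨i, hi, rfl⟩ := hp
      have hi2 := Finset.mem_range.1 (hI1 hi)
      have hj : i / q < m := by
        rw [Nat.div_lt_iff_lt_mul hq1]
        exact hi2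
      have hl : i % q < q := Nat.mod_lt _ hq1
      obtain ⟨h1, h2, h3⟩ := hcc2 (i / q) hj (i % q) hl
      have h4 : i / q * q + i % q = i := by
        rw [mul_comm]; exact Nat.div_add_mod i q
      rw [h4] at h1 h2 h3
      simp only
      rw [h1, h2, h3]
      obtain ⟨g1, g2, g3, g4⟩ := hI3 i hi
      exact ⟨g1, g2, g3, g4⟩) Q hQU (fun j hj i hi hx => hQR _ hx (hmem j hj i hi)) hQ2
  -- the union
  have hF1U : Fam G U (fun L => L = r) F1 := hF1.mono Finset.sdiff_subset fun _ h => h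
  have hB : Fam G ((∅ : Finset (Finset V)).biUnion id ∪ rest U F1) (fun L => L = r) F2 := by
    refine hF2.mono ?_ fun _ h => h
    intro x hx
    rw [Finset.mem_union]
    right
    rw [mem_rest]
    rcases Finset.mem_union.1 hx with hx | hx
    · exact ⟨hQU hx, (mem_rest.1 (hQ1 hx)).2⟩
    · refine ⟨hRU hx, fun s hs hxs => ?_⟩
      exact (Finset.mem_sdiff.1 (hF1.sub s hs hxs)).2 hx
  obtain ⟨g1, g2, g3⟩ := hF1U.swap (Finset.empty_subset F1) hB
  refine ⟨_, g1, ?_⟩
  rw [Finset.card_union_of_disjoint g2, Finset.sdiff_empty, hF1c, hF2c, hk']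

/-- ROW REGP -/
theorem regP (ε : ℝ) (hε : 0 < ε) : ∃ η : ℝ, 0 < η ∧ ∃ K : ℕ,
    ∀ {V : Type u} [DecidableEq V] (G : SimpleGraph V) (U : Finset V) (k r : ℕ),
      K ≤ k → 4 ≤ r → k * r ≤ U.card → (U.card : ℝ) ≤ (1 + η) * (k : ℝ) * (r : ℝ) →
      (∀ v ∈ U, (1 + ε) * (k : ℝ) * (((r + 1) / 2 : ℕ) : ℝ) ≤ (dg G U v : ℝ)) →
      ∃ F, Fam G U (fun L => L = r) F ∧ F.card = k := by
  obtain ⟨η, hη, K, h⟩ := regP_main.{u} (min ε 1) (lt_min hε one_pos) (min_le_right _ _)
  refine ⟨η, hη, K, ?_⟩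
  intro V _ G U k r hk hr hU hU2 hdeg
  refine h G U k r hk hr hU hU2 fun v hv => le_trans ?_ (hdeg v hv)
  apply mul_le_mul_of_nonneg_right _ (Nat.cast_nonneg _)
  apply mul_le_mul_of_nonneg_right _ (Nat.cast_nonneg _)
  have := min_le_left ε 1
  linarith

end Pool.Agent.LCK
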