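import Pool.Agent.LCK.RegA
import Pool.Agent.LCK.RegB
import Pool.Agent.LCK.RegP

set_option linter.all false

namespace Pool.Agent.LCK

open Pool.Agent.Helper14.LongCyc

universe u

theorem main_family (ε : ℝ) (hε : 0 < ε) : ∃ K : ℕ,
    ∀ {V : Type u} [DecidableEq V] (G : SimpleGraph V) (U : Finset V) (k r : ℕ),
      K ≤ k → 4 ≤ r → k * r ≤ U.card →
      (∀ v ∈ U, (1 + ε) * (k : ℝ) * (((r + 1) / 2 : ℕ) : ℝ) ≤ (dg G U v : ℝ)) →
      ∃ F, Fam G U (fun L => r ≤ L) F ∧ F.card = k := by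
  obtain ⟨η, hη, K1, h1⟩ := regP.{u} ε hε
  obtain ⟨C₂, K2, h2⟩ := regB.{u} ε hε
  obtain ⟨M, K3, h3⟩ := regA.{u} ε hε C₂
  obtain ⟨K4, hK4⟩ := exists_nat_ge (M / η)
  refine ⟨max (max K1 K2) (max K3 K4), fun G U k r hk hr hU hdeg => ?_⟩
  have k1 : K1 ≤ k := (le_max_left _ _).trans ((le_max_left _ _).trans hk)
  have k2 : K2 ≤ k := (le_max_right _ _).trans ((le_max_left _ _).trans hk)
  have k3 : K3 ≤ k := (le_max_left _ _).trans ((le_max_right _ _).trans hk)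
  have k4 : K4 ≤ k := (le_max_right _ _).trans ((le_max_right _ _).trans hk)
  by_cases hc1 : (U.card : ℝ) ≤ (1 + η) * (k : ℝ) * (r : ℝ)
  · obtain ⟨F, hF, hFk⟩ := h1 G U k r k1 hr hU hc1 hdeg
    exact ⟨F, hF.mono (Finset.Subset.refl _) (fun n hn => hn.ge), hFk⟩
  · push Not at hc1
    by_cases hc2 : U.card ≤ C₂ * k * r
    · refine h3 G U k r k3 hr ?_ hc2 hdeg
      have hk4 : (M : ℝ) / η ≤ k := hK4.trans (by exact_mod_cast k4)
      rw [div_le_iff₀ hη] at hk4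
      have : (((k + M) * r : ℕ) : ℝ) ≤ (U.card : ℝ) := by
        push_cast
        have hr0 : (0 : ℝ) ≤ r := Nat.cast_nonneg r
        nlinarith
      exact_mod_cast this
    · push Not at hc2
      exact h2 G U k r k2 hr hc2.le hdeg

theorem main_asymptotic (ε : ℝ) (hε : 0 < ε) : ∃ K : ℕ, ∀ k r : ℕ, K ≤ k → 4 ≤ r →
    ∀ (V : Type u) [Fintype V] (G : SimpleGraph V) [DecidableRel G.Adj],
      k * r ≤ Fintype.card V →
      (1 + ε) * (k : ℝ) * (((r + 1) / 2 : ℕ) : ℝ) ≤ (G.minDegree : ℝ) →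
        ∃ (a : Fin k → V) (c : (i : Fin k) → G.Walk (a i) (a i)),
          (∀ i, (c i).IsCycle ∧ r ≤ (c i).length) ∧
          ∀ i j, i ≠ j → ∀ x, x ∈ (c i).support → x ∉ (c j).support := by
  obtain ⟨K, hK⟩ := main_family.{u} ε hε
  refine ⟨K, ?_⟩
  intro k r hk hr V _ G _ hcard hdeg
  classical
  obtain ⟨F, hF, hFk⟩ := hK G Finset.univ k r hk hr (by simpa using hcard) (by
    intro v _
    refine hdeg.trans ?_
    have h1 : G.minDegree ≤ G.degree v := G.minDegree_le_degree v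
    have h2 : dg G Finset.univ v = G.degree v := by
      rw [dg_eq_card, ← SimpleGraph.card_neighborFinset_eq_degree]
      congr 1
      ext w
      simp
    rw [h2]
    exact_mod_cast h1)
  exact hF.walks (fun n hn => hn) hFk

theorem main_min (ε : ℝ) (hε : 0 < ε) : ∃ K : ℕ, ∀ k r : ℕ, K ≤ k → 4 ≤ r →
    ∀ (V : Type u) [Fintype V] (G : SimpleGraph V) [DecidableRel G.Adj],
      k * r ≤ Fintype.card V →
      min ((1 + ε) * (k : ℝ) * (((r + 1) / 2 : ℕ) : ℝ)) ((2 / 3 : ℝ) * k * r)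
        ≤ (G.minDegree : ℝ) →
        ∃ (a : Fin k → V) (c : (i : Fin k) → G.Walk (a i) (a i)),
          (∀ i, (c i).IsCycle ∧ r ≤ (c i).length) ∧
          ∀ i j, i ≠ j → ∀ x, x ∈ (c i).support → x ∉ (c j).support := by
  have h0 : 0 < min ε (1 / 10) := lt_min hε (by norm_num)
  obtain ⟨K, hK⟩ := main_asymptotic.{u} (min ε (1 / 10)) h0
  refine ⟨K, ?_⟩
  intro k r hk hr V _ G _ hcard hdeg
  refine hK k r hk hr V G hcard (le_trans (le_min ?_ ?_) hdeg)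
  · have h1 : min ε (1 / 10) ≤ ε := min_le_left _ _
    have h2 : (0 : ℝ) ≤ (k : ℝ) * (((r + 1) / 2 : ℕ) : ℝ) := by positivity
    nlinarith
  · have h1 : 33 * ((r + 1) / 2) ≤ 20 * r := by omega
    have h2 : (33 : ℝ) * (((r + 1) / 2 : ℕ) : ℝ) ≤ 20 * r := by exact_mod_cast h1
    have hk0 : (0 : ℝ) ≤ k := Nat.cast_nonneg k
    have h3 : min ε (1 / 10) ≤ 1 / 10 := min_le_right _ _
    have h4 : (0 : ℝ) ≤ (k : ℝ) * (((r + 1) / 2 : ℕ) : ℝ) := by positivity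
    nlinarith

end Pool.Agent.LCK
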