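import Pool.Agent.LCK.Asm
import Pool.Agent.LCK.Extract

/-!
# Odd cycles of prescribed length through a vertex which sees both sides of a dense set
-/

set_option linter.all false

namespace Pool.Agent.LCK

open Pool.Agent.Helper14.LongCyc

universe u

namespace Odd

variable {V : Type u} [DecidableEq V] {G : SimpleGraph V}

/-- a neighbour outside a small set -/
theorem pick {W E : Finset V} {v : V} (h : E.card < dg G W v) :
    ∃ u ∈ W, G.Adj v u ∧ u ∉ E := by
  classical
  unfold dg at h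
  obtain ⟨u, hu, huE⟩ := Finset.exists_mem_notMem_of_card_lt_card h
  rw [Finset.mem_filter] at hu
  exact ⟨u, hu.1, hu.2, huE⟩

theorem rich_sdiff {Z T : Finset V} {m t : ℕ} {x y : V} (h : Rich G Z m x y) (hT : T.card ≤ t) :
    Rich G (Z \ T) (m - t) x y := by
  classical
  unfold Rich at *
  have h1 : (Z.filter fun z => G.Adj x z ∧ G.Adj y z) \ T ⊆
      (Z \ T).filter fun z => G.Adj x z ∧ G.Adj y z := by
    intro z hz
    rw [Finset.mem_sdiff, Finset.mem_filter] at hz
    rw [Finset.mem_filter, Finset.mem_sdiff]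
    exact ⟨⟨hz.1.1, hz.2⟩, hz.1.2⟩
  have h2 := Finset.card_le_card h1
  have h3 := Finset.le_card_sdiff T (Z.filter fun z => G.Adj x z ∧ G.Adj y z)
  omega

theorem near_sdiff {A Z T : Finset V} {m t b : ℕ} (h : Near G A Z m b) (hT : T.card ≤ t) :
    Near G (A \ T) (Z \ T) (m - t) b := by
  classical
  intro x hx
  rw [Finset.mem_sdiff] at hx
  have h1 : (A.filter fun y => y ≠ x ∧ ¬ Rich G Z m x y).card ≤ b := by convert h x hx.1
  have h2 : ((A \ T).filter fun y => y ≠ x ∧ ¬ Rich G (Z \ T) (m - t) x y).card ≤ b := by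
    refine (Finset.card_le_card ?_).trans h1
    intro y hy
    rw [Finset.mem_filter, Finset.mem_sdiff] at hy
    rw [Finset.mem_filter]
    exact ⟨hy.1.1, hy.2.1, fun hr => hy.2.2 (rich_sdiff hr hT)⟩
  convert h2

/-- every member of a near set has large degree -/
theorem near_deg {A Z : Finset V} {m b : ℕ} (h : Near G A Z m b) (hb : b + 1 < A.card) {x : V}
    (hx : x ∈ A) : m ≤ dg G Z x := by
  classical
  obtain ⟨z, -, -, hz⟩ := Asm.exists_rich h hx {x} (Finset.mem_singleton_self x) (by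
    rw [Finset.card_singleton]; omega)
  unfold Rich at hz
  unfold dg
  refine hz.trans (Finset.card_le_card ?_)
  intro w hw
  rw [Finset.mem_filter] at hw ⊢
  exact ⟨hw.1, hw.2.1⟩

/-- the vertices of `H` with many neighbours in `A` -/
theorem exists_B {H A : Finset V} {m b : ℕ} (h : Near G A H m b) (hb : b + 1 < A.card) {κ : ℝ}
    (hκ : 0 ≤ κ) (hm : 3 / 4 * κ * (H.card : ℝ) ≤ m) : ∃ B : Finset V, B ⊆ H ∧
      κ / 4 * (H.card : ℝ) ≤ B.card ∧ ∀ w ∈ B, κ / 2 * (A.card : ℝ) ≤ dg G A w := by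
  classical
  refine ⟨H.filter fun w => κ / 2 * (A.card : ℝ) ≤ dg G A w, Finset.filter_subset _ _, ?_,
    fun w hw => (Finset.mem_filter.1 hw).2⟩
  have h1 : (A.card : ℝ) * m ≤ eS G H A := by
    rw [eS_comm]
    unfold eS
    push_cast
    calc (A.card : ℝ) * m = ∑ a ∈ A, (m : ℝ) := by rw [Finset.sum_const, nsmul_eq_mul]
      _ ≤ ∑ a ∈ A, (dg G H a : ℝ) := Finset.sum_le_sum fun a ha => by
        exact_mod_cast near_deg h hb ha
  have h2 : (eS G H A : ℝ) ≤ (H.filter fun w => κ / 2 * (A.card : ℝ) ≤ dg G A w).card * A.card +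
      H.card * (κ / 2 * (A.card : ℝ)) := by
    unfold eS
    push_cast
    rw [← Finset.sum_filter_add_sum_filter_not H (fun w => κ / 2 * (A.card : ℝ) ≤ dg G A w)]
    refine add_le_add ?_ ?_
    · refine (Finset.sum_le_card_nsmul _ _ (A.card : ℝ) fun w _ => ?_).trans (le_of_eq ?_)
      · exact_mod_cast dg_le A w
      · rw [nsmul_eq_mul]
    · refine (Finset.sum_le_card_nsmul _ _ (κ / 2 * (A.card : ℝ)) fun w hw => ?_).trans ?_
      · exact (not_le.1 (Finset.mem_filter.1 hw).2).le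
      · rw [nsmul_eq_mul]
        refine mul_le_mul_of_nonneg_right ?_ (by positivity)
        exact_mod_cast Finset.card_filter_le _ _
  have hA : (0 : ℝ) < A.card := by
    have : 0 < A.card := by omega
    exact_mod_cast this
  have h3 : (A.card : ℝ) * m ≤ A.card *
      ((H.filter fun w => κ / 2 * (A.card : ℝ) ≤ dg G A w).card + κ / 2 * H.card) := by
    calc (A.card : ℝ) * m ≤ _ := h1.trans h2
      _ = _ := by ring
  have h4 := le_of_mul_le_mul_left h3 hA
  linarith

/-- the cycle through `y` -/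
theorem cycle_through {H A B X : Finset V} {m b s : ℕ} (hs : 2 ≤ s) (hA : A ⊆ H) (hB : B ⊆ H)
    (hN : Near G A H m b) (hm : 4 * s + 3 ≤ m) (hAc : 3 * s + 3 + 2 * b ≤ A.card)
    (hBA : ∀ w ∈ B, 2 * s + 3 < dg G A w) {y : V} (hy : y ∉ X) (hX : X.card ≤ 2 * s + 1)
    (hyA : 2 * s + 4 + b < dg G A y) (hyB : 2 * s + 2 < dg G B y) :
    ∃ D, CycSet G D ∧ D ⊆ insert y H ∧ y ∈ D ∧ Disjoint D X ∧ D.card = 2 * s + 1 := by
  classical
  -- the connector `w`
  obtain ⟨w, hwB, hyw, hwE⟩ := pick (G := G) (W := B) (E := insert y X) (v := y)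
    ((Finset.card_insert_le _ _).trans_lt (by omega))
  rw [Finset.mem_insert, not_or] at hwE
  -- the last centre
  obtain ⟨us, husA, hwus, husE⟩ := pick (G := G) (W := A) (E := insert w (insert y X)) (v := w)
    (((Finset.card_insert_le _ _).trans (Nat.add_le_add_right (Finset.card_insert_le _ _) 1)).trans_lt
      (by have := hBA w hwB; omega))
  rw [Finset.mem_insert, Finset.mem_insert, not_or, not_or] at husE
  -- the first centre
  have hbad : (A.filter fun z => z ≠ us ∧ ¬ Rich G H m us z).card ≤ b := by convert hN us husA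
  obtain ⟨u1, hu1A, hyu1, hu1E⟩ := pick (G := G) (W := A)
    (E := insert us (insert w (insert y X)) ∪ A.filter fun z => z ≠ us ∧ ¬ Rich G H m us z)
    (v := y) (by
      have e1 := Finset.card_union_le (insert us (insert w (insert y X)))
        (A.filter fun z => z ≠ us ∧ ¬ Rich G H m us z)
      have e2 := Finset.card_insert_le us (insert w (insert y X))
      have e3 := Finset.card_insert_le w (insert y X)
      have e4 := Finset.card_insert_le y X
      omega)
  rw [Finset.mem_union, not_or, Finset.mem_insert, Finset.mem_insert, Finset.mem_insert, not_or,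
    not_or, not_or, Finset.mem_filter] at hu1E
  obtain ⟨⟨h11, h12, h13, h14⟩, h15⟩ := hu1E
  have hrich : Rich G H m us u1 := by
    by_contra hr
    exact h15 ⟨hu1A, h11, hr⟩
  -- the path
  set T : Finset V := insert w (insert y X) with hT
  have hTc : T.card ≤ 2 * s + 3 := by
    rw [hT]
    have e3 := Finset.card_insert_le w (insert y X)
    have e4 := Finset.card_insert_le y X
    omega
  have hAT : A.card - (2 * s + 3) ≤ (A \ T).card := by
    have := Finset.le_card_sdiff T A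
    omega
  obtain ⟨P, Q, hP, hQ, hPQ, hPc, hQc, l, hl, hlm⟩ := asm_path (G := G) (S := A \ T)
    (Z := H \ T) (m := m - (2 * s + 3)) (b := b) hs (by omega) (near_sdiff hN hTc) (by omega)
    (x := u1) (y := us)
    (Finset.mem_sdiff.2 ⟨hu1A, by rw [hT, Finset.mem_insert, Finset.mem_insert]; tauto⟩)
    (Finset.mem_sdiff.2 ⟨husA, by rw [hT, Finset.mem_insert, Finset.mem_insert]; tauto⟩)
    h11 (fun _ => rich_sdiff (Asm.rich_symm hrich) hTc)
  have hTl : ∀ v ∈ T, v ∉ l := by
    intro v hv hvl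
    rw [hlm, Finset.mem_union] at hvl
    rcases hvl with h | h
    · exact (Finset.mem_sdiff.1 (hP h)).2 hv
    · exact (Finset.mem_sdiff.1 (hQ h)).2 hv
  have hwT : w ∈ T := Finset.mem_insert_self _ _
  have hyT : y ∈ T := Finset.mem_insert_of_mem (Finset.mem_insert_self _ _)
  have hp1 : Pth G u1 w (l ++ [w]) := hl.concat hwus.symm (hTl w hwT)
  have hp2 : Pth G u1 y ((l ++ [w]) ++ [y]) := hp1.concat hyw.symm (by
    rw [List.mem_append, List.mem_singleton, not_or]
    exact ⟨hTl y hyT, fun h => hwE.1 h.symm⟩)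
  have hlen : l.length = 2 * s - 1 := by
    rw [← card_of_list hl.1 hlm, Finset.card_union_of_disjoint hPQ, hPc, hQc]
    omega
  have hlen2 : ((l ++ [w]) ++ [y]).length = 2 * s + 1 := by
    rw [List.length_append, List.length_append, List.length_singleton, List.length_singleton, hlen]
    omega
  have hcyc : Cyc G ((l ++ [w]) ++ [y]) := ⟨by omega, u1, y, hp2, hyu1⟩
  have hmem : ∀ v, v ∈ ((l ++ [w]) ++ [y]) ↔ v ∈ (P ∪ Q) ∪ {w, y} := by
    intro v
    rw [List.mem_append, List.mem_append, List.mem_singleton, List.mem_singleton, hlm,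
      Finset.mem_union (s := P ∪ Q), Finset.mem_insert, Finset.mem_singleton, or_assoc]
  refine ⟨(P ∪ Q) ∪ {w, y}, ⟨_, hcyc, hmem⟩, ?_, ?_, ?_, ?_⟩
  · intro v hv
    rw [Finset.mem_union, Finset.mem_union, Finset.mem_insert, Finset.mem_singleton] at hv
    rw [Finset.mem_insert]
    rcases hv with (h | h) | h | h
    · exact Or.inr (hA (Finset.mem_sdiff.1 (hP h)).1)
    · exact Or.inr (Finset.mem_sdiff.1 (hQ h)).1
    · exact Or.inr (h ▸ hB hwB)
    · exact Or.inl h
  · simp
  · rw [Finset.disjoint_left]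
    intro v hv hvX
    rw [Finset.mem_union, Finset.mem_union, Finset.mem_insert, Finset.mem_singleton] at hv
    have hvT : v ∈ T := Finset.mem_insert_of_mem (Finset.mem_insert_of_mem hvX)
    rcases hv with (h | h) | h | h
    · exact (Finset.mem_sdiff.1 (hP h)).2 hvT
    · exact (Finset.mem_sdiff.1 (hQ h)).2 hvT
    · exact hwE.2 (h ▸ hvX)
    · exact hy (h ▸ hvX)
  · rw [card_of_list hp2.1 hmem, hlen2]

end Odd

/-- ROW ODD -/
theorem dense_odd (c γ : ℝ) (hc : 0 < c) (hγ : 0 < γ) : ∃ M : ℕ,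
    ∀ {V : Type u} [DecidableEq V] (G : SimpleGraph V) (H : Finset V) (s : ℕ),
      2 ≤ s → M * s ≤ H.card → c * (H.card : ℝ) ^ 2 ≤ (eS G H H : ℝ) →
      ∃ A B : Finset V, A ⊆ H ∧ B ⊆ H ∧ A.Nonempty ∧ B.Nonempty ∧
        ∀ (y : V) (X : Finset V), y ∉ X → X.card ≤ 2 * s + 1 →
          γ * (A.card : ℝ) ≤ (dg G A y : ℝ) → γ * (B.card : ℝ) ≤ (dg G B y : ℝ) →
          ∃ D, CycSet G D ∧ D ⊆ insert y H ∧ y ∈ D ∧ Disjoint D X ∧ D.card = 2 * s + 1 := by
  have hη0 : 0 < min (γ / 2) (1 / 8 : ℝ) := lt_min (by positivity) (by norm_num)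
  have hη1 : min (γ / 2) (1 / 8 : ℝ) ≤ 1 := (min_le_right _ _).trans (by norm_num)
  obtain ⟨κ, hκdef⟩ : ∃ κ : ℝ, κ = c ^ 2 * (min (γ / 2) (1 / 8 : ℝ)) ^ 2 / 8 := ⟨_, rfl⟩
  have hκ : 0 < κ := by rw [hκdef]; positivity
  obtain ⟨M, hM⟩ := exists_nat_ge (16 + 100 / c + 16 / κ + 100 / (γ * c) + 100 / (γ * κ) +
    100 / (κ * c))
  refine ⟨M, fun {V} _ G H s hs hMs hcd => ?_⟩
  have hs2 : (2 : ℝ) ≤ s := by exact_mod_cast hs
  have hN : (M : ℝ) * s ≤ H.card := by exact_mod_cast hMs
  have p1 : (0 : ℝ) < 100 / c := by positivity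
  have p2 : (0 : ℝ) < 16 / κ := by positivity
  have p3 : (0 : ℝ) < 100 / (γ * c) := by positivity
  have p4 : (0 : ℝ) < 100 / (γ * κ) := by positivity
  have p5 : (0 : ℝ) < 100 / (κ * c) := by positivity
  have key : ∀ x : ℝ, 0 < x → ∀ t : ℝ, t / x ≤ M → t * s ≤ x * H.card := by
    intro x hx t ht
    rw [div_le_iff₀ hx] at ht
    have h1 : t * s ≤ M * x * s := mul_le_mul_of_nonneg_right ht (by positivity)
    have h2 : M * x * s = x * (M * s) := by ring
    have h3 : x * (M * s) ≤ x * H.card := mul_le_mul_of_nonneg_left hN hx.le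
    linarith
  have k1 : 100 * (s : ℝ) ≤ c * H.card := key c hc 100 (by linarith)
  have k2 : 16 * (s : ℝ) ≤ κ * H.card := key κ hκ 16 (by linarith)
  have k3 : 100 * (s : ℝ) ≤ γ * c * H.card := key (γ * c) (by positivity) 100 (by linarith)
  have k4 : 100 * (s : ℝ) ≤ γ * κ * H.card := key (γ * κ) (by positivity) 100 (by linarith)
  have k5 : 100 * (s : ℝ) ≤ κ * c * H.card := key (κ * c) (by positivity) 100 (by linarith)
  set m : ℕ := ⌊κ * H.card⌋₊ with hm
  have hm1 : (m : ℝ) ≤ κ * H.card := Nat.floor_le (by positivity)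
  have hm2 : κ * H.card < m + 1 := Nat.lt_floor_add_one _
  have hHpos : (0 : ℝ) < H.card := by
    by_contra h
    have h0 : (H.card : ℝ) = 0 := le_antisymm (not_lt.1 h) (Nat.cast_nonneg _)
    rw [h0] at k1
    linarith
  obtain ⟨v, -, A, b, hAH, -, hAc, hb, hNear⟩ := extract G H hc hη0 hη1
    (Finset.card_pos.1 (by exact_mod_cast hHpos)) (m := m) (by rw [← hκdef]; exact hm1) hcd
  have hb1 : (b : ℝ) ≤ γ / 2 * A.card := hb.trans (mul_le_mul_of_nonneg_right (min_le_left _ _)
    (Nat.cast_nonneg _))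
  have hb2 : (b : ℝ) ≤ 1 / 8 * A.card := hb.trans (mul_le_mul_of_nonneg_right (min_le_right _ _)
    (Nat.cast_nonneg _))
  have hA25 : 25 * (s : ℝ) ≤ A.card := by linarith
  have hbA : b + 1 < A.card := by
    have : (b : ℝ) + 1 < A.card := by linarith
    exact_mod_cast this
  obtain ⟨B, hBH, hBc, hBA⟩ := Odd.exists_B (G := G) hNear hbA hκ.le (κ := κ) (by linarith)
  have hApos : (0 : ℝ) < A.card := by linarith
  have hBpos : (0 : ℝ) < B.card := by linarith
  refine ⟨A, B, hAH, hBH, Finset.card_pos.1 (by exact_mod_cast hApos),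
    Finset.card_pos.1 (by exact_mod_cast hBpos), fun y X hy hX hyA hyB => ?_⟩
  refine Odd.cycle_through hs hAH hBH hNear ?_ ?_ ?_ hy hX ?_ ?_
  · have : (4 : ℝ) * s + 3 ≤ m := by linarith
    exact_mod_cast this
  · have : (3 : ℝ) * s + 3 + 2 * b ≤ A.card := by linarith
    exact_mod_cast this
  · intro w hw
    have h1 := hBA w hw
    have h2 : κ / 2 * (c / 4 * H.card) ≤ κ / 2 * A.card :=
      mul_le_mul_of_nonneg_left hAc (by positivity)
    have : (2 : ℝ) * s + 3 < dg G A w := by nlinarith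
    exact_mod_cast this
  · have h2 : γ / 2 * (c / 4 * H.card) ≤ γ / 2 * A.card :=
      mul_le_mul_of_nonneg_left hAc (by positivity)
    have : (2 : ℝ) * s + 4 + b < dg G A y := by nlinarith
    exact_mod_cast this
  · have h2 : γ * (κ / 4 * H.card) ≤ γ * B.card :=
      mul_le_mul_of_nonneg_left hBc hγ.le
    have : (2 : ℝ) * s + 2 < dg G B y := by nlinarith
    exact_mod_cast this

end Pool.Agent.LCK
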