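import Pool.Agent.LCK.Defs
import Pool.Agent.Helper14.LongCyc.Short

set_option linter.all false

namespace Pool.Agent.LCK

open Pool.Agent.Helper14.LongCyc

universe u

variable {V : Type u} {G : SimpleGraph V}

/-! ### arcs -/

/-- the arc of the cyclic list `c` with positions `p, ..., p'` -/
theorem arc {c : List V} (hc : Cyc G c) (hp : 0 < c.length) {p p' : ℕ} (h : p ≤ p')
    (h' : p' < p + c.length) :
    ∃ l, Pth G (cf c hp p) (cf c hp p') l ∧ l.length = p' - p + 1 ∧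
      ∀ x, x ∈ l → ∃ i, p ≤ i ∧ i ≤ p' ∧ x = cf c hp i := by
  refine ⟨seg (cf c hp) p (p' - p), ?_, ?_, ?_⟩
  · have := arc_pth hc hp (p' - p) p (by omega)
    rwa [Nat.add_sub_of_le h] at this
  · exact seg_length
  · intro x hx
    rw [mem_seg] at hx
    obtain ⟨j, h1, h2, h3⟩ := hx
    exact ⟨j, h1, by omega, h3⟩

/-- two disjoint paths joined by two edges form a cycle -/
theorem join {a b a' b' : V} {l l' : List V} (h : Pth G a b l) (h' : Pth G a' b' l')
    (hd : ∀ x ∈ l, x ∉ l') (h3 : 3 ≤ l.length + l'.length)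
    (hadj : (G.Adj a a' ∧ G.Adj b b') ∨ (G.Adj a b' ∧ G.Adj b a')) :
    Cyc G (l ++ l') ∨ Cyc G (l ++ l'.reverse) := by
  rcases hadj with ⟨h1, h2⟩ | ⟨h1, h2⟩
  · right
    refine ⟨by simpa using h3, a, a', h.append h'.reverse h2 ?_, h1.symm⟩
    intro x hx hx'
    exact hd x hx (List.mem_reverse.1 hx')
  · left
    exact ⟨by simpa using h3, a, b', h.append h' h2 hd, h1.symm⟩

theorem joinSet [DecidableEq V] {a b a' b' : V} {l l' : List V} (h : Pth G a b l)
    (h' : Pth G a' b' l')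
    (hd : ∀ x ∈ l, x ∉ l') (h3 : 3 ≤ l.length + l'.length)
    (hadj : (G.Adj a a' ∧ G.Adj b b') ∨ (G.Adj a b' ∧ G.Adj b a')) :
    CycSet G (l ++ l').toFinset ∧ (l ++ l').toFinset.card = l.length + l'.length := by
  constructor
  · rcases join h h' hd h3 hadj with h4 | h4
    · exact ⟨_, h4, fun x => List.mem_toFinset.symm⟩
    · exact ⟨_, h4, fun x => by simp⟩
  · have : (l ++ l').Nodup := List.nodup_append.2 ⟨h.1, h'.1, by
      intro x hx y hy hxy
      exact hd x hx (hxy ▸ hy)⟩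
    rw [List.toFinset_card_of_nodup this, List.length_append]

/-- ROW PAIR -/
theorem own_deg {V : Type u} [DecidableEq V] {G : SimpleGraph V} {r : ℕ} (hr : 4 ≤ r)
    {C : Finset V} (hC : CycSet G C) (hCr : r ≤ C.card)
    (hmin : ∀ D, CycSet G D → D ⊆ C → r ≤ D.card → C.card ≤ D.card) {v : V} (hv : v ∈ C) :
    dg G C v ≤ r := by
  classical
  obtain ⟨c, hc, hs⟩ := hC
  have hL := card_of_list (Cyc.nodup hc) hs
  have hp : 0 < c.length := by omega
  obtain ⟨i0, hi0, rfl⟩ := exists_cf hp ((hs v).2 hv)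
  set L := c.length with hLdef
  have hsub : (C.filter fun u => G.Adj (cf c hp i0) u) ⊆
      (insert (L - 1) (Finset.Icc 1 (r - 2))).image (fun j => cf c hp (i0 + j)) := by
    intro u hu
    rw [Finset.mem_filter] at hu
    obtain ⟨i, hi, rfl⟩ := exists_cf hp ((hs u).2 hu.1)
    have hji : ∃ j, j < L ∧ cf c hp (i0 + j) = cf c hp i := by
      refine ⟨(i + (L - i0)) % L, Nat.mod_lt _ hp, cf_congr hp ?_⟩
      show (i0 + (i + (L - i0)) % L) % L = i % L
      rw [Nat.add_mod_mod, show i0 + (i + (L - i0)) = i + L by omega, Nat.add_mod_right]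
    obtain ⟨j, hj, hji⟩ := hji
    rw [Finset.mem_image]
    refine ⟨j, ?_, hji⟩
    rw [← hji] at hu
    have hj0 : j ≠ 0 := by
      rintro rfl
      exact G.loopless.irrefl _ hu.2
    by_contra hcon
    rw [Finset.mem_insert, Finset.mem_Icc, not_or] at hcon
    obtain ⟨l, hl, hlen, hmem⟩ := arc (p := i0) (p' := i0 + j) hc hp (by omega) (by omega)
    have hcy : Cyc G l := ⟨by omega, _, _, hl, hu.2.symm⟩
    have hcard : l.toFinset.card = l.length := List.toFinset_card_of_nodup hl.1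
    have := hmin l.toFinset (Cyc.cycSet hcy) (by
      intro x hx
      rw [List.mem_toFinset] at hx
      obtain ⟨i', _, _, rfl⟩ := hmem x hx
      exact (hs _).1 (cf_mem hp _)) (by omega)
    omega
  have h1 := Finset.card_le_card hsub
  have h2 : ((insert (L - 1) (Finset.Icc 1 (r - 2))).image (fun j => cf c hp (i0 + j))).card ≤
      (r - 2) + 1 :=
    le_trans Finset.card_image_le (le_trans (Finset.card_insert_le _ _) (by simp))
  have h3 : dg G C (cf c hp i0) = (C.filter fun u => G.Adj (cf c hp i0) u).card := dg_eq_card _ _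
  omega

/-! ### two disjoint shorter cycles -/

/-- the data of the pair: `c`, `d` are disjoint cycles, and there is no pair of disjoint cycles of
length at least `r` on their vertices, with smaller total length -/
structure PD (G : SimpleGraph V) (r : ℕ) (c d : List V) : Prop where
  cc : Cyc G c
  cd : Cyc G d
  dis : ∀ x ∈ c, x ∉ d
  rc : r ≤ c.length
  rd : r ≤ d.length
  min : ∀ s t : List V, s.Nodup → t.Nodup → (∀ x ∈ s, x ∉ t) →
    (∃ s', Cyc G s' ∧ ∀ x, x ∈ s' ↔ x ∈ s) → (∃ t', Cyc G t' ∧ ∀ x, x ∈ t' ↔ x ∈ t) →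
    (∀ x ∈ s, x ∈ c ∨ x ∈ d) → (∀ x ∈ t, x ∈ c ∨ x ∈ d) →
    r ≤ s.length → r ≤ t.length → c.length + d.length ≤ s.length + t.length

theorem PD.symm {r : ℕ} {c d : List V} (h : PD G r c d) : PD G r d c :=
  ⟨h.cd, h.cc, fun x hx hx' => h.dis x hx' hx, h.rd, h.rc,
    fun s t h1 h2 h3 h4 h5 h6 h7 h8 h9 => by
      have := h.min s t h1 h2 h3 h4 h5 (fun x hx => (h6 x hx).symm) (fun x hx => (h7 x hx).symm)
        h8 h9
      omega⟩

theorem PD.pc {r : ℕ} {c d : List V} (h : PD G r c d) : 0 < c.length := by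
  have := h.cc.1; omega

theorem PD.pd {r : ℕ} {c d : List V} (h : PD G r c d) : 0 < d.length := by
  have := h.cd.1; omega

/-- two cycles made of disjoint arcs -/
theorem PD.two {r : ℕ} (hr : 4 ≤ r) {c d : List V} (h : PD G r c d) (hpc : 0 < c.length)
    (hpd : 0 < d.length)
    {p1 p1' p2 p2' q1 q1' q2 q2' : ℕ} (a1 : p1 ≤ p1') (a2 : p1' < p2) (a3 : p2 ≤ p2')
    (a4 : p2' < p1 + c.length) (b1 : q1 ≤ q1') (b2 : q1' < q2) (b3 : q2 ≤ q2')
    (b4 : q2' < q1 + d.length)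
    (A1 : (G.Adj (cf c hpc p1) (cf d hpd q1) ∧ G.Adj (cf c hpc p1') (cf d hpd q1')) ∨
      (G.Adj (cf c hpc p1) (cf d hpd q1') ∧ G.Adj (cf c hpc p1') (cf d hpd q1)))
    (A2 : (G.Adj (cf c hpc p2) (cf d hpd q2) ∧ G.Adj (cf c hpc p2') (cf d hpd q2')) ∨
      (G.Adj (cf c hpc p2) (cf d hpd q2') ∧ G.Adj (cf c hpc p2') (cf d hpd q2)))
    (l1 : r ≤ (p1' - p1) + (q1' - q1) + 2) (l2 : r ≤ (p2' - p2) + (q2' - q2) + 2)
    (tt : (p1' - p1) + (q1' - q1) + (p2' - p2) + (q2' - q2) + 4 < c.length + d.length) :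
    False := by
  classical
  obtain ⟨u1, hu1, hu1l, hu1m⟩ := arc h.cc hpc a1 (by omega)
  obtain ⟨u2, hu2, hu2l, hu2m⟩ := arc h.cc hpc a3 (by omega)
  obtain ⟨w1, hw1, hw1l, hw1m⟩ := arc h.cd hpd b1 (by omega)
  obtain ⟨w2, hw2, hw2l, hw2m⟩ := arc h.cd hpd b3 (by omega)
  have hcd : ∀ i j, cf c hpc i ≠ cf d hpd j := by
    intro i j hij
    exact h.dis _ (cf_mem hpc i) (hij ▸ cf_mem hpd j)
  have hcc : ∀ i j, i < j → j < i + c.length → cf c hpc i ≠ cf c hpc j := by
    intro i j h1 h2 hij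
    have h5 := cf_inj hpc (Cyc.nodup h.cc) hij
    have h6 : c.length ∣ j - i := (Nat.modEq_iff_dvd' (by omega)).1 h5
    have := Nat.le_of_dvd (by omega) h6
    omega
  have hdd : ∀ i j, i < j → j < i + d.length → cf d hpd i ≠ cf d hpd j := by
    intro i j h1 h2 hij
    have h5 := cf_inj hpd (Cyc.nodup h.cd) hij
    have h6 : d.length ∣ j - i := (Nat.modEq_iff_dvd' (by omega)).1 h5
    have := Nat.le_of_dvd (by omega) h6
    omega
  have e11 : ∀ x ∈ u1, x ∉ w1 := by
    intro x hx hx'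
    obtain ⟨i, _, _, rfl⟩ := hu1m x hx
    obtain ⟨j, _, _, hj⟩ := hw1m _ hx'
    exact hcd _ _ hj
  have e22 : ∀ x ∈ u2, x ∉ w2 := by
    intro x hx hx'
    obtain ⟨i, _, _, rfl⟩ := hu2m x hx
    obtain ⟨j, _, _, hj⟩ := hw2m _ hx'
    exact hcd _ _ hj
  have n1 : (u1 ++ w1).Nodup := List.nodup_append.2 ⟨hu1.1, hw1.1, by
    intro x hx y hy hxy
    exact e11 x hx (hxy ▸ hy)⟩
  have n2 : (u2 ++ w2).Nodup := List.nodup_append.2 ⟨hu2.1, hw2.1, by
    intro x hx y hy hxy
    exact e22 x hx (hxy ▸ hy)⟩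
  have key := h.min (u1 ++ w1) (u2 ++ w2) n1 n2 ?_ ?_ ?_ ?_ ?_ ?_ ?_
  · rw [List.length_append, List.length_append] at key
    omega
  · intro x hx hx'
    rw [List.mem_append] at hx hx'
    rcases hx with hx | hx
    · obtain ⟨i, hi1, hi2, rfl⟩ := hu1m x hx
      rcases hx' with hx' | hx'
      · obtain ⟨j, hj1, hj2, hj⟩ := hu2m _ hx'
        exact hcc i j (by omega) (by omega) hj
      · obtain ⟨j, _, _, hj⟩ := hw2m _ hx'
        exact hcd _ _ hj
    · obtain ⟨i, hi1, hi2, rfl⟩ := hw1m x hx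
      rcases hx' with hx' | hx'
      · obtain ⟨j, hj1, hj2, hj⟩ := hu2m _ hx'
        exact hcd _ _ hj.symm
      · obtain ⟨j, hj1, hj2, hj⟩ := hw2m _ hx'
        exact hdd i j (by omega) (by omega) hj
  · rcases join hu1 hw1 e11 (by omega) A1 with h4 | h4
    · exact ⟨_, h4, fun x => Iff.rfl⟩
    · exact ⟨_, h4, fun x => by simp⟩
  · rcases join hu2 hw2 e22 (by omega) A2 with h4 | h4
    · exact ⟨_, h4, fun x => Iff.rfl⟩
    · exact ⟨_, h4, fun x => by simp⟩
  · intro x hx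
    rw [List.mem_append] at hx
    rcases hx with hx | hx
    · obtain ⟨i, hi1, hi2, rfl⟩ := hu1m x hx
      exact Or.inl (cf_mem _ _)
    · obtain ⟨i, hi1, hi2, rfl⟩ := hw1m x hx
      exact Or.inr (cf_mem _ _)
  · intro x hx
    rw [List.mem_append] at hx
    rcases hx with hx | hx
    · obtain ⟨i, hi1, hi2, rfl⟩ := hu2m x hx
      exact Or.inl (cf_mem _ _)
    · obtain ⟨i, hi1, hi2, rfl⟩ := hw2m x hx
      exact Or.inr (cf_mem _ _)
  · rw [List.length_append]; omega
  · rw [List.length_append]; omega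

/-- the position `b` of `d` is wide with respect to `c` -/
def Wide (G : SimpleGraph V) (r : ℕ) (c d : List V) (hpc : 0 < c.length) (hpd : 0 < d.length)
    (b : ℕ) : Prop :=
  ∃ a1 a2 a3 a4, a1 + r ≤ a2 ∧ a2 < a3 ∧ a3 + r ≤ a4 ∧ a4 < c.length ∧
    G.Adj (cf c hpc a1) (cf d hpd b) ∧ G.Adj (cf c hpc a2) (cf d hpd b) ∧
    G.Adj (cf c hpc a3) (cf d hpd b) ∧ G.Adj (cf c hpc a4) (cf d hpd b)

theorem cf_add {c : List V} (hp : 0 < c.length) (i : ℕ) : cf c hp (i + c.length) = cf c hp i :=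
  cf_congr hp (by rw [Nat.add_mod_right])

theorem PD.wide_aux {r : ℕ} (hr : 4 ≤ r) {c d : List V} (h : PD G r c d) (hpc : 0 < c.length)
    (hpd : 0 < d.length) {b b' : ℕ} (hbb : b < b') (hb' : b' < b + d.length)
    (hw : Wide G r c d hpc hpd b) (hw' : Wide G r c d hpc hpd b') : False := by
  obtain ⟨a1, a2, a3, a4, h1, h2, h3, h4, k1, k2, k3, k4⟩ := hw
  obtain ⟨b1, b2, b3, b4, h1', h2', h3', h4', k1', k2', k3', k4'⟩ := hw'
  have hrd := h.rd
  by_cases hc : a2 < b3
  · exact h.two hr hpc hpd (p1 := a1) (p1' := a2) (p2 := b3) (p2' := b4) (q1 := b) (q1' := b)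
      (q2 := b') (q2' := b') (by omega) hc (by omega) (by omega) le_rfl hbb le_rfl hb'
      (Or.inl ⟨k1, k2⟩) (Or.inl ⟨k3', k4'⟩) (by omega) (by omega) (by omega)
  · have hb2 : b' < (b + d.length) := hb'
    refine h.two hr hpc hpd (p1 := b1) (p1' := b2) (p2 := a3) (p2' := a4) (q1 := b') (q1' := b')
      (q2 := b + d.length) (q2' := b + d.length) (by omega) (by omega) (by omega) (by omega) le_rfl
      (by omega) le_rfl (by omega) (Or.inl ⟨k1', k2'⟩) (Or.inl ?_) (by omega) (by omega)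
      (by omega)
    rw [cf_add]
    exact ⟨k3, k4⟩

theorem PD.wide_unique {r : ℕ} (hr : 4 ≤ r) {c d : List V} (h : PD G r c d) (hpc : 0 < c.length)
    (hpd : 0 < d.length) {b b' : ℕ} (hb : b < d.length) (hb' : b' < d.length)
    (hw : Wide G r c d hpc hpd b) (hw' : Wide G r c d hpc hpd b') : b = b' := by
  rcases Nat.lt_trichotomy b b' with hlt | heq | hgt
  · exact (h.wide_aux hr hpc hpd hlt (by omega) hw hw').elim
  · exact heq
  · exact (h.wide_aux hr hpc hpd hgt (by omega) hw' hw).elim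

/-- greedy: many positions contain a wide pattern -/
theorem greedy (r L : ℕ) (I : Finset ℕ) (hI : ∀ i ∈ I, i < L) (hc : 2 * r + 1 < I.card) :
    ∃ a1 ∈ I, ∃ a2 ∈ I, ∃ a3 ∈ I, ∃ a4 ∈ I, a1 + r ≤ a2 ∧ a2 < a3 ∧ a3 + r ≤ a4 := by
  classical
  have step : ∀ (J : Finset ℕ) (s n : ℕ), n + s < J.card → ∃ x ∈ J, ∃ J' ⊆ J,
      n < J'.card ∧ ∀ y ∈ J', x + s ≤ y := by
    intro J s n hn
    have hne : J.Nonempty := Finset.card_pos.1 (by omega)
    refine ⟨J.min' hne, Finset.min'_mem _ _, J.filter (fun y => J.min' hne + s ≤ y),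
      Finset.filter_subset _ _, ?_, fun y hy => (Finset.mem_filter.1 hy).2⟩
    have h1 : J ⊆ J.filter (fun y => J.min' hne + s ≤ y) ∪
        Finset.Ico (J.min' hne) (J.min' hne + s) := by
      intro y hy
      rw [Finset.mem_union, Finset.mem_filter, Finset.mem_Ico]
      have := Finset.min'_le J y hy
      by_cases h : J.min' hne + s ≤ y
      · exact Or.inl ⟨hy, h⟩
      · exact Or.inr ⟨this, by omega⟩
    have h2 := (Finset.card_le_card h1).trans (Finset.card_union_le _ _)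
    rw [Nat.card_Ico] at h2
    omega
  obtain ⟨a1, ha1, I1, hI1, hc1, h1⟩ := step I r (r + 1) (by omega)
  obtain ⟨a2, ha2, I2, hI2, hc2, h2⟩ := step I1 1 r (by omega)
  obtain ⟨a3, ha3, I3, hI3, hc3, h3⟩ := step I2 r 0 (by omega)
  obtain ⟨a4, ha4⟩ := Finset.card_pos.1 hc3
  exact ⟨a1, ha1, a2, hI1 ha2, a3, hI1 (hI2 ha3), a4, hI1 (hI2 (hI3 ha4)), h1 a2 ha2,
    h2 a3 ha3, h3 a4 ha4⟩

open Classical in
theorem narrow_card {r : ℕ} {c d : List V} (hpc : 0 < c.length)
    (hpd : 0 < d.length) {b : ℕ} (hw : ¬ Wide G r c d hpc hpd b) :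
    ((Finset.range c.length).filter fun a => G.Adj (cf c hpc a) (cf d hpd b)).card ≤
      2 * r + 1 := by
  by_contra hcon
  push Not at hcon
  apply hw
  obtain ⟨a1, h1, a2, h2, a3, h3, a4, h4, k1, k2, k3⟩ := greedy r c.length _ (by
    intro i hi
    rw [Finset.mem_filter, Finset.mem_range] at hi
    exact hi.1) hcon
  simp only [Finset.mem_filter, Finset.mem_range] at h1 h2 h3 h4
  exact ⟨a1, a2, a3, a4, k1, k2, k3, h4.1, h1.2, h2.2, h3.2, h4.2⟩

theorem PD.quad_aux {r : ℕ} (hr : 4 ≤ r) {c d : List V} (h : PD G r c d) (hpc : 0 < c.length)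
    (hpd : 0 < d.length) {a1 a2 a3 a4 b1 b2 b3 b4 : ℕ} (h12 : a1 + r ≤ a2) (h23 : a2 + r ≤ a3)
    (h34 : a3 + r ≤ a4) (h41 : a4 + r ≤ a1 + c.length)
    (l2 : b1 < b2) (l3 : b1 < b3) (l4 : b1 < b4) (m2 : b2 < b1 + d.length)
    (m3 : b3 < b1 + d.length) (m4 : b4 < b1 + d.length) (n23 : b2 ≠ b3) (n24 : b2 ≠ b4)
    (n34 : b3 ≠ b4)
    (k1 : G.Adj (cf c hpc a1) (cf d hpd b1)) (k2 : G.Adj (cf c hpc a2) (cf d hpd b2))
    (k3 : G.Adj (cf c hpc a3) (cf d hpd b3)) (k4 : G.Adj (cf c hpc a4) (cf d hpd b4)) :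
    False := by
  have k1c : G.Adj (cf c hpc (a1 + c.length)) (cf d hpd (b1 + d.length)) := by
    rw [cf_add, cf_add]; exact k1
  have k1d : G.Adj (cf c hpc a1) (cf d hpd (b1 + d.length)) := by
    rw [cf_add]; exact k1
  have k3d : G.Adj (cf c hpc a3) (cf d hpd (b3 + d.length)) := by
    rw [cf_add]; exact k3
  have k4d : G.Adj (cf c hpc a4) (cf d hpd (b4 + d.length)) := by
    rw [cf_add]; exact k4
  rcases lt_or_gt_of_ne n23 with h1 | h1 <;> rcases lt_or_gt_of_ne n24 with h2 | h2 <;>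
    rcases lt_or_gt_of_ne n34 with h3 | h3
  · exact h.two hr hpc hpd (p1 := a1) (p1' := a2) (p2 := a3) (p2' := a4) (q1 := b1) (q1' := b2)
      (q2 := b3) (q2' := b4) (by omega) (by omega) (by omega) (by omega) (by omega) (by omega)
      (by omega) (by omega) (Or.inl ⟨k1, k2⟩) (Or.inl ⟨k3, k4⟩) (by omega) (by omega) (by omega)
  · exact h.two hr hpc hpd (p1 := a1) (p1' := a2) (p2 := a3) (p2' := a4) (q1 := b1) (q1' := b2)
      (q2 := b4) (q2' := b3) (by omega) (by omega) (by omega) (by omega) (by omega) (by omega)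
      (by omega) (by omega) (Or.inl ⟨k1, k2⟩) (Or.inr ⟨k3, k4⟩) (by omega) (by omega) (by omega)
  · omega
  · exact h.two hr hpc hpd (p1 := a2) (p1' := a3) (p2 := a4) (p2' := a1 + c.length) (q1 := b2)
      (q1' := b3) (q2 := b1 + d.length) (q2' := b4 + d.length) (by omega) (by omega) (by omega)
      (by omega) (by omega) (by omega) (by omega) (by omega) (Or.inl ⟨k2, k3⟩)
      (Or.inr ⟨k4d, k1c⟩) (by omega) (by omega) (by omega)
  · exact h.two hr hpc hpd (p1 := a2) (p1' := a3) (p2 := a4) (p2' := a1 + c.length) (q1 := b3)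
      (q1' := b2) (q2 := b4) (q2' := b1 + d.length) (by omega) (by omega) (by omega)
      (by omega) (by omega) (by omega) (by omega) (by omega) (Or.inr ⟨k2, k3⟩)
      (Or.inl ⟨k4, k1c⟩) (by omega) (by omega) (by omega)
  · omega
  · exact h.two hr hpc hpd (p1 := a1) (p1' := a2) (p2 := a3) (p2' := a4) (q1 := b2)
      (q1' := b1 + d.length) (q2 := b3 + d.length) (q2' := b4 + d.length) (by omega) (by omega)
      (by omega) (by omega) (by omega) (by omega) (by omega) (by omega) (Or.inr ⟨k1d, k2⟩)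
      (Or.inl ⟨k3d, k4d⟩) (by omega) (by omega) (by omega)
  · exact h.two hr hpc hpd (p1 := a2) (p1' := a3) (p2 := a4) (p2' := a1 + c.length) (q1 := b3)
      (q1' := b2) (q2 := b1 + d.length) (q2' := b4 + d.length) (by omega) (by omega) (by omega)
      (by omega) (by omega) (by omega) (by omega) (by omega) (Or.inr ⟨k2, k3⟩)
      (Or.inr ⟨k4d, k1c⟩) (by omega) (by omega) (by omega)

theorem PD.quad {r : ℕ} (hr : 4 ≤ r) {c d : List V} (h : PD G r c d) (hpc : 0 < c.length)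
    (hpd : 0 < d.length) {a1 a2 a3 a4 b1 b2 b3 b4 : ℕ} (h12 : a1 + r ≤ a2) (h23 : a2 + r ≤ a3)
    (h34 : a3 + r ≤ a4) (h41 : a4 + r ≤ a1 + c.length)
    (l1 : b1 < d.length) (l2 : b2 < d.length) (l3 : b3 < d.length) (l4 : b4 < d.length)
    (n12 : b1 ≠ b2) (n13 : b1 ≠ b3) (n14 : b1 ≠ b4) (n23 : b2 ≠ b3) (n24 : b2 ≠ b4)
    (n34 : b3 ≠ b4)
    (k1 : G.Adj (cf c hpc a1) (cf d hpd b1)) (k2 : G.Adj (cf c hpc a2) (cf d hpd b2))
    (k3 : G.Adj (cf c hpc a3) (cf d hpd b3)) (k4 : G.Adj (cf c hpc a4) (cf d hpd b4)) :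
    False := by
  have key : ∀ b, b < d.length → b1 ≠ b → ∃ b', b1 < b' ∧ b' < b1 + d.length ∧
      cf d hpd b' = cf d hpd b ∧ (b' = b ∧ b1 < b ∨ b' = b + d.length ∧ b < b1) := by
    intro b hb hne
    rcases lt_or_gt_of_ne hne with h1 | h1
    · exact ⟨b, h1, by omega, rfl, Or.inl ⟨rfl, h1⟩⟩
    · exact ⟨b + d.length, by omega, by omega, cf_add _ _, Or.inr ⟨rfl, h1⟩⟩
  obtain ⟨b2', x2, y2, z2, w2⟩ := key b2 l2 n12
  obtain ⟨b3', x3, y3, z3, w3⟩ := key b3 l3 n13
  obtain ⟨b4', x4, y4, z4, w4⟩ := key b4 l4 n14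
  rw [← z2] at k2
  rw [← z3] at k3
  rw [← z4] at k4
  exact h.quad_aux hr hpc hpd h12 h23 h34 h41 x2 x3 x4 y2 y3 y4 (by omega) (by omega) (by omega)
    k1 k2 k3 k4

/-- few pairs in a strip -/
theorem strip (m : ℕ) (Γ : Finset (ℕ × ℕ)) (hrow : ∀ a, (Γ.filter fun x => x.1 = a).card ≤ m)
    (lo s : ℕ) : (Γ.filter fun x => lo ≤ x.1 ∧ x.1 < lo + s).card ≤ s * m := by
  classical
  have h1 : (Γ.filter fun x => lo ≤ x.1 ∧ x.1 < lo + s) ⊆
      (Finset.Ico lo (lo + s)).biUnion fun a => Γ.filter fun x => x.1 = a := by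
    intro x hx
    rw [Finset.mem_filter] at hx
    rw [Finset.mem_biUnion]
    exact ⟨x.1, Finset.mem_Ico.2 hx.2, Finset.mem_filter.2 ⟨hx.1, rfl⟩⟩
  refine (Finset.card_le_card h1).trans ?_
  refine (Finset.card_biUnion_le_card_mul _ _ m fun a _ => hrow a).trans ?_
  rw [Nat.card_Ico]
  simp

theorem pick (m r N : ℕ) (Γ : Finset (ℕ × ℕ)) (hrow : ∀ a, (Γ.filter fun x => x.1 = a).card ≤ m)
    (hcol : ∀ b, (Γ.filter fun x => x.2 = b).card ≤ m) (hN : N + r * m + m < Γ.card) :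
    ∃ x ∈ Γ, ∃ Γ' ⊆ Γ, N < Γ'.card ∧ ∀ y ∈ Γ', x.1 + r ≤ y.1 ∧ y.2 ≠ x.2 := by
  classical
  have hne : Γ.Nonempty := Finset.card_pos.1 (by omega)
  obtain ⟨x, hx, hmin⟩ := Finset.exists_min_image Γ (fun y => y.1) hne
  refine ⟨x, hx, Γ.filter (fun y => x.1 + r ≤ y.1 ∧ y.2 ≠ x.2), Finset.filter_subset _ _, ?_,
    fun y hy => (Finset.mem_filter.1 hy).2⟩
  have h1 : Γ ⊆ Γ.filter (fun y => x.1 + r ≤ y.1 ∧ y.2 ≠ x.2) ∪
      ((Γ.filter fun y => x.1 ≤ y.1 ∧ y.1 < x.1 + r) ∪ (Γ.filter fun y => y.2 = x.2)) := by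
    intro y hy
    have := hmin y hy
    simp only [Finset.mem_union, Finset.mem_filter]
    by_cases h1 : x.1 + r ≤ y.1
    · by_cases h2 : y.2 = x.2
      · exact Or.inr (Or.inr ⟨hy, h2⟩)
      · exact Or.inl ⟨hy, h1, h2⟩
    · exact Or.inr (Or.inl ⟨hy, this, by omega⟩)
  have h2 := (Finset.card_le_card h1).trans (Finset.card_union_le _ _)
  have h3 := Finset.card_union_le (Γ.filter fun y => x.1 ≤ y.1 ∧ y.1 < x.1 + r)
    (Γ.filter fun y => y.2 = x.2)
  have h4 := strip m Γ hrow x.1 r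
  have h5 := hcol x.2
  omega

theorem row_mono {m : ℕ} {Γ Γ' : Finset (ℕ × ℕ)} (h : Γ' ⊆ Γ) {P : ℕ × ℕ → Prop}
    [DecidablePred P] (hrow : (Γ.filter P).card ≤ m) : (Γ'.filter P).card ≤ m :=
  (Finset.card_le_card (Finset.filter_subset_filter _ h)).trans hrow

/-- four index pairs -/
theorem PD.few {r : ℕ} (hr : 4 ≤ r) {c d : List V} (h : PD G r c d) (hpc : 0 < c.length)
    (hpd : 0 < d.length) (Γ : Finset (ℕ × ℕ))
    (hΓ : ∀ x ∈ Γ, x.1 < c.length ∧ x.2 < d.length ∧ G.Adj (cf c hpc x.1) (cf d hpd x.2))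
    (hrow : ∀ a, (Γ.filter fun x => x.1 = a).card ≤ 2 * r + 1)
    (hcol : ∀ b, (Γ.filter fun x => x.2 = b).card ≤ 2 * r + 1) :
    Γ.card ≤ (4 * r + 3) * (2 * r + 1) := by
  classical
  by_contra hcon
  push Not at hcon
  set m := 2 * r + 1 with hm
  have e : (4 * r + 3) * m = 4 * (r * m) + 3 * m := by ring
  rw [e] at hcon
  obtain ⟨x1, hx1, Γ1, hΓ1, hc1, h1⟩ := pick m r (3 * (r * m) + 2 * m) Γ hrow hcol (by omega)
  -- discard the last strip
  set Γ1' := Γ1.filter (fun y => y.1 + r ≤ x1.1 + c.length) with hΓ1'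
  have hs1 : Γ1' ⊆ Γ := (Finset.filter_subset _ _).trans hΓ1
  have hc1' : 2 * (r * m) + 2 * m < Γ1'.card := by
    have h2 : Γ1 ⊆ Γ1' ∪ Γ1.filter (fun y => x1.1 + c.length - r ≤ y.1 ∧
        y.1 < x1.1 + c.length - r + r) := by
      intro y hy
      rw [hΓ1', Finset.mem_union, Finset.mem_filter, Finset.mem_filter]
      have := (hΓ y (hΓ1 hy)).1
      by_cases h3 : y.1 + r ≤ x1.1 + c.length
      · exact Or.inl ⟨hy, h3⟩
      · exact Or.inr ⟨hy, by omega, by omega⟩
    have h3 := (Finset.card_le_card h2).trans (Finset.card_union_le _ _)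
    have h4 := strip m Γ1 (fun a => row_mono hΓ1 (hrow a)) (x1.1 + c.length - r) r
    omega
  obtain ⟨x2, hx2, Γ2, hΓ2, hc2, h2⟩ := pick m r (r * m + m) Γ1'
    (fun a => row_mono hs1 (hrow a)) (fun a => row_mono hs1 (hcol a)) (by omega)
  obtain ⟨x3, hx3, Γ3, hΓ3, hc3, h3⟩ := pick m r 0 Γ2
    (fun a => row_mono (hΓ2.trans hs1) (hrow a)) (fun a => row_mono (hΓ2.trans hs1) (hcol a))
    (by omega)
  obtain ⟨x4, hx4⟩ := Finset.card_pos.1 hc3
  have hx3' := hΓ2 hx3
  have hx4'' := hΓ3 hx4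
  have hx4' := hΓ2 hx4''
  have f12 := h1 x2 (Finset.filter_subset _ _ hx2)
  have f13 := h1 x3 (Finset.filter_subset _ _ hx3')
  have f14 := h1 x4 (Finset.filter_subset _ _ hx4')
  have f23 := h2 x3 hx3
  have f24 := h2 x4 hx4''
  have f34 := h3 x4 hx4
  have g41 := (Finset.mem_filter.1 hx4').2
  have w1 := hΓ x1 hx1
  have w2 := hΓ x2 (hs1 hx2)
  have w3 := hΓ x3 (hs1 hx3')
  have w4 := hΓ x4 (hs1 hx4')
  exact h.quad hr hpc hpd f12.1 f23.1 f34.1 g41 w1.2.1 w2.2.1 w3.2.1 w4.2.1 f12.2.symm f13.2.symm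
    f14.2.symm f23.2.symm f24.2.symm f34.2.symm w1.2.2 w2.2.2 w3.2.2 w4.2.2

theorem pair_bound {V : Type u} [DecidableEq V] {G : SimpleGraph V} {r : ℕ} (hr : 4 ≤ r)
    {C D : Finset V} (hC : CycSet G C) (hD : CycSet G D) (hCD : Disjoint C D)
    (hCr : r ≤ C.card) (hDr : r ≤ D.card)
    (hmin : ∀ C' D', CycSet G C' → CycSet G D' → Disjoint C' D' → C' ⊆ C ∪ D → D' ⊆ C ∪ D →
      r ≤ C'.card → r ≤ D'.card → C.card + D.card ≤ C'.card + D'.card) :
    eS G C D ≤ C.card + D.card + 20 * r ^ 2 := by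
  classical
  obtain ⟨c, hc, hcs⟩ := hC
  obtain ⟨d, hd, hds⟩ := hD
  have hcL := card_of_list (Cyc.nodup hc) hcs
  have hdL := card_of_list (Cyc.nodup hd) hds
  have hpc : 0 < c.length := by omega
  have hpd : 0 < d.length := by omega
  have h : PD G r c d := by
    refine ⟨hc, hd, ?_, by omega, by omega, ?_⟩
    · intro x hx hx'
      exact (Finset.disjoint_left.1 hCD) ((hcs x).1 hx) ((hds x).1 hx')
    · intro s t hs ht hst hs' ht' hsm htm hsr htr
      have := hmin s.toFinset t.toFinset ?_ ?_ ?_ ?_ ?_ ?_ ?_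
      · rw [List.toFinset_card_of_nodup hs, List.toFinset_card_of_nodup ht] at this
        omega
      · obtain ⟨s', h1, h2⟩ := hs'
        exact ⟨s', h1, fun x => by rw [List.mem_toFinset]; exact h2 x⟩
      · obtain ⟨s', h1, h2⟩ := ht'
        exact ⟨s', h1, fun x => by rw [List.mem_toFinset]; exact h2 x⟩
      · rw [Finset.disjoint_left]
        intro x hx hx'
        rw [List.mem_toFinset] at hx hx'
        exact hst x hx hx'
      · intro x hx
        rw [List.mem_toFinset] at hx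
        rw [Finset.mem_union]
        exact (hsm x hx).imp (hcs x).1 (hds x).1
      · intro x hx
        rw [List.mem_toFinset] at hx
        rw [Finset.mem_union]
        exact (htm x hx).imp (hcs x).1 (hds x).1
      · rw [List.toFinset_card_of_nodup hs]; exact hsr
      · rw [List.toFinset_card_of_nodup ht]; exact htr
  set L := c.length with hLdef
  set L' := d.length with hL'def
  -- index pairs
  set Γ0 := ((Finset.range L) ×ˢ (Finset.range L')).filter
    (fun x => G.Adj (cf c hpc x.1) (cf d hpd x.2)) with hΓ0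
  have hinjc : ∀ i < L, ∀ j < L, cf c hpc i = cf c hpc j → i = j := by
    intro i hi j hj hij
    have := cf_inj hpc (Cyc.nodup hc) hij
    rwa [Nat.mod_eq_of_lt hi, Nat.mod_eq_of_lt hj] at this
  have hinjd : ∀ i < L', ∀ j < L', cf d hpd i = cf d hpd j → i = j := by
    intro i hi j hj hij
    have := cf_inj hpd (Cyc.nodup hd) hij
    rwa [Nat.mod_eq_of_lt hi, Nat.mod_eq_of_lt hj] at this
  have hsum : eS G C D ≤ Γ0.card := by
    have e1 : eS G C D = ((C ×ˢ D).filter fun x => G.Adj x.1 x.2).card := by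
      unfold eS
      rw [Finset.card_filter, Finset.sum_product]
      refine Finset.sum_congr rfl fun a _ => ?_
      rw [dg_eq_card, Finset.card_filter]
    rw [e1]
    have e2 : ((C ×ˢ D).filter fun x => G.Adj x.1 x.2) ⊆
        Γ0.image fun x => (cf c hpc x.1, cf d hpd x.2) := by
      rintro ⟨x, y⟩ hxy
      rw [Finset.mem_filter, Finset.mem_product] at hxy
      obtain ⟨i, hi, hix⟩ := exists_cf hpc ((hcs x).2 hxy.1.1)
      obtain ⟨j, hj, hjy⟩ := exists_cf hpd ((hds y).2 hxy.1.2)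
      rw [Finset.mem_image]
      refine ⟨(i, j), ?_, by rw [← hix, ← hjy]⟩
      rw [hΓ0, Finset.mem_filter, Finset.mem_product, Finset.mem_range, Finset.mem_range]
      refine ⟨⟨hi, hj⟩, ?_⟩
      show G.Adj (cf c hpc i) (cf d hpd j)
      rw [hix, hjy]
      exact hxy.2
    exact (Finset.card_le_card e2).trans Finset.card_image_le
  -- wide indices
  set Wb := (Finset.range L').filter (fun b => Wide G r c d hpc hpd b) with hWb
  set Wa := (Finset.range L).filter (fun a => Wide G r d c hpd hpc a) with hWa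
  have hWb1 : Wb.card ≤ 1 := by
    rw [Finset.card_le_one]
    intro a ha b hb
    rw [hWb, Finset.mem_filter, Finset.mem_range] at ha hb
    exact h.wide_unique hr hpc hpd ha.1 hb.1 ha.2 hb.2
  have hWa1 : Wa.card ≤ 1 := by
    rw [Finset.card_le_one]
    intro a ha b hb
    rw [hWa, Finset.mem_filter, Finset.mem_range] at ha hb
    exact h.symm.wide_unique hr hpd hpc ha.1 hb.1 ha.2 hb.2
  set Γ := Γ0.filter (fun x => x.1 ∉ Wa ∧ x.2 ∉ Wb) with hΓ
  have hcov : Γ0 ⊆ Γ ∪ ((Wa ×ˢ Finset.range L') ∪ (Finset.range L ×ˢ Wb)) := by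
    intro x hx
    have hx' := hx
    rw [hΓ0, Finset.mem_filter, Finset.mem_product] at hx'
    rw [Finset.mem_union, Finset.mem_union, Finset.mem_product, Finset.mem_product, hΓ,
      Finset.mem_filter]
    by_cases h1 : x.1 ∈ Wa
    · exact Or.inr (Or.inl ⟨h1, hx'.1.2⟩)
    · by_cases h2 : x.2 ∈ Wb
      · exact Or.inr (Or.inr ⟨hx'.1.1, h2⟩)
      · exact Or.inl ⟨hx, h1, h2⟩
  have hcard : Γ0.card ≤ Γ.card + (L' + L) := by
    have h1 := (Finset.card_le_card hcov).trans (Finset.card_union_le _ _)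
    have h2 := Finset.card_union_le (Wa ×ˢ Finset.range L') (Finset.range L ×ˢ Wb)
    rw [Finset.card_product, Finset.card_product, Finset.card_range, Finset.card_range] at h2
    have h3 : Wa.card * L' ≤ 1 * L' := Nat.mul_le_mul_right _ hWa1
    have h4 : L * Wb.card ≤ L * 1 := Nat.mul_le_mul_left _ hWb1
    omega
  have hfew : Γ.card ≤ (4 * r + 3) * (2 * r + 1) := by
    refine h.few hr hpc hpd Γ ?_ ?_ ?_
    · intro x hx
      rw [hΓ, Finset.mem_filter, hΓ0, Finset.mem_filter, Finset.mem_product, Finset.mem_range,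
        Finset.mem_range] at hx
      exact ⟨hx.1.1.1, hx.1.1.2, hx.1.2⟩
    · intro a
      rcases (Γ.filter fun x => x.1 = a).eq_empty_or_nonempty with h0 | ⟨z, hz⟩
      · rw [h0]; simp
      · rw [Finset.mem_filter, hΓ, Finset.mem_filter, hΓ0, Finset.mem_filter,
          Finset.mem_product, Finset.mem_range, Finset.mem_range] at hz
        have hna : ¬ Wide G r d c hpd hpc a := by
          intro hw
          apply hz.1.2.1
          rw [hWa, Finset.mem_filter, Finset.mem_range, hz.2]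
          exact ⟨hz.2 ▸ hz.1.1.1.1, hw⟩
        refine le_trans ?_ (narrow_card hpd hpc hna)
        refine Finset.card_le_card_of_injOn (fun x => x.2) ?_ ?_
        · intro x hx
          rw [Finset.mem_coe, Finset.mem_filter, hΓ, Finset.mem_filter, hΓ0, Finset.mem_filter,
            Finset.mem_product, Finset.mem_range, Finset.mem_range] at hx
          rw [Finset.mem_coe, Finset.mem_filter, Finset.mem_range]
          refine ⟨hx.1.1.1.2, ?_⟩
          have := hx.1.1.2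
          rw [hx.2] at this
          exact this.symm
        · intro x hx y hy hxy
          rw [Finset.mem_coe, Finset.mem_filter] at hx hy
          exact Prod.ext (hx.2.trans hy.2.symm) hxy
    · intro b
      rcases (Γ.filter fun x => x.2 = b).eq_empty_or_nonempty with h0 | ⟨z, hz⟩
      · rw [h0]; simp
      · rw [Finset.mem_filter, hΓ, Finset.mem_filter, hΓ0, Finset.mem_filter,
          Finset.mem_product, Finset.mem_range, Finset.mem_range] at hz
        have hna : ¬ Wide G r c d hpc hpd b := by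
          intro hw
          apply hz.1.2.2
          rw [hWb, Finset.mem_filter, Finset.mem_range, hz.2]
          exact ⟨hz.2 ▸ hz.1.1.1.2, hw⟩
        refine le_trans ?_ (narrow_card hpc hpd hna)
        refine Finset.card_le_card_of_injOn (fun x => x.1) ?_ ?_
        · intro x hx
          rw [Finset.mem_coe, Finset.mem_filter, hΓ, Finset.mem_filter, hΓ0, Finset.mem_filter,
            Finset.mem_product, Finset.mem_range, Finset.mem_range] at hx
          rw [Finset.mem_coe, Finset.mem_filter, Finset.mem_range]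
          refine ⟨hx.1.1.1.1, ?_⟩
          have := hx.1.1.2
          rw [hx.2] at this
          exact this
        · intro x hx y hy hxy
          rw [Finset.mem_coe, Finset.mem_filter] at hx hy
          exact Prod.ext hxy (hx.2.trans hy.2.symm)
  have hfin : (4 * r + 3) * (2 * r + 1) ≤ 20 * r ^ 2 := by nlinarith
  omega

end Pool.Agent.LCK
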