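import Pool.Agent.LCK.Step
import Pool.Agent.LCK.Even
import Pool.Agent.LCK.Odd

set_option linter.all false

namespace Pool.Agent.LCK

open Pool.Agent.Helper14.LongCyc

universe u

theorem step_sparse (ε : ℝ) (hε : 0 < ε) (C₂ : ℝ) (hC₂ : 0 ≤ C₂) : ∃ c : ℝ, 0 < c ∧ ∃ M : ℕ,
    ∀ {V : Type u} [DecidableEq V] (G : SimpleGraph V) (U : Finset V) (k r p k' : ℕ)
      (P : ℕ → Prop),
      4 ≤ r → P r → (∀ L, P L → r ≤ L) → (∀ L L', P L → r ≤ L' → L' ≤ L → P L') → k' < k →
      (∀ v ∈ U, (1 + ε) * (k : ℝ) * (((r + 1) / 2 : ℕ) : ℝ) ≤ (dg G U v : ℝ)) →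
      (U.card : ℝ) ≤ C₂ * k * r →
      (∃ F, Fam G U P F ∧ F.card = k' ∧ p ≤ ex r F) →
      (∀ F, Fam G U P F → F.card = k' → p ≤ ex r F →
        (∀ F', Fam G U P F' → F'.card = k' → p ≤ ex r F' → tot F ≤ tot F') →
        (∀ F', Fam G U P F' → F'.card = k' + 1 → p ≤ ex r F' → False) →
        M * r ≤ (rest U F).card ∧
        (eS G (rest U F) (rest U F) : ℝ) ≤ c * ((rest U F).card : ℝ) ^ 2) →
      ∃ F, Fam G U P F ∧ F.card = k' + 1 ∧ p ≤ ex r F := by
  obtain ⟨θ, hθ, M, hstep⟩ := step.{u} ε hε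
  have hd : 0 < ε / (4 * C₂ + 1) := by positivity
  refine ⟨min θ (ε / (4 * C₂ + 1)), lt_min hθ hd, M, ?_⟩
  intro V _ G U k r p k' P hr h1 h2 h3 hkk hdeg hU hF0 hF
  refine hstep G U k r p k' P hr h1 h2 h3 hkk hdeg hF0 ?_
  intro F f1 f2 f3 f4 f5
  obtain ⟨g1, g2⟩ := hF F f1 f2 f3 f4 f5
  have hHU : ((rest U F).card : ℝ) ≤ (U.card : ℝ) := by
    exact_mod_cast Finset.card_le_card (rest_subset _ _)
  have hH0 : (0 : ℝ) ≤ ((rest U F).card : ℝ) := Nat.cast_nonneg _
  refine ⟨g1, g2.trans (mul_le_mul_of_nonneg_right (min_le_left _ _) (by positivity)), ?_⟩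
  refine g2.trans ((mul_le_mul_of_nonneg_right (min_le_right _ _) (by positivity)).trans ?_)
  have ha : (r : ℝ) ≤ 2 * (((r + 1) / 2 : ℕ) : ℝ) := by
    have : r ≤ 2 * ((r + 1) / 2) := by omega
    exact_mod_cast this
  have h5 : ((rest U F).card : ℝ) ≤ C₂ * k * (2 * (((r + 1) / 2 : ℕ) : ℝ)) := by
    refine hHU.trans (hU.trans ?_)
    exact mul_le_mul_of_nonneg_left ha (by positivity)
  have h6 : ε / (4 * C₂ + 1) * C₂ ≤ ε / 4 := by
    rw [div_mul_eq_mul_div, div_le_div_iff₀ (by positivity) (by norm_num)]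
    nlinarith
  set a : ℝ := (((r + 1) / 2 : ℕ) : ℝ)
  have ha0 : 0 ≤ a := Nat.cast_nonneg _
  set x : ℝ := ((rest U F).card : ℝ)
  calc ε / (4 * C₂ + 1) * x ^ 2 = (ε / (4 * C₂ + 1) * x) * x := by ring
    _ ≤ (ε / (4 * C₂ + 1) * (C₂ * k * (2 * a))) * x := by
        refine mul_le_mul_of_nonneg_right ?_ hH0
        exact mul_le_mul_of_nonneg_left h5 hd.le
    _ = (ε / (4 * C₂ + 1) * C₂) * (k * (2 * a)) * x := by ring
    _ ≤ (ε / 4) * (k * (2 * a)) * x := by
        refine mul_le_mul_of_nonneg_right ?_ hH0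
        exact mul_le_mul_of_nonneg_right h6 (by positivity)
    _ = ε / 2 * k * a * x := by ring

theorem ex_add {V : Type u} [DecidableEq V] {r : ℕ} {F : Finset (Finset V)} {D : Finset V} :
    ex r F ≤ ex r (insert D F) := by
  unfold ex
  exact Finset.card_le_card (Finset.filter_subset_filter _ (Finset.subset_insert _ _))

/-- step when an even length `2 s ≤ r + 1` is allowed -/
theorem even_step (ε : ℝ) (hε : 0 < ε) (C₂ : ℝ) (hC₂ : 0 ≤ C₂) : ∃ M : ℕ,
    ∀ {V : Type u} [DecidableEq V] (G : SimpleGraph V) (U : Finset V) (k r p k' s : ℕ)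
      (P : ℕ → Prop), 2 ≤ s → 2 * s ≤ r + 1 → P (2 * s) →
      4 ≤ r → P r → (∀ L, P L → r ≤ L) → (∀ L L', P L → r ≤ L' → L' ≤ L → P L') → k' < k →
      (∀ v ∈ U, (1 + ε) * (k : ℝ) * (((r + 1) / 2 : ℕ) : ℝ) ≤ (dg G U v : ℝ)) →
      (U.card : ℝ) ≤ C₂ * k * r →
      (∃ F, Fam G U P F ∧ F.card = k' ∧ p ≤ ex r F) →
      (∀ F, Fam G U P F → F.card = k' → p ≤ ex r F → M * r ≤ (rest U F).card) →
      ∃ F, Fam G U P F ∧ F.card = k' + 1 ∧ p ≤ ex r F := by
  obtain ⟨c, hc, M, hstep⟩ := step_sparse.{u} ε hε C₂ hC₂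
  obtain ⟨M', hM'⟩ := dense_even.{u} c hc
  refine ⟨max M M', ?_⟩
  intro V _ G U k r p k' s P hs hsr hPs hr h1 h2 h3 hkk hdeg hU hF0 hF
  refine hstep G U k r p k' P hr h1 h2 h3 hkk hdeg hU hF0 ?_
  intro F f1 f2 f3 f4 f5
  have g1 := hF F f1 f2 f3
  refine ⟨(Nat.mul_le_mul_right _ (le_max_left _ _)).trans g1, ?_⟩
  by_contra hcon
  push Not at hcon
  obtain ⟨D, hD, hDs, hDc⟩ := hM' G (rest U F) s hs (by
    refine le_trans ?_ g1
    exact Nat.mul_le_mul (le_max_right _ _) (by omega)) hcon.le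
  obtain ⟨e1, e2⟩ := f1.add hD hDs (by rw [hDc]; exact hPs)
  exact f5 _ e1 (by rw [e2, f2]) (f3.trans ex_add)

theorem tot_exact {V : Type u} {G : SimpleGraph V} {U : Finset V} {r : ℕ} {F : Finset (Finset V)}
    (h : Fam G U (fun L => L = r) F) : tot F = F.card * r := by
  unfold tot
  rw [Finset.sum_congr rfl fun s hs => h.len s hs, Finset.sum_const, smul_eq_mul]

/-- odd `r`, exact families -/
theorem odd_step (ε : ℝ) (hε : 0 < ε) (C₂ : ℝ) (hC₂ : 0 ≤ C₂) (γ : ℝ) (hγ : 0 < γ) : ∃ M : ℕ,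
    ∀ {V : Type u} [DecidableEq V] (G : SimpleGraph V) (U : Finset V) (k r k' s : ℕ),
      2 ≤ s → r = 2 * s + 1 → k' < k →
      (∀ v ∈ U, (1 + ε) * (k : ℝ) * (((r + 1) / 2 : ℕ) : ℝ) ≤ (dg G U v : ℝ)) →
      (U.card : ℝ) ≤ C₂ * k * r → (k' + M) * r ≤ U.card →
      (1 + γ) * (U.card : ℝ) + k' < (1 + ε) * (k : ℝ) * ((r : ℝ) + 1) →
      (∃ F, Fam G U (fun L => L = r) F ∧ F.card = k') →
      ∃ F, Fam G U (fun L => L = r) F ∧ F.card = k' + 1 := by
  obtain ⟨c, hc, M, hstep⟩ := step_sparse.{u} ε hε C₂ hC₂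
  obtain ⟨M', hM'⟩ := dense_odd.{u} c γ hc hγ
  refine ⟨max M M', ?_⟩
  intro V _ G U k r k' s hs hrs hkk hdeg hU hUM hbig hF0
  have hr : 4 ≤ r := by omega
  have key := hstep G U k r 0 k' (fun L => L = r) hr rfl (fun L h => h.ge)
    (fun L L' h h1 h2 => by omega) hkk hdeg hU (by
      obtain ⟨F, h1, h2⟩ := hF0
      exact ⟨F, h1, h2, Nat.zero_le _⟩) ?_
  · obtain ⟨F, h1, h2, _⟩ := key
    exact ⟨F, h1, h2⟩
  intro F f1 f2 f3 f4 f5
  have hrest := f1.card_rest
  rw [tot_exact f1, f2] at hrest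
  have g1 : max M M' * r ≤ (rest U F).card := by
    rw [add_mul] at hUM
    omega
  refine ⟨(Nat.mul_le_mul_right _ (le_max_left _ _)).trans g1, ?_⟩
  by_contra hcon
  push Not at hcon
  obtain ⟨A, B, hAH, hBH, hA0, hB0, hAB⟩ := hM' G (rest U F) s hs (by
    refine le_trans ?_ g1
    exact Nat.mul_le_mul (le_max_right _ _) (by omega)) hcon.le
  have hAU : A ⊆ U := hAH.trans (rest_subset _ _)
  have hBU : B ⊆ U := hBH.trans (rest_subset _ _)
  classical
  -- both-vertices
  obtain ⟨both, hboth⟩ : ∃ both : V → Prop, ∀ y, both y ↔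
      (γ * (A.card : ℝ) ≤ (dg G A y : ℝ) ∧ γ * (B.card : ℝ) ≤ (dg G B y : ℝ)) :=
    ⟨_, fun y => Iff.rfl⟩
  have hb1 : ∀ y ∈ rest U F, ¬ both y := by
    intro y hy hb
    rw [hboth] at hb
    obtain ⟨D, hD, hDs, hyD, hDX, hDc⟩ := hAB y ∅ (by simp) (by simp) hb.1 hb.2
    rw [Finset.insert_eq_self.2 hy] at hDs
    obtain ⟨e1, e2⟩ := f1.add hD hDs (by rw [hDc]; exact hrs.symm)
    exact f5 _ e1 (by rw [e2, f2]) (Nat.zero_le _)
  have hb2 : ∀ C ∈ F, (C.filter both).card ≤ 1 := by
    intro C hC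
    rw [Finset.card_le_one]
    intro y hy y' hy'
    by_contra hne
    rw [Finset.mem_filter, hboth] at hy hy'
    obtain ⟨D, hD, hDs, hyD, hDX, hDc⟩ := hAB y ∅ (by simp) (by simp) hy.2.1 hy.2.2
    have hCH : Disjoint C (rest U F) := Fam.rest_disj hC
    have hy'D : y' ∉ D := by
      intro h
      rcases Finset.mem_insert.1 (hDs h) with h | h
      · exact hne h.symm
      · exact (Finset.disjoint_left.1 hCH hy'.1) h
    obtain ⟨D', hD', hDs', hyD', hDX', hDc'⟩ := hAB y' D hy'D (by rw [hDc]) hy'.2.1 hy'.2.2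
    obtain ⟨F', e1, e2, _⟩ := f1.split_one hC hD hD'
      (hDs.trans (by
        intro x hx
        rcases Finset.mem_insert.1 hx with rfl | hx
        · exact Finset.mem_union_left _ hy.1
        · exact Finset.mem_union_right _ hx))
      (hDs'.trans (by
        intro x hx
        rcases Finset.mem_insert.1 hx with rfl | hx
        · exact Finset.mem_union_left _ hy'.1
        · exact Finset.mem_union_right _ hx)) hDX'.symm
      (by rw [hDc]; exact hrs.symm) (by rw [hDc']; exact hrs.symm)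
    exact f5 _ e1 (by rw [e2, f2]) (Nat.zero_le _)
  have hb3 : (U.filter both).card ≤ k' := by
    have h1 := f1.sum_split (fun y => if both y then 1 else 0)
    rw [← Finset.card_filter, ← Finset.card_filter] at h1
    rw [h1]
    have h2 : ((rest U F).filter both).card = 0 := by
      rw [Finset.card_eq_zero, Finset.filter_eq_empty_iff]
      exact fun y hy => hb1 y hy
    rw [h2, zero_add, ← f2, Finset.card_eq_sum_ones]
    refine Finset.sum_le_sum fun C hC => ?_
    rw [← Finset.card_filter]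
    exact hb2 C hC
  have hA1 : (0 : ℝ) < A.card := by exact_mod_cast hA0.card_pos
  have hB1 : (0 : ℝ) < B.card := by exact_mod_cast hB0.card_pos
  -- upper bound
  have hup : ∑ y ∈ U, ((dg G A y : ℝ) / A.card + (dg G B y : ℝ) / B.card) ≤
      (1 + γ) * U.card + k' := by
    have h1 : ∀ y ∈ U, (dg G A y : ℝ) / A.card + (dg G B y : ℝ) / B.card ≤
        (1 + γ) + (if both y then 1 else 0) := by
      intro y _
      have a1 : (dg G A y : ℝ) / A.card ≤ 1 := by
        rw [div_le_one hA1]; exact_mod_cast dg_le A y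
      have b1 : (dg G B y : ℝ) / B.card ≤ 1 := by
        rw [div_le_one hB1]; exact_mod_cast dg_le B y
      by_cases hb : both y
      · rw [if_pos hb]; linarith
      · rw [if_neg hb]
        simp only [hboth, not_and_or, not_le] at hb
        rcases hb with hb | hb
        · have : (dg G A y : ℝ) / A.card < γ := by rwa [div_lt_iff₀ hA1]
          linarith
        · have : (dg G B y : ℝ) / B.card < γ := by rwa [div_lt_iff₀ hB1]
          linarith
    refine (Finset.sum_le_sum h1).trans ?_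
    rw [Finset.sum_add_distrib, Finset.sum_const, nsmul_eq_mul]
    have h2 : ∑ y ∈ U, (if both y then (1 : ℝ) else 0) = ((U.filter both).card : ℝ) := by
      rw [Finset.card_filter]; push_cast; rfl
    rw [h2]
    have h3 : ((U.filter both).card : ℝ) ≤ k' := by exact_mod_cast hb3
    linarith
  -- lower bound
  have hlow : ∀ A' : Finset V, A' ⊆ U → (0 : ℝ) < A'.card →
      (1 + ε) * (k : ℝ) * (((r + 1) / 2 : ℕ) : ℝ) ≤ ∑ y ∈ U, (dg G A' y : ℝ) / A'.card := by
    intro A' hA' hA'0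
    rw [← Finset.sum_div, le_div_iff₀ hA'0]
    have h1 : ∑ y ∈ U, (dg G A' y : ℝ) = ∑ y ∈ A', (dg G U y : ℝ) := by
      have := eS_comm (G := G) U A'
      unfold eS at this
      exact_mod_cast this
    rw [h1]
    calc (1 + ε) * (k : ℝ) * (((r + 1) / 2 : ℕ) : ℝ) * A'.card
        = ∑ y ∈ A', (1 + ε) * (k : ℝ) * (((r + 1) / 2 : ℕ) : ℝ) := by
          rw [Finset.sum_const]; simp; ring
      _ ≤ _ := Finset.sum_le_sum fun y hy => hdeg y (hA' hy)
  have h1 := hlow A hAU hA1
  have h2 := hlow B hBU hB1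
  rw [Finset.sum_add_distrib] at hup
  have h3 : (((r + 1) / 2 : ℕ) : ℝ) = ((r : ℝ) + 1) / 2 := by
    have : (r + 1) / 2 = s + 1 := by omega
    rw [this, hrs]; push_cast; ring
  rw [h3] at h1 h2
  linarith

/-- exact families, `|U|` close to `k r` -/
theorem regA_exact (ε : ℝ) (hε : 0 < ε) : ∃ η : ℝ, 0 < η ∧ ∃ M K : ℕ,
    ∀ {V : Type u} [DecidableEq V] (G : SimpleGraph V) (U : Finset V) (k r : ℕ),
      K ≤ k → 4 ≤ r → (k + M) * r ≤ U.card → (U.card : ℝ) ≤ (1 + η) * (k : ℝ) * (r : ℝ) →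
      (∀ v ∈ U, (1 + ε) * (k : ℝ) * (((r + 1) / 2 : ℕ) : ℝ) ≤ (dg G U v : ℝ)) →
      ∃ F, Fam G U (fun L => L = r) F ∧ F.card = k := by
  obtain ⟨M1, h1⟩ := even_step.{u} ε hε 2 (by norm_num)
  have hγ : 0 < min ε 1 / 4 := by positivity
  obtain ⟨M2, h2⟩ := odd_step.{u} ε hε 2 (by norm_num) (min ε 1 / 4) hγ
  refine ⟨min ε 1 / 4, hγ, max M1 M2, 1, ?_⟩
  intro V _ G U k r hk hr hUM hU hdeg
  have hη1 : min ε 1 / 4 ≤ 1 / 4 := by
    have := min_le_right ε 1
    linarith
  have hηε : min ε 1 / 4 ≤ ε / 4 := by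
    have := min_le_left ε 1
    linarith
  have hkR : (1 : ℝ) ≤ k := by exact_mod_cast hk
  have hrR : (4 : ℝ) ≤ r := by exact_mod_cast hr
  have hU2 : (U.card : ℝ) ≤ 2 * k * r := by
    refine hU.trans ?_
    have : (1 + min ε 1 / 4) * (k : ℝ) * r = (1 + min ε 1 / 4) * ((k : ℝ) * r) := by ring
    rw [this]
    have h0 : 0 ≤ (k : ℝ) * r := by positivity
    nlinarith
  have main : ∀ k' ≤ k, ∃ F, Fam G U (fun L => L = r) F ∧ F.card = k' := by
    intro k'
    induction k' with
    | zero => intro _; exact ⟨∅, Fam.empty, rfl⟩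
    | succ k' ih =>
      intro hk'
      have ih' := ih (by omega)
      rcases Nat.even_or_odd r with he | ho
      · obtain ⟨s, hs⟩ := he
        obtain ⟨F, f1, f2, _⟩ := h1 G U k r 0 k' s (fun L => L = r) (by omega) (by omega)
          (by omega) hr rfl (fun L h => h.ge) (fun L L' h h1 h2 => by omega) (by omega) hdeg hU2
          (by obtain ⟨F, f1, f2⟩ := ih'; exact ⟨F, f1, f2, Nat.zero_le _⟩) (by
            intro F f1 f2 _
            have hrest := f1.card_rest
            rw [tot_exact f1, f2] at hrest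
            have e1 : (k' + M1) * r ≤ (k + max M1 M2) * r :=
              Nat.mul_le_mul_right _ (Nat.add_le_add (by omega) (le_max_left _ _))
            rw [add_mul] at e1
            omega)
        exact ⟨F, f1, f2⟩
      · obtain ⟨s, hs⟩ := ho
        refine h2 G U k r k' s (by omega) hs (by omega) hdeg hU2 ?_ ?_ ih'
        · exact (Nat.mul_le_mul_right _ (Nat.add_le_add (by omega) (le_max_right _ _))).trans hUM
        · have hk'R : (k' : ℝ) + 1 ≤ k := by exact_mod_cast hk'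
          have e0 : 0 ≤ (k : ℝ) * r := by positivity
          set η := min ε 1 / 4
          have e1 : (1 + η) * (U.card : ℝ) ≤ (1 + η) * ((1 + η) * (k : ℝ) * r) :=
            mul_le_mul_of_nonneg_left hU (by linarith)
          have e2 : (1 + η) * (1 + η) ≤ 1 + ε := by nlinarith
          have e3 : (1 + η) * ((1 + η) * (k : ℝ) * r) ≤ (1 + ε) * ((k : ℝ) * r) := by
            have : (1 + η) * ((1 + η) * (k : ℝ) * r) = (1 + η) * (1 + η) * ((k : ℝ) * r) := by ring
            rw [this]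
            exact mul_le_mul_of_nonneg_right e2 e0
          have e4 : (1 + ε) * (k : ℝ) * ((r : ℝ) + 1) = (1 + ε) * ((k : ℝ) * r) + (1 + ε) * k := by
            ring
          rw [e4]
          nlinarith
  exact main k le_rfl

/-- near-exact families: number of members of size `r` controls the total length -/
theorem tot_near {V : Type u} {G : SimpleGraph V} {U : Finset V} {r : ℕ} {F : Finset (Finset V)}
    (h : Fam G U (fun L => L = r ∨ L = r + 1) F) : tot F + ex r F = F.card * (r + 1) := by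
  classical
  unfold tot ex
  rw [Finset.card_filter, ← Finset.sum_add_distrib, Finset.card_eq_sum_ones, Finset.sum_mul]
  refine Finset.sum_congr rfl fun s hs => ?_
  rcases h.len s hs with h | h
  · rw [if_pos h, h]; ring
  · rw [if_neg (by omega), h]; ring

theorem ex_exact {V : Type u} {G : SimpleGraph V} {U : Finset V} {r : ℕ} {F : Finset (Finset V)}
    (h : Fam G U (fun L => L = r) F) : ex r F = F.card := by
  unfold ex
  rw [Finset.filter_true_of_mem]
  exact fun s hs => h.len s hs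

theorem regA (ε : ℝ) (hε : 0 < ε) (C₂ : ℕ) : ∃ M K : ℕ,
    ∀ {V : Type u} [DecidableEq V] (G : SimpleGraph V) (U : Finset V) (k r : ℕ),
      K ≤ k → 4 ≤ r → (k + M) * r ≤ U.card → U.card ≤ C₂ * k * r →
      (∀ v ∈ U, (1 + ε) * (k : ℝ) * (((r + 1) / 2 : ℕ) : ℝ) ≤ (dg G U v : ℝ)) →
      ∃ F, Fam G U (fun L => r ≤ L) F ∧ F.card = k := by
  have hC0 : (0 : ℝ) ≤ C₂ := Nat.cast_nonneg _
  obtain ⟨M1, h1⟩ := even_step.{u} ε hε C₂ hC0
  have hγ : 0 < ε / (2 * C₂ + 1) := by positivity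
  obtain ⟨M2, h2⟩ := odd_step.{u} ε hε C₂ hC0 (ε / (2 * C₂ + 1)) hγ
  obtain ⟨K1, hK1⟩ := exists_nat_ge (2 * M1 / ε)
  refine ⟨max M1 M2, max 1 K1, ?_⟩
  intro V _ G U k r hk hr hUM hU hdeg
  have hk1 : 1 ≤ k := (le_max_left _ _).trans hk
  have hkK : K1 ≤ k := (le_max_right _ _).trans hk
  have hkR : (1 : ℝ) ≤ k := by exact_mod_cast hk1
  have hrR : (4 : ℝ) ≤ r := by exact_mod_cast hr
  have hU2 : (U.card : ℝ) ≤ C₂ * k * r := by exact_mod_cast hU
  rcases Nat.even_or_odd r with he | ho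
  · obtain ⟨s, hs⟩ := he
    have main : ∀ k' ≤ k, ∃ F, Fam G U (fun L => L = r) F ∧ F.card = k' := by
      intro k'
      induction k' with
      | zero => intro _; exact ⟨∅, Fam.empty, rfl⟩
      | succ k' ih =>
        intro hk'
        have ih' := ih (by omega)
        obtain ⟨F, f1, f2, _⟩ := h1 G U k r 0 k' s (fun L => L = r) (by omega) (by omega)
          (by omega) hr rfl (fun L h => h.ge) (fun L L' h h1 h2 => by omega) (by omega) hdeg hU2
          (by obtain ⟨F, f1, f2⟩ := ih'; exact ⟨F, f1, f2, Nat.zero_le _⟩) (by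
            intro F f1 f2 _
            have hrest := f1.card_rest
            rw [tot_exact f1, f2] at hrest
            have e1 : (k' + M1) * r ≤ (k + max M1 M2) * r :=
              Nat.mul_le_mul_right _ (Nat.add_le_add (by omega) (le_max_left _ _))
            rw [add_mul] at e1
            omega)
        exact ⟨F, f1, f2⟩
    obtain ⟨F, f1, f2⟩ := main k le_rfl
    exact ⟨F, f1.mono (Finset.Subset.refl _) (fun n hn => hn.ge), f2⟩
  · obtain ⟨s, hs⟩ := ho
    set γ : ℝ := ε / (2 * C₂ + 1) with hγdef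
    -- stage 1
    have stage1 : ∃ p ≤ k, (∃ F, Fam G U (fun L => L = r) F ∧ F.card = p) ∧
        (p = k ∨ (1 + ε) * (k : ℝ) * ((r : ℝ) + 1) ≤ (1 + γ) * (U.card : ℝ) + p) := by
      by_contra hcon
      push Not at hcon
      have main : ∀ k' ≤ k, ∃ F, Fam G U (fun L => L = r) F ∧ F.card = k' := by
        intro k'
        induction k' with
        | zero => intro _; exact ⟨∅, Fam.empty, rfl⟩
        | succ k' ih =>
          intro hk'
          have ih' := ih (by omega)
          obtain ⟨c1, c2⟩ := hcon k' (by omega) ih'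
          refine h2 G U k r k' s (by omega) hs (by omega) hdeg hU2 ?_ c2 ih'
          exact (Nat.mul_le_mul_right _ (Nat.add_le_add (by omega) (le_max_right _ _))).trans hUM
      exact (hcon k le_rfl (main k le_rfl)).1 rfl
    obtain ⟨p, hpk, ⟨F0, hF0, hF0p⟩, hp⟩ := stage1
    -- stage 2
    have stage2 : ∀ j, p + j ≤ k → ∃ F, Fam G U (fun L => L = r ∨ L = r + 1) F ∧
        F.card = p + j ∧ p ≤ ex r F := by
      intro j
      induction j with
      | zero =>
        intro _
        exact ⟨F0, hF0.mono (Finset.Subset.refl _) (fun n hn => Or.inl hn), hF0p, by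
          rw [ex_exact hF0, hF0p]⟩
      | succ j ih =>
        intro hj
        have ih' := ih (by omega)
        refine h1 G U k r p (p + j) (s + 1) (fun L => L = r ∨ L = r + 1) (by omega) (by omega)
          (Or.inr (by omega)) hr (Or.inl rfl) (by intro L h; omega) (by intro L L' h h1 h2; omega)
          (by omega) hdeg hU2 ih' ?_
        intro F f1 f2 f3
        have hrest := f1.card_rest
        have htot := tot_near f1
        rw [f2] at htot
        have hpk' : p ≠ k := by omega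
        have hb := hp.resolve_left hpk'
        have e1 : (M1 * r : ℝ) ≤ ((rest U F).card : ℝ) := by
          have r1 : ((rest U F).card : ℝ) + tot F = U.card := by exact_mod_cast hrest
          have r2 : (tot F : ℝ) + ex r F = (p + j) * (r + 1) := by exact_mod_cast htot
          have r3 : (p : ℝ) ≤ ex r F := by exact_mod_cast f3
          have r4 : (p : ℝ) + j ≤ k := by exact_mod_cast (by omega : p + j ≤ k)
          have r5 : ((p : ℝ) + j) * (r + 1) ≤ k * (r + 1) :=
            mul_le_mul_of_nonneg_right r4 (by positivity)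
          have r6 : γ * (U.card : ℝ) ≤ ε / 2 * (k * r) := by
            have q1 : γ * (U.card : ℝ) ≤ γ * (C₂ * k * r) :=
              mul_le_mul_of_nonneg_left hU2 hγ.le
            have q2 : γ * C₂ ≤ ε / 2 := by
              rw [hγdef, div_mul_eq_mul_div, div_le_div_iff₀ (by positivity) (by norm_num)]
              nlinarith
            have q3 : γ * (C₂ * k * r) = (γ * C₂) * (k * r) := by ring
            rw [q3] at q1
            exact q1.trans (mul_le_mul_of_nonneg_right q2 (by positivity))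
          have r7 : (M1 : ℝ) ≤ ε / 2 * k := by
            have q1 : (2 * M1 / ε : ℝ) ≤ k := hK1.trans (by exact_mod_cast hkK)
            rw [div_le_iff₀ hε] at q1
            linarith
          have r8 : (M1 : ℝ) * r ≤ ε / 2 * k * r := mul_le_mul_of_nonneg_right r7 (by positivity)
          nlinarith
        exact_mod_cast e1
    obtain ⟨F, f1, f2, _⟩ := stage2 (k - p) (by omega)
    exact ⟨F, f1.mono (Finset.Subset.refl _) (by intro n hn; omega), by rw [f2]; omega⟩

end Pool.Agent.LCK
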